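import Pool.Agent.Lib.MP_9a92d3_gt.CokFin
import Pool.Agent.Lib.MP_9a92d3_gt.Mg.G001

set_option autoImplicit false

/-!
# A lower bound for the order of the cokernel
-/

namespace Pool.Agent.Lib.MP_9a92d3_gt

open Polynomial Gens4

section zpw

variable {M : Type} [Monoid M] {n : ℕ} [NeZero n] {u : M}

/-- powers with exponents in `ZMod n` -/
def zpw (u : M) (a : ZMod n) : M := u ^ a.val

theorem zpw_add (hu : u ^ n = 1) (a b : ZMod n) : zpw u (a + b) = zpw u a * zpw u b := by
  unfold zpw
  rw [ZMod.val_add, ← pow_eq_pow_mod _ hu, pow_add]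

theorem zpw_zero : zpw u (0 : ZMod n) = 1 := by
  unfold zpw
  rw [ZMod.val_zero, pow_zero]

theorem zpw_natCast (hu : u ^ n = 1) (j : ℕ) : zpw u (j : ZMod n) = u ^ j := by
  unfold zpw
  rw [ZMod.val_natCast, ← pow_eq_pow_mod _ hu]

theorem zpw_one (hu : u ^ n = 1) : zpw u (1 : ZMod n) = u := by
  have := zpw_natCast hu 1
  rwa [Nat.cast_one, pow_one] at this

end zpw

section card

variable {R : Type} [CommRing R]

theorem card_adjoinRoot [Finite R] (g : R[X]) (hg : g.Monic) :
    Nat.card (AdjoinRoot g) = Nat.card R ^ g.natDegree ∧ Finite (AdjoinRoot g) := by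
  have e := (AdjoinRoot.powerBasis' hg).basis.equivFun
  have hfin : Finite (Fin (AdjoinRoot.powerBasis' hg).dim → R) := inferInstance
  refine ⟨?_, Finite.of_equiv _ e.symm.toEquiv⟩
  rw [Nat.card_congr e.toEquiv, Nat.card_pi, Finset.prod_const, Finset.card_univ, Fintype.card_fin,
    AdjoinRoot.powerBasis'_dim]

end card

namespace Low

variable (m : ℕ)

/-- the modulus -/
def nn : ℕ := 2 ^ (m + 1) - 1

theorem nn_pos : 0 < nn m := by
  unfold nn
  have : 2 ^ 1 ≤ 2 ^ (m + 1) := Nat.pow_le_pow_right (by norm_num) (by omega)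
  omega

instance : NeZero (nn m) := ⟨(nn_pos m).ne'⟩

/-- the ring generated by `z` -/
abbrev O : Type := AdjoinRoot (cyclotomic m (ZMod (nn m)))

/-- the polynomial of `x` -/
noncomputable abbrev px : (O m)[X] := X ^ m + 1

/-- the ring generated by `x` and `z` -/
abbrev R2 : Type := AdjoinRoot (px m)

noncomputable def xx : R2 m := AdjoinRoot.root (px m)

noncomputable def zz : R2 m := AdjoinRoot.of (px m) (AdjoinRoot.root (cyclotomic m (ZMod (nn m))))

variable [NeZero m]

theorem px_monic : (px m).Monic := monic_X_pow_add_C 1 (NeZero.ne m)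

theorem natDegree_px [Nontrivial (O m)] : (px m).natDegree = m := natDegree_X_pow_add_C (r := 1)

theorem xx_pow : xx m ^ m = -1 := by
  have h := AdjoinRoot.eval₂_root (px m)
  rw [px, eval₂_add, eval₂_X_pow, eval₂_one] at h
  exact eq_neg_of_add_eq_zero_left h

theorem aeval_zz : aeval (zz m) (cyclotomic m ℤ) = 0 := by
  have h2 : aeval (AdjoinRoot.root (cyclotomic m (ZMod (nn m)))) (cyclotomic m ℤ) = 0 := by
    rw [← aeval_map_algebraMap (ZMod (nn m)), map_cyclotomic, AdjoinRoot.aeval_eq,
      AdjoinRoot.mk_self]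
  have h3 := congrArg (AdjoinRoot.of (px m)) h2
  rw [map_zero] at h3
  rw [← h3, zz, aeval_def, aeval_def, hom_eval₂]
  congr 1

theorem zz_pow : zz m ^ m = 1 := by
  have h : (cyclotomic m ℤ) ∣ X ^ m - 1 := cyclotomic.dvd_X_pow_sub_one m ℤ
  obtain ⟨q, hq⟩ := h
  have h1 := congrArg (aeval (zz m)) hq
  rw [map_mul, aeval_zz, zero_mul, map_sub, map_pow, aeval_X, map_one] at h1
  exact sub_eq_zero.mp h1

theorem two_pow : (2 : R2 m) ^ (m + 1) = 1 := by
  have h : ((nn m : ℕ) : ZMod (nn m)) = 0 := ZMod.natCast_self _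
  have h1 := congrArg (fun t => AdjoinRoot.of (px m) (AdjoinRoot.of (cyclotomic m (ZMod (nn m))) t)) h
  simp only [map_natCast, map_zero] at h1
  have h2 : nn m + 1 = 2 ^ (m + 1) := by
    unfold nn
    have : 0 < 2 ^ (m + 1) := by positivity
    omega
  have h3 : ((nn m + 1 : ℕ) : R2 m) = 1 := by
    push_cast
    rw [h1, zero_add]
  rw [h2] at h3
  push_cast at h3
  exact h3

theorem xx_pow2 : xx m ^ (2 * m) = 1 := by
  rw [mul_comm, pow_mul, xx_pow]
  norm_num

/-- the coefficients -/
noncomputable def cc (b : ZMod m) : R2 m :=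
  ∏ l ∈ Finset.range b.val, (2 * (1 - xx m * zz m ^ l))

theorem cc_zero : cc m 0 = 1 := by
  unfold cc
  rw [ZMod.val_zero, Finset.prod_range_zero]

theorem cc_succ (b : ZMod m) : cc m (b + 1) = 2 * (1 - xx m * zpw (zz m) b) * cc m b := by
  have hb := ZMod.val_lt b
  unfold zpw
  by_cases h : b.val + 1 < m
  · have h1 : (b + 1).val = b.val + 1 := by
      have : Fact (1 < m) := ⟨by omega⟩
      rw [ZMod.val_add_of_lt]
      · rw [ZMod.val_one]
      · rw [ZMod.val_one]; exact h
    unfold cc
    rw [h1, Finset.prod_range_succ]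
    ring
  · have h1 : b.val + 1 = m := by omega
    have h2 : b + 1 = 0 := by
      have : ((b.val + 1 : ℕ) : ZMod m) = 0 := by rw [h1, ZMod.natCast_self]
      rwa [Nat.cast_add, ZMod.natCast_zmod_val, Nat.cast_one] at this
    rw [h2, cc_zero, cc, mul_comm, ← Finset.prod_range_succ (fun l => 2 * (1 - xx m * zz m ^ l)),
      h1, Finset.prod_mul_distrib, prod_eq_of_cyclotomic m (Nat.pos_of_ne_zero (NeZero.ne m)) _ _
      (aeval_zz m), xx_pow, Finset.prod_const, Finset.card_range]
    calc (1 : R2 m) = 2 ^ (m + 1) := (two_pow m).symm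
      _ = 2 ^ m * (1 - -1) := by ring

/-- the additive group generated by the monomials -/
theorem top_of_monomials (N : AddSubgroup (R2 m)) (h : ∀ i j : ℕ, xx m ^ i * zz m ^ j ∈ N)
    (r : R2 m) : r ∈ N := by
  have key : ∀ (i : ℕ) (o : O m), AdjoinRoot.of (px m) o * xx m ^ i ∈ N := by
    intro i o
    obtain ⟨q, rfl⟩ := AdjoinRoot.mk_surjective o
    induction q using Polynomial.induction_on' with
    | add p q hp hq =>
      rw [map_add, map_add, add_mul]
      exact N.add_mem hp hq
    | monomial j a =>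
      obtain ⟨a, rfl⟩ := ZMod.intCast_surjective a
      rw [← C_mul_X_pow_eq_monomial, map_mul, map_pow, AdjoinRoot.mk_C, AdjoinRoot.mk_X, map_mul,
        map_pow, map_intCast, map_intCast, mul_assoc, ← zsmul_eq_mul, mul_comm]
      exact N.zsmul_mem (h i j) a
  obtain ⟨p, rfl⟩ := AdjoinRoot.mk_surjective r
  induction p using Polynomial.induction_on' with
  | add p q hp hq =>
    rw [map_add]
    exact N.add_mem hp hq
  | monomial i a =>
    rw [← C_mul_X_pow_eq_monomial, map_mul, map_pow, AdjoinRoot.mk_C, AdjoinRoot.mk_X]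
    exact key i a

theorem card_O : Nat.card (O m) = nn m ^ Nat.totient m ∧ Finite (O m) := by
  have h := card_adjoinRoot (cyclotomic m (ZMod (nn m))) (cyclotomic.monic _ _)
  rw [Nat.card_zmod] at h
  have : Fact (1 < nn m) := ⟨by
    unfold nn
    have : 2 ^ 2 ≤ 2 ^ (m + 1) := Nat.pow_le_pow_right (by norm_num)
      (by have := NeZero.pos m; omega)
    omega⟩
  rw [natDegree_cyclotomic] at h
  exact h

theorem card_R2 : Nat.card (R2 m) = (nn m ^ Nat.totient m) ^ m ∧ Finite (R2 m) := by
  have h1 := card_O m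
  have : Finite (O m) := h1.2
  have hn : Nontrivial (O m) := by
    rw [← Finite.one_lt_card_iff_nontrivial, h1.1]
    have h2 : 1 < nn m := by
      unfold nn
      have : 2 ^ 2 ≤ 2 ^ (m + 1) := Nat.pow_le_pow_right (by norm_num)
        (by have := NeZero.pos m; omega)
      omega
    exact Nat.one_lt_pow (Nat.totient_pos.mpr (NeZero.pos m)).ne' h2
  have h := card_adjoinRoot (px m) (px_monic m)
  rw [natDegree_px, h1.1] at h
  exact h

variable (k : ℕ) [NeZero k]

/-- the homomorphism detecting the cokernel, on group elements -/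
noncomputable def th (g : PK (Hs (pr (2 * m) m (Dvd.intro_left 2 rfl))) k) :
    Multiplicative (ZMod k) → R2 m := by
  classical
  exact Pi.single g.2 (zpw (xx m) g.1.a *
    zpw (zz m) (pr (2 * m) m (Dvd.intro_left 2 rfl) g.1.a * g.1.b - g.1.c) * cc m g.1.b)

/-- the homomorphism detecting the cokernel -/
noncomputable def theta : Z (PK (Hs (pr (2 * m) m (Dvd.intro_left 2 rfl))) k) →ₗ[ℤ]
    (Multiplicative (ZMod k) → R2 m) := lin (th m k)

theorem theta_fmap (u) :
    theta m k (fmap (((Hs.gens (pr (2 * m) m (Dvd.intro_left 2 rfl))).RK k).lab .x)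
      (((Hs.gens (pr (2 * m) m (Dvd.intro_left 2 rfl))).RK k).lab .y) u) = 0 := by
  classical
  have : (theta m k).comp (fmap (((Hs.gens (pr (2 * m) m (Dvd.intro_left 2 rfl))).RK k).lab .x)
      (((Hs.gens (pr (2 * m) m (Dvd.intro_left 2 rfl))).RK k).lab .y)) = 0 := by
    refine lin_ext ?_
    rintro ⟨⟨a, b, c⟩, t⟩
    rw [LinearMap.comp_apply, fmap_bas, map_add, map_sub, map_smul, map_smul]
    unfold theta
    rw [lin_bas, lin_bas, lin_bas, LinearMap.zero_apply]
    have hx : xx m ^ (2 * m) = 1 := xx_pow2 m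
    have hz : zz m ^ m = 1 := zz_pow m
    have e1 : th m k (((⟨a, b, c⟩, t) : PK (Hs (pr (2 * m) m (Dvd.intro_left 2 rfl))) k) * ((Hs.gens (pr (2 * m) m (Dvd.intro_left 2 rfl))).RK k).lab .y) =
        Pi.single t (zpw (xx m) a *
          zpw (zz m) (pr (2 * m) m (Dvd.intro_left 2 rfl) a * b - c) *
            (2 * (1 - xx m * zpw (zz m) b) * cc m b)) := by
      rw [← cc_succ]
      unfold th
      have q1 : (((⟨a, b, c⟩, t) : PK (Hs (pr (2 * m) m (Dvd.intro_left 2 rfl))) k) * ((Hs.gens (pr (2 * m) m (Dvd.intro_left 2 rfl))).RK k).lab .y).2 = t :=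
        mul_one t
      rw [q1]
      congr 2
      · congr 2
        · show a + 0 = a
          rw [add_zero]
        · show pr (2 * m) m (Dvd.intro_left 2 rfl) (a + 0) * (b + 1) -
            (c + 0 + pr (2 * m) m (Dvd.intro_left 2 rfl) a * 1) = _
          rw [add_zero]
          ring
    have e2 : th m k (((⟨a, b, c⟩, t) : PK (Hs (pr (2 * m) m (Dvd.intro_left 2 rfl))) k) * ((Hs.gens (pr (2 * m) m (Dvd.intro_left 2 rfl))).RK k).lab .x) =
        Pi.single t (zpw (xx m) a *
          zpw (zz m) (pr (2 * m) m (Dvd.intro_left 2 rfl) a * b - c) *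
            (xx m * zpw (zz m) b * cc m b)) := by
      unfold th
      have q1 : (((⟨a, b, c⟩, t) : PK (Hs (pr (2 * m) m (Dvd.intro_left 2 rfl))) k) * ((Hs.gens (pr (2 * m) m (Dvd.intro_left 2 rfl))).RK k).lab .x).2 = t :=
        mul_one t
      rw [q1]
      congr 1
      have p1 : zpw (xx m) (a + 1) = zpw (xx m) a * xx m := by
        rw [zpw_add hx, zpw_one hx]
      have p2 : zpw (zz m) (pr (2 * m) m (Dvd.intro_left 2 rfl) (a + 1) * (b + 0) -
          (c + 0 + pr (2 * m) m (Dvd.intro_left 2 rfl) a * 0)) =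
          zpw (zz m) (pr (2 * m) m (Dvd.intro_left 2 rfl) a * b - c) * zpw (zz m) b := by
        rw [← zpw_add hz]
        congr 1
        rw [map_add, map_one]
        ring
      have p3 : cc m (b + 0) = cc m b := by rw [add_zero]
      show zpw (xx m) (a + 1) * zpw (zz m) (pr (2 * m) m (Dvd.intro_left 2 rfl) (a + 1) * (b + 0) -
          (c + 0 + pr (2 * m) m (Dvd.intro_left 2 rfl) a * 0)) * cc m (b + 0) = _
      rw [p1, p2, p3]
      ring
    rw [e1, e2]
    unfold th
    rw [← Pi.single_smul, ← Pi.single_smul, ← Pi.single_sub, ← Pi.single_add]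
    refine (Pi.single_eq_zero_iff).mpr ?_
    simp only [zsmul_eq_mul]
    push_cast
    ring
  exact LinearMap.congr_fun this u

theorem theta_surjective : Function.Surjective (theta m k) := by
  classical
  have hx : xx m ^ (2 * m) = 1 := xx_pow2 m
  have hz : zz m ^ m = 1 := zz_pow m
  have key : ∀ (t : Multiplicative (ZMod k)) (r : R2 m),
      (Pi.single t r : Multiplicative (ZMod k) → R2 m) ∈ LinearMap.range (theta m k) := by
    intro t
    refine top_of_monomials m (AddSubgroup.comap
      (AddMonoidHom.single (fun _ : Multiplicative (ZMod k) => R2 m) t)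
      (LinearMap.range (theta m k)).toAddSubgroup) ?_
    intro i j
    refine ⟨bas (⟨(i : ZMod (2 * m)), 0, -(j : ZMod m)⟩, t), ?_⟩
    unfold theta
    rw [lin_bas]
    unfold th
    show Pi.single t _ = Pi.single t _
    congr 1
    show zpw (xx m) (i : ZMod (2 * m)) * zpw (zz m)
      (pr (2 * m) m (Dvd.intro_left 2 rfl) (i : ZMod (2 * m)) * 0 - (-(j : ZMod m))) * cc m 0 = _
    rw [cc_zero, mul_zero, zero_sub, neg_neg, zpw_natCast hx, zpw_natCast hz, mul_one]
  intro f
  have : f = ∑ t, Pi.single t (f t) := (Finset.univ_sum_single f).symm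
  rw [this]
  exact Submodule.sum_mem _ fun t _ => key t (f t)

/-- The lower bound. -/
theorem card_le :
    nn m ^ (Nat.totient m * m * k) ≤
      Nat.card (Coker (((Hs.gens (pr (2 * m) m (Dvd.intro_left 2 rfl))).RK k).lab .x)
        (((Hs.gens (pr (2 * m) m (Dvd.intro_left 2 rfl))).RK k).lab .y)) := by
  have hfin := finite_coker (((Hs.gens (pr (2 * m) m (Dvd.intro_left 2 rfl))).RK k).lab .x)
        (((Hs.gens (pr (2 * m) m (Dvd.intro_left 2 rfl))).RK k).lab .y)
  let F := Submodule.liftQ (LinearMap.range (fmap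
      (((Hs.gens (pr (2 * m) m (Dvd.intro_left 2 rfl))).RK k).lab .x)
      (((Hs.gens (pr (2 * m) m (Dvd.intro_left 2 rfl))).RK k).lab .y))) (theta m k) (by
    rintro _ ⟨u, rfl⟩
    exact theta_fmap m k u)
  have hF : Function.Surjective F := by
    intro f
    obtain ⟨u, hu⟩ := theta_surjective m k f
    exact ⟨Submodule.Quotient.mk u, hu⟩
  have h1 := Nat.card_le_card_of_surjective F hF
  refine le_trans (le_of_eq ?_) h1
  rw [Nat.card_pi, Finset.prod_const, (card_R2 m).1, Finset.card_univ]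
  have : Fintype.card (Multiplicative (ZMod k)) = k := by
    rw [Fintype.card_multiplicative, ZMod.card]
  rw [this, ← pow_mul, ← pow_mul, mul_assoc]

end Low

end Pool.Agent.Lib.MP_9a92d3_gt
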