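import Pool.Agent.Lib.MP_9a92d3_gt.Upper
import Pool.Agent.Lib.MP_9a92d3_gt.Lower

set_option autoImplicit false

/-!
# Two chains with different torsion growth
-/

namespace Pool.Agent.Lib.MP_9a92d3_gt

open Filter Topology Gens4

theorem eq_zero_of_dvd_all (m : ℕ → ℕ) (hm : ∀ B : ℕ, ∃ i, B < m i) (a : ℤ)
    (h : ∀ i, (m i : ℤ) ∣ a) : a = 0 := by
  obtain ⟨i, hi⟩ := hm a.natAbs
  refine Int.eq_zero_of_abs_lt_dvd (h i) ?_
  rw [Int.abs_eq_natAbs]
  exact_mod_cast hi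

theorem chain_of (n m : ℕ → ℕ) (h : ∀ i, m i ∣ n i) (hn : ∀ i, 0 < n i) (n0 : n 0 = 1)
    (hn' : ∀ i, n i ∣ n (i + 1)) (hm' : ∀ i, m i ∣ m (i + 1)) (hm : ∀ B : ℕ, ∃ i, B < m i) :
    IsFiniteIndexNormalChain (fun i => cong (n i) (m i) (m i) (h i)) := by
  have hmp : ∀ i, 0 < m i := fun i => Nat.pos_of_dvd_of_pos (h i) (hn i)
  have m0 : m 0 = 1 := by
    have := h 0
    rw [n0] at this
    exact Nat.dvd_one.mp this
  refine ⟨?_, ?_, fun i => inferInstance, ?_, ?_⟩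
  · rw [eq_top_iff]
    intro g _
    show g ∈ cong (n 0) (m 0) (m 0) (h 0)
    rw [mem_cong, n0, m0]
    simp
  · intro i g hg
    have hg' : g ∈ cong (n (i + 1)) (m (i + 1)) (m (i + 1)) (h (i + 1)) := hg
    rw [mem_cong] at hg'
    show g ∈ cong (n i) (m i) (m i) (h i)
    rw [mem_cong]
    have e1 : (n i : ℤ) ∣ (n (i + 1) : ℤ) := by exact_mod_cast hn' i
    have e2 : (m i : ℤ) ∣ (m (i + 1) : ℤ) := by exact_mod_cast hm' i
    exact ⟨e1.trans hg'.1, e2.trans hg'.2.1, e2.trans hg'.2.2.1, e2.trans hg'.2.2.2⟩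
  · intro i
    have : NeZero (n i) := ⟨(hn i).ne'⟩
    have : NeZero (m i) := ⟨(hmp i).ne'⟩
    refine ⟨?_⟩
    show (cong (n i) (m i) (m i) (h i)).index ≠ 0
    rw [index_cong]
    have a1 := hn i
    have a2 := hmp i
    positivity
  · rw [eq_bot_iff]
    intro g hg
    rw [Subgroup.mem_iInf] at hg
    have hg' : ∀ i, (n i : ℤ) ∣ g.1.a ∧ (m i : ℤ) ∣ g.1.b ∧ (m i : ℤ) ∣ g.1.c ∧
      (m i : ℤ) ∣ Multiplicative.toAdd g.2 := fun i => (mem_cong _ _ _ _ _).mp (hg i)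
    rw [Subgroup.mem_bot]
    refine Prod.ext (Hs.ext ?_ ?_ ?_) ?_
    · refine eq_zero_of_dvd_all m hm _ fun i => ?_
      have e : (m i : ℤ) ∣ (n i : ℤ) := by exact_mod_cast h i
      exact e.trans (hg' i).1
    · exact eq_zero_of_dvd_all m hm _ fun i => (hg' i).2.1
    · exact eq_zero_of_dvd_all m hm _ fun i => (hg' i).2.2.1
    · exact eq_zero_of_dvd_all m hm _ fun i => (hg' i).2.2.2

theorem seven_unbounded (B : ℕ) : ∃ i, B < 7 ^ i := ⟨B, Nat.lt_pow_self (by norm_num)⟩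

/-- the first chain -/
def NA (i : ℕ) : Subgroup GG := cong (7 ^ i) (7 ^ i) (7 ^ i) (dvd_refl _)

theorem chainA : IsFiniteIndexNormalChain NA :=
  chain_of (fun i => 7 ^ i) (fun i => 7 ^ i) (fun _ => dvd_refl _) (fun i => by positivity)
    (by norm_num) (fun i => pow_dvd_pow _ (Nat.le_succ i)) (fun i => pow_dvd_pow _ (Nat.le_succ i))
    seven_unbounded

/-- the first modulus in the second chain -/
def nB (i : ℕ) : ℕ := if i = 0 then 1 else 2 * 7 ^ i

theorem dvd_nB (i : ℕ) : 7 ^ i ∣ nB i := by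
  unfold nB
  by_cases h : i = 0
  · subst h; simp
  · rw [if_neg h]
    exact Dvd.intro_left 2 rfl

/-- the second chain -/
def NB (i : ℕ) : Subgroup GG := cong (nB i) (7 ^ i) (7 ^ i) (dvd_nB i)

theorem chainB : IsFiniteIndexNormalChain NB := by
  refine chain_of nB (fun i => 7 ^ i) dvd_nB (fun i => ?_) (by simp [nB]) (fun i => ?_)
    (fun i => pow_dvd_pow _ (Nat.le_succ i)) seven_unbounded
  · unfold nB
    split_ifs
    · norm_num
    · positivity
  · unfold nB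
    rw [if_neg (Nat.succ_ne_zero i)]
    split_ifs
    · exact one_dvd _
    · exact Nat.mul_dvd_mul_left 2 (pow_dvd_pow _ (Nat.le_succ i))

theorem boundA (j : ℕ) : (ggens.cover.quotient (NA (j + 1))).torsionSum /
    ((NA (j + 1)).index : ℝ) ≤ Real.log 5 / 7 := by
  have h7 : Fact (Nat.Prime 7) := ⟨by norm_num⟩
  have : NeZero (7 ^ (j + 1)) := ⟨by positivity⟩
  have hf := finite_coker (((Hs.gens (pr (7 ^ (j + 1)) (7 ^ (j + 1)) (dvd_refl _))).RK
    (7 ^ (j + 1))).lab .x) (((Hs.gens (pr (7 ^ (j + 1)) (7 ^ (j + 1)) (dvd_refl _))).RK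
    (7 ^ (j + 1))).lab .y)
  unfold NA
  rw [torsionSum_cong _ _ _ _ hf, index_cong]
  have h1 := card_coker_le 7 j (7 ^ (j + 1))
  have h0 : 0 < Nat.card (Coker (((Hs.gens (pr (7 ^ (j + 1)) (7 ^ (j + 1)) (dvd_refl _))).RK
    (7 ^ (j + 1))).lab .x) (((Hs.gens (pr (7 ^ (j + 1)) (7 ^ (j + 1)) (dvd_refl _))).RK
    (7 ^ (j + 1))).lab .y)) := Nat.card_pos
  have h2 : Real.log (Nat.card (Coker (((Hs.gens (pr (7 ^ (j + 1)) (7 ^ (j + 1)) (dvd_refl _))).RK
    (7 ^ (j + 1))).lab .x) (((Hs.gens (pr (7 ^ (j + 1)) (7 ^ (j + 1)) (dvd_refl _))).RK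
    (7 ^ (j + 1))).lab .y))) ≤
      ((7 ^ (j + 1) * (7 ^ (j + 1) * (7 ^ j * 7 ^ (j + 1))) : ℕ) : ℝ) * Real.log 5 := by
    rw [← Real.log_pow]
    refine Real.log_le_log (by exact_mod_cast h0) ?_
    exact_mod_cast h1
  refine (div_le_div_of_nonneg_right h2 (by positivity)).trans (le_of_eq ?_)
  push_cast
  rw [pow_succ]
  have : (7 : ℝ) ^ j ≠ 0 := by positivity
  field_simp

theorem boundB (j : ℕ) : 3 / 7 * Real.log 2 ≤ (ggens.cover.quotient (NB (j + 1))).torsionSum /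
    ((NB (j + 1)).index : ℝ) := by
  set m := 7 ^ (j + 1) with hm
  have hmpos : 0 < m := by positivity
  have : NeZero m := ⟨hmpos.ne'⟩
  have : NeZero (2 * m) := ⟨by positivity⟩
  have hNB : NB (j + 1) = cong (2 * m) m m (Dvd.intro_left 2 rfl) := by
    have : nB (j + 1) = 2 * m := by
      unfold nB
      rw [if_neg (Nat.succ_ne_zero j)]
    unfold NB
    congr
  have hf := finite_coker (((Hs.gens (pr (2 * m) m (Dvd.intro_left 2 rfl))).RK m).lab .x)
    (((Hs.gens (pr (2 * m) m (Dvd.intro_left 2 rfl))).RK m).lab .y)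
  rw [hNB, torsionSum_cong _ _ _ _ hf, index_cong]
  have h1 := Low.card_le m m
  have hnn : 0 < Low.nn m := Low.nn_pos m
  have h2 : ((Nat.totient m * m * m : ℕ) : ℝ) * Real.log (Low.nn m) ≤
      Real.log (Nat.card (Coker (((Hs.gens (pr (2 * m) m (Dvd.intro_left 2 rfl))).RK m).lab .x)
        (((Hs.gens (pr (2 * m) m (Dvd.intro_left 2 rfl))).RK m).lab .y))) := by
    rw [← Real.log_pow]
    refine Real.log_le_log ?_ (by exact_mod_cast h1)
    have : (0 : ℝ) < Low.nn m := by exact_mod_cast hnn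
    positivity
  have h3 : (m : ℝ) * Real.log 2 ≤ Real.log (Low.nn m) := by
    rw [← Real.log_pow]
    refine Real.log_le_log (by positivity) ?_
    have : 2 ^ m ≤ Low.nn m := by
      unfold Low.nn
      rw [pow_succ]
      have : 0 < 2 ^ m := by positivity
      omega
    exact_mod_cast this
  have h4 : Nat.totient m = 7 ^ j * 6 := by
    rw [hm, Nat.totient_prime_pow_succ (by norm_num)]
  have hlog : 0 ≤ Real.log 2 := Real.log_nonneg (by norm_num)
  have h5 : ((Nat.totient m * m * m : ℕ) : ℝ) * (m * Real.log 2) ≤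
      Real.log (Nat.card (Coker (((Hs.gens (pr (2 * m) m (Dvd.intro_left 2 rfl))).RK m).lab .x)
        (((Hs.gens (pr (2 * m) m (Dvd.intro_left 2 rfl))).RK m).lab .y))) :=
    le_trans (mul_le_mul_of_nonneg_left h3 (by positivity)) h2
  refine le_trans (le_of_eq ?_) (div_le_div_of_nonneg_right h5 (by positivity))
  rw [h4]
  push_cast
  have hm' : (m : ℝ) = 7 ^ j * 7 := by rw [hm]; push_cast; rw [pow_succ]
  rw [hm']
  have : (7 : ℝ) ^ j ≠ 0 := by positivity
  field_simp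
  ring

/-- The two chains cannot have the same limit. -/
theorem not_both (ρ : ℝ)
    (hA : Tendsto (fun i => (ggens.cover.quotient (NA i)).torsionSum / ((NA i).index : ℝ))
      atTop (𝓝 ρ))
    (hB : Tendsto (fun i => (ggens.cover.quotient (NB i)).torsionSum / ((NB i).index : ℝ))
      atTop (𝓝 ρ)) : False := by
  have h1 : ρ ≤ Real.log 5 / 7 :=
    le_of_tendsto ((tendsto_add_atTop_iff_nat 1).mpr hA) (Eventually.of_forall boundA)
  have h2 : 3 / 7 * Real.log 2 ≤ ρ :=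
    ge_of_tendsto ((tendsto_add_atTop_iff_nat 1).mpr hB) (Eventually.of_forall boundB)
  have h3 : Real.log 5 < 3 * Real.log 2 := by
    have : 3 * Real.log 2 = Real.log (2 ^ 3) := by
      rw [Real.log_pow]
      norm_num
    rw [this]
    exact Real.log_lt_log (by norm_num) (by norm_num)
  linarith

end Pool.Agent.Lib.MP_9a92d3_gt
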