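import Pool.Agent.Lib.MP_9a92d3_gt.Mg.G002
import Pool.Agent.Lib.MP_9a92d3_gt.Mg.G001

set_option autoImplicit false

/-!
# The Laplacian over a finite quotient
-/

namespace Pool.Agent.Lib.MP_9a92d3_gt

open Gens Matrix

/-- the l1-norm -/
def nrm {α : Type} [Fintype α] (u : Z α) : ℤ := ∑ a, |u a|

theorem nrm_add {α : Type} [Fintype α] (u v : Z α) : nrm (u + v) ≤ nrm u + nrm v := by
  unfold nrm
  rw [← Finset.sum_add_distrib]
  exact Finset.sum_le_sum fun a _ => abs_add_le _ _

theorem nrm_sub {α : Type} [Fintype α] (u v : Z α) : nrm (u - v) ≤ nrm u + nrm v := by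
  unfold nrm
  rw [← Finset.sum_add_distrib]
  exact Finset.sum_le_sum fun a _ => abs_sub _ _

theorem nrm_sign {α : Type} [Fintype α] (u : Z α) (i : ℕ) : nrm ((-1 : ℤ) ^ i • u) = nrm u := by
  unfold nrm
  refine Finset.sum_congr rfl fun a _ => ?_
  rw [Finsupp.smul_apply, smul_eq_mul, abs_mul, abs_pow, abs_neg, abs_one, one_pow, one_mul]

theorem nrm_sum {α β : Type} [Fintype α] (s : Finset β) (f : β → Z α) :
    nrm (∑ b ∈ s, f b) ≤ ∑ b ∈ s, nrm (f b) := by
  classical
  induction s using Finset.induction_on with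
  | empty =>
    rw [Finset.sum_empty, Finset.sum_empty]
    unfold nrm
    simp
  | insert a s ha ih =>
    rw [Finset.sum_insert ha, Finset.sum_insert ha]
    exact (nrm_add _ _).trans (add_le_add (le_refl _) ih)

theorem nrm_zero {α : Type} [Fintype α] : nrm (0 : Z α) = 0 := by
  unfold nrm
  simp

theorem nrm_bas {α : Type} [Fintype α] (a : α) : nrm (bas a : Z α) = 1 := by
  classical
  unfold nrm
  rw [Finset.sum_eq_single a]
  · rw [Finsupp.single_eq_same, abs_one]
  · intro b _ hb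
    rw [Finsupp.single_eq_of_ne hb, abs_zero]
  · intro h
    exact absurd (Finset.mem_univ _) h

theorem nrm_nonneg {α : Type} [Fintype α] (u : Z α) : 0 ≤ nrm u :=
  Finset.sum_nonneg fun a _ => abs_nonneg _

theorem nrm_map {α β : Type} [Fintype α] [Fintype β] (F : Z α →ₗ[ℤ] Z β) (C : ℤ)
    (h : ∀ a, nrm (F (bas a)) ≤ C) (u : Z α) : nrm (F u) ≤ C * nrm u := by
  have h1 : nrm (F u) ≤ ∑ b, ∑ a, |u a| * |F (bas a) b| := by
    unfold nrm
    refine Finset.sum_le_sum fun b _ => ?_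
    rw [apply_eq_sum]
    refine (Finset.abs_sum_le_sum_abs _ _).trans (Finset.sum_le_sum fun a _ => ?_)
    rw [abs_mul]
  refine h1.trans ?_
  rw [Finset.sum_comm]
  unfold nrm
  rw [Finset.mul_sum]
  refine Finset.sum_le_sum fun a _ => ?_
  rw [← Finset.mul_sum, mul_comm]
  exact mul_le_mul_of_nonneg_right (h a) (abs_nonneg _)

section bounds

variable {Q : Type} [Group Q] [Fintype Q] (R : Gens Q)

/-- bound for the boundary map -/
def Kb (n : ℕ) : ℤ := 2 * (n + 1)

/-- bound for the coboundary map -/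
noncomputable def Kc (n : ℕ) : ℤ := Fintype.card (Sh (n + 1)) * (2 * (n + 1))

theorem nrm_bdm (n : ℕ) (c : Q × Sh (n + 1)) : nrm (R.bdm n (bas c)) ≤ Kb n := by
  rw [R.bdm_bas]
  refine (nrm_sum _ _).trans ?_
  refine (Finset.sum_le_sum (g := fun _ => (2 : ℤ)) fun i _ => ?_).trans ?_
  · rw [nrm_sign]
    refine (nrm_sub _ _).trans ?_
    rw [nrm_bas, nrm_bas]
    norm_num
  · rw [Finset.sum_const, Finset.card_univ, Fintype.card_fin]
    unfold Kb
    simp
    linarith

theorem nrm_co (n : ℕ) (c : Q × Sh n) : nrm (R.co n (bas c)) ≤ Kc n := by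
  rw [R.co_bas]
  refine (nrm_sum _ _).trans ?_
  refine (Finset.sum_le_sum (g := fun _ => (2 * (n + 1) : ℤ)) fun s _ => ?_).trans ?_
  · refine (nrm_sum _ _).trans ?_
    refine (Finset.sum_le_sum (g := fun _ => (2 : ℤ)) fun i _ => ?_).trans ?_
    · rw [nrm_sign]
      refine (nrm_sub _ _).trans ?_
      have : ∀ (p : Prop) [Decidable p] (q : Q × Sh (n + 1)),
          nrm (if p then (bas q : Z (Q × Sh (n + 1))) else 0) ≤ 1 := by
        intro p _ q
        split_ifs
        · rw [nrm_bas]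
        · rw [nrm_zero]
          exact zero_le_one
      exact (add_le_add (this _ _) (this _ _)).trans (by norm_num)
    · rw [Finset.sum_const, Finset.card_univ, Fintype.card_fin]
      simp
      linarith
  · rw [Finset.sum_const, Finset.card_univ]
    unfold Kc
    simp

/-- bound for the Laplacian -/
noncomputable def KL : ℕ → ℤ
  | 0 => Kb 0 * Kc 0
  | n + 1 => Kb (n + 1) * Kc (n + 1) + Kc n * Kb n

theorem nrm_lap (n : ℕ) (c : Q × Sh n) : nrm (R.lap n (bas c)) ≤ KL n := by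
  match n, c with
  | 0, c =>
    refine (nrm_map (R.bdm 0) (Kb 0) (nrm_bdm R 0) (R.co 0 (bas c))).trans ?_
    exact mul_le_mul_of_nonneg_left (nrm_co R 0 c) (by unfold Kb; norm_num)
  | n + 1, c =>
    refine (nrm_add _ _).trans (add_le_add ?_ ?_)
    · refine (nrm_map (R.bdm (n + 1)) (Kb (n + 1)) (nrm_bdm R (n + 1))
        (R.co (n + 1) (bas c))).trans ?_
      exact mul_le_mul_of_nonneg_left (nrm_co R (n + 1) c) (by unfold Kb; positivity)
    · refine (nrm_map (R.co n) (Kc n) (nrm_co R n) (R.bdm n (bas c))).trans ?_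
      exact mul_le_mul_of_nonneg_left (nrm_bdm R n c) (by unfold Kc; positivity)

/-- matrix of the boundary map -/
noncomputable def Bm (n : ℕ) : Matrix (Q × Sh n) (Q × Sh (n + 1)) ℤ :=
  Matrix.of fun a b => R.bdm n (bas b) a

/-- matrix of the Laplacian -/
noncomputable def Lm (n : ℕ) : Matrix (Q × Sh n) (Q × Sh n) ℤ :=
  Matrix.of fun a b => R.lap n (bas b) a

theorem Lm_zero : Lm R 0 = Bm R 0 * (Bm R 0)ᵀ := by
  ext a b
  show R.bdm 0 (R.co 0 (bas b)) a = _
  rw [apply_eq_sum, Matrix.mul_apply]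
  refine Finset.sum_congr rfl fun c _ => ?_
  rw [R.co_transpose]
  show R.bdm 0 (bas c) b * R.bdm 0 (bas c) a = R.bdm 0 (bas c) a * R.bdm 0 (bas c) b
  ring

theorem Lm_succ (n : ℕ) : Lm R (n + 1) = Bm R (n + 1) * (Bm R (n + 1))ᵀ + (Bm R n)ᵀ * Bm R n := by
  ext a b
  show (R.bdm (n + 1) (R.co (n + 1) (bas b)) + R.co n (R.bdm n (bas b))) a = _
  rw [Finsupp.add_apply, apply_eq_sum, apply_eq_sum (R.co n), Matrix.add_apply, Matrix.mul_apply,
    Matrix.mul_apply]
  congr 1
  · refine Finset.sum_congr rfl fun c _ => ?_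
    rw [R.co_transpose]
    show R.bdm (n + 1) (bas c) b * R.bdm (n + 1) (bas c) a =
      R.bdm (n + 1) (bas c) a * R.bdm (n + 1) (bas c) b
    ring
  · refine Finset.sum_congr rfl fun c _ => ?_
    rw [R.co_transpose]
    show R.bdm n (bas b) c * R.bdm n (bas a) c = R.bdm n (bas a) c * R.bdm n (bas b) c
    ring

theorem Lm_symm (n : ℕ) : (Lm R n)ᵀ = Lm R n := by
  match n with
  | 0 => rw [Lm_zero, transpose_mul, transpose_transpose]
  | n + 1 => rw [Lm_succ, transpose_add, transpose_mul, transpose_mul, transpose_transpose,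
      transpose_transpose]

variable [DecidableEq Q]

omit [DecidableEq Q] [Group Q] [Fintype Q] in
theorem rl_mul_transpose {α β : Type} [Fintype α] [Fintype β] (B : Matrix α β ℤ) :
    (rl (B * Bᵀ)) = (B.map (Int.castRingHom ℝ)) * (B.map (Int.castRingHom ℝ))ᴴ := by
  unfold rl
  rw [Matrix.map_mul, conjTranspose_eq_transpose_of_trivial]
  rfl

theorem Lm_psd (n : ℕ) : (rl (Lm R n)).PosSemidef := by
  match n with
  | 0 =>
    rw [Lm_zero, rl_mul_transpose]
    exact posSemidef_self_mul_conjTranspose _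
  | n + 1 =>
    rw [Lm_succ]
    have h1 : rl (Bm R (n + 1) * (Bm R (n + 1))ᵀ + (Bm R n)ᵀ * Bm R n) =
        rl (Bm R (n + 1) * (Bm R (n + 1))ᵀ) + rl ((Bm R n)ᵀ * ((Bm R n)ᵀ)ᵀ) := by
      rw [transpose_transpose]
      exact map_add (Int.castRingHom ℝ).mapMatrix _ _
    rw [h1, rl_mul_transpose, rl_mul_transpose]
    exact (posSemidef_self_mul_conjTranspose _).add (posSemidef_self_mul_conjTranspose _)

theorem Lm_pos (n : ℕ) (i : Q × Sh n) : 0 ≤ (rl_herm (Lm_symm R n)).eigenvalues i :=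
  (Lm_psd R n).eigenvalues_nonneg i

theorem Lm_row (n : ℕ) (a : Q × Sh n) : ∑ b, |Lm R n a b| ≤ KL n := by
  rw [← Lm_symm R n]
  exact nrm_lap R n a

theorem Lm_pow (n j : ℕ) (a b : Q × Sh n) : (Lm R n ^ j) a b = (R.lap n ^ j) (bas b) a := by
  induction j generalizing a b with
  | zero =>
    rw [pow_zero, pow_zero, Module.End.one_apply, Matrix.one_apply]
    split_ifs with h
    · rw [h, Finsupp.single_eq_same]
    · rw [Finsupp.single_eq_of_ne h]
  | succ j ih =>
    rw [pow_succ', Matrix.mul_apply, pow_succ', Module.End.mul_apply, apply_eq_sum]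
    refine Finset.sum_congr rfl fun c _ => ?_
    rw [ih, mul_comm]
    rfl

theorem Lm_trace (n j : ℕ) : trace (Lm R n ^ j) =
    Fintype.card Q * ∑ s : Sh n, (R.lap n ^ j) (bas (1, s)) (1, s) := by
  rw [trace, Fintype.sum_prod_type]
  rw [Finset.sum_congr rfl (g := fun _ => ∑ s : Sh n, (R.lap n ^ j) (bas (1, s)) (1, s))]
  · rw [Finset.sum_const, Finset.card_univ, nsmul_eq_mul]
  · intro g _
    refine Finset.sum_congr rfl fun s _ => ?_
    rw [diag_apply, Lm_pow, R.diag_eq]

end bounds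

section main

variable {P : Type} [Group P] [Fintype P] [DecidableEq P] (R4 : Gens4 P) (k : ℕ) [NeZero k]

theorem ker_cond (n : ℕ) (x : PK P k × Sh n → ℤ) (hx : Lm (R4.RK k) n *ᵥ x = 0)
    (hS : ∀ a ∈ Finset.univ.filter (fun a : PK P k × Sh n => a.1.2 = 1), x a = 0) : x = 0 := by
  set u : Z (PK P k × Sh n) := Finsupp.equivFunOnFinite.symm x with hu
  have hux : ∀ a, u a = x a := fun a => rfl
  have h1 : (R4.RK k).lap n u = 0 := by
    ext a
    rw [apply_eq_sum, Finsupp.zero_apply]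
    have h2 := congrFun hx a
    rw [Matrix.mulVec, dotProduct, Pi.zero_apply] at h2
    rw [← h2]
    refine Finset.sum_congr rfl fun b _ => ?_
    rw [mul_comm]
    rfl
  have h2 := harm_inv R4 k n u h1
  have h3 : ∀ (q : PK P k) (s : Sh n), x (ct P k * q, s) = x (q, s) := by
    intro q s
    have h4 := Gens.tr_apply (ct P k) n u (q, s)
    rw [h2] at h4
    exact h4
  have h4 : ∀ (j : ℕ) (p : P) (s : Sh n),
      x ((p, Multiplicative.ofAdd ((j : ℕ) : ZMod k)), s) = 0 := by
    intro j p s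
    induction j with
    | zero =>
      refine hS _ (Finset.mem_filter.mpr ⟨Finset.mem_univ _, ?_⟩)
      show Multiplicative.ofAdd ((0 : ℕ) : ZMod k) = 1
      rw [Nat.cast_zero]
      rfl
    | succ j ih =>
      rw [← ih, ← h3 (p, Multiplicative.ofAdd ((j : ℕ) : ZMod k)) s, ct_mul]
      congr 3
      push_cast
      rfl
  ext ⟨⟨p, j⟩, s⟩
  have h5 := h4 (Multiplicative.toAdd j).val p s
  rw [ZMod.natCast_zmod_val] at h5
  exact h5

theorem card_S (n : ℕ) : (Finset.univ.filter (fun a : PK P k × Sh n => a.1.2 = 1)).card =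
    Fintype.card P * Fintype.card (Sh n) := by
  rw [← Fintype.card_prod, ← Finset.card_univ]
  symm
  refine Finset.card_bij (fun a _ => ((a.1, 1), a.2)) ?_ ?_ ?_
  · intro a _
    exact Finset.mem_filter.mpr ⟨Finset.mem_univ _, rfl⟩
  · intro a _ b _ h
    exact Prod.ext (congrArg (fun t => t.1.1) h) (congrArg (fun t => t.2) h)
  · rintro ⟨⟨p, j⟩, s⟩ h
    have hj : j = 1 := (Finset.mem_filter.mp h).2
    subst hj
    exact ⟨(p, s), Finset.mem_univ _, rfl⟩

theorem fin_level (n : ℕ) (K : ℝ) (hK : (KL n : ℝ) ≤ K) (q : Polynomial ℝ) (ε δ : ℝ) (hε : 0 < ε)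
    (hε1 : ε < 1)
    (hq : ∀ x ∈ Set.Icc (0 : ℝ) K, |q.eval x - Real.log (x + ε)| ≤ δ) :
    Fintype.card (Sh n) * (Real.log ε / k - δ) ≤
      q.sum fun j c => c * ((∑ s : Sh n, ((R4.RK k).lap n ^ j) (bas (1, s)) (1, s) : ℤ) : ℝ) := by
  have hKL : 0 ≤ KL n := by
    match n with
    | 0 => unfold KL Kb Kc; positivity
    | n + 1 => unfold KL Kb Kc; positivity
  have h := trace_ge (Lm_symm (R4.RK k) n) (Lm_pos (R4.RK k) n) K
    (fun i => by
      have := eigenvalue_le (Lm_symm (R4.RK k) n) (KL n).toNat (fun a => by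
        rw [Int.toNat_of_nonneg hKL]
        exact Lm_row (R4.RK k) n a) i
      refine this.trans (le_trans (le_of_eq ?_) hK)
      have h1 : (((KL n).toNat : ℤ) : ℝ) = (KL n : ℝ) := by rw [Int.toNat_of_nonneg hKL]
      exact_mod_cast h1)
    (Finset.univ.filter (fun a : PK P k × Sh n => a.1.2 = 1)) (ker_cond R4 k n) q ε δ hε hε1 hq
  rw [card_S, Fintype.card_prod] at h
  have hQ : Fintype.card (PK P k) = Fintype.card P * k := by
    rw [Fintype.card_prod, Fintype.card_multiplicative, ZMod.card]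
  have hP : 0 < Fintype.card P := Fintype.card_pos
  have hk : 0 < k := Nat.pos_of_ne_zero (NeZero.ne k)
  have hPR : (0 : ℝ) < Fintype.card P := by exact_mod_cast hP
  have hkR : (0 : ℝ) < k := by exact_mod_cast hk
  have h2 : (q.sum fun j c => c * ((trace (Lm (R4.RK k) n ^ j) : ℤ) : ℝ)) =
      (Fintype.card P * k : ℝ) * q.sum fun j c =>
        c * ((∑ s : Sh n, ((R4.RK k).lap n ^ j) (bas (1, s)) (1, s) : ℤ) : ℝ) := by
    rw [Polynomial.sum_def, Polynomial.sum_def, Finset.mul_sum]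
    refine Finset.sum_congr rfl fun j _ => ?_
    rw [Lm_trace, hQ]
    push_cast
    ring
  rw [h2, hQ] at h
  push_cast at h
  have h3 : (Fintype.card P * k : ℝ) * (Fintype.card (Sh n) * (Real.log ε / k - δ)) ≤
      (Fintype.card P * k : ℝ) * q.sum fun j c =>
        c * ((∑ s : Sh n, ((R4.RK k).lap n ^ j) (bas (1, s)) (1, s) : ℤ) : ℝ) := by
    refine le_trans (le_of_eq ?_) (h.trans (le_of_eq ?_))
    · field_simp
    · push_cast
      rfl
  exact le_of_mul_le_mul_left h3 (by positivity)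

end main

end Pool.Agent.Lib.MP_9a92d3_gt
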