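import Pool.Agent.Lib.MP_9a92d3_gt.CokFin

set_option autoImplicit false

/-!
# The integral combinatorial Laplacian
-/

namespace Pool.Agent.Lib.MP_9a92d3_gt

open Classical in
noncomputable instance (n : ℕ) : Fintype (Sh n) := Fintype.ofFinite _

open Classical in
noncomputable instance (n : ℕ) : DecidableEq (Sh n) := Classical.decEq _

/-- matrix entries of a linear map -/
theorem lin_eq_sum {α β : Type} (F : Z α →ₗ[ℤ] Z β) (u : Z α) (b : β) :
    F u b = u.sum fun a z => z * F (bas a) b := by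
  induction u using Finsupp.induction_linear with
  | zero => rw [map_zero, Finsupp.sum_zero_index]; rfl
  | add u v hu hv =>
    rw [map_add, Finsupp.add_apply, hu, hv, Finsupp.sum_add_index']
    · intro a; exact zero_mul _
    · intro a z w; exact add_mul _ _ _
  | single a n =>
    rw [Finsupp.sum_single_index (zero_mul _), single_eq_smul_bas, map_smul, Finsupp.smul_apply,
      smul_eq_mul]

namespace Gens

variable {Q : Type} [Group Q] (R : Gens Q)

open Classical in
/-- the coboundary map, with finite supports -/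
noncomputable def co (n : ℕ) : Z (Q × Sh n) →ₗ[ℤ] Z (Q × Sh (n + 1)) :=
  lin fun c => ∑ s : Sh (n + 1), ∑ i : Fin (n + 1), (-1 : ℤ) ^ (i : ℕ) •
    ((if shFace i true s = c.2 then bas (c.1 * (R.lift i true s)⁻¹, s) else 0) -
      (if shFace i false s = c.2 then bas (c.1 * (R.lift i false s)⁻¹, s) else 0))

/-- the boundary map -/
noncomputable def bdm (n : ℕ) : Z (Q × Sh (n + 1)) →ₗ[ℤ] Z (Q × Sh n) := R.complex.bd n

theorem bdm_bas (n : ℕ) (c : Q × Sh (n + 1)) : R.bdm n (bas c) =
    ∑ i : Fin (n + 1), (-1 : ℤ) ^ (i : ℕ) •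
      ((bas (R.face i true c) : Z (Q × Sh n)) - bas (R.face i false c)) :=
  CubeComplex.bd_single R.complex n c

theorem co_bas (n : ℕ) (c : Q × Sh n) : R.co n (bas c) =
    ∑ s : Sh (n + 1), ∑ i : Fin (n + 1), (-1 : ℤ) ^ (i : ℕ) •
    ((if shFace i true s = c.2 then (bas (c.1 * (R.lift i true s)⁻¹, s) : Z (Q × Sh (n + 1))) else 0) -
      (if shFace i false s = c.2 then bas (c.1 * (R.lift i false s)⁻¹, s) else 0)) := by
  unfold co
  rw [lin_bas]

open Classical in
theorem entry (n : ℕ) (i : Fin (n + 1)) (b : Bool) (c : Q × Sh n) (s : Sh (n + 1))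
    (c' : Q × Sh (n + 1)) :
    (if shFace i b s = c.2 then (bas (c.1 * (R.lift i b s)⁻¹, s) : Z (Q × Sh (n + 1))) else 0) c' =
      if s = c'.2 then (bas (R.face i b c') : Z (Q × Sh n)) c else 0 := by
  by_cases hs : s = c'.2
  · subst hs
    rw [if_pos rfl]
    by_cases h1 : shFace i b c'.2 = c.2
    · rw [if_pos h1]
      by_cases h2 : c.1 * (R.lift i b c'.2)⁻¹ = c'.1
      · have h3 : (c.1 * (R.lift i b c'.2)⁻¹, c'.2) = c' := Prod.ext h2 rfl
        have h4 : R.face i b c' = c := by
          refine Prod.ext ?_ h1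
          show c'.1 * R.lift i b c'.2 = c.1
          rw [← h2, inv_mul_cancel_right]
        rw [h3, h4, Finsupp.single_eq_same, Finsupp.single_eq_same]
      · have h3 : c' ≠ (c.1 * (R.lift i b c'.2)⁻¹, c'.2) := fun h => h2 (congrArg Prod.fst h).symm
        have h4 : c ≠ R.face i b c' := by
          intro h
          apply h2
          have : c.1 = c'.1 * R.lift i b c'.2 := congrArg Prod.fst h
          rw [this, mul_inv_cancel_right]
        rw [Finsupp.single_eq_of_ne h3, Finsupp.single_eq_of_ne h4]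
    · rw [if_neg h1]
      have h4 : c ≠ R.face i b c' := fun h => h1 (congrArg Prod.snd h).symm
      rw [Finsupp.single_eq_of_ne h4]
      rfl
  · rw [if_neg hs]
    split_ifs
    · have h3 : c' ≠ (c.1 * (R.lift i b s)⁻¹, s) := fun h => hs (congrArg Prod.snd h).symm
      rw [Finsupp.single_eq_of_ne h3]
    · rfl

/-- The coboundary map is the transpose of the boundary map. -/
theorem co_transpose (n : ℕ) (c : Q × Sh n) (c' : Q × Sh (n + 1)) :
    R.co n (bas c) c' = R.bdm n (bas c') c := by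
  rw [co_bas, bdm_bas, Finsupp.finsetSum_apply, Finsupp.finsetSum_apply]
  rw [Finset.sum_eq_single c'.2]
  · rw [Finsupp.finsetSum_apply]
    refine Finset.sum_congr rfl fun i _ => ?_
    rw [Finsupp.smul_apply, Finsupp.smul_apply, Finsupp.sub_apply, Finsupp.sub_apply, entry, entry,
      if_pos rfl, if_pos rfl]
  · intro s _ hs
    rw [Finsupp.finsetSum_apply]
    refine Finset.sum_eq_zero fun i _ => ?_
    rw [Finsupp.smul_apply, Finsupp.sub_apply, entry, entry, if_neg hs, if_neg hs, sub_zero,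
      smul_zero]
  · intro h
    exact absurd (Finset.mem_univ _) h

/-- The integral Laplacian. -/
noncomputable def lap : ∀ n : ℕ, Z (Q × Sh n) →ₗ[ℤ] Z (Q × Sh n)
  | 0 => (R.bdm 0).comp (R.co 0)
  | n + 1 => (R.bdm (n + 1)).comp (R.co (n + 1)) + (R.co n).comp (R.bdm n)

/-! ### Functoriality -/

/-- the map induced by a group homomorphism -/
noncomputable def push {Q' : Type} [Group Q'] (φ : Q →* Q') (n : ℕ) :
    Z (Q × Sh n) →ₗ[ℤ] Z (Q' × Sh n) := lin fun c => bas (φ c.1, c.2)

theorem push_bas {Q' : Type} [Group Q'] (φ : Q →* Q') (n : ℕ) (c : Q × Sh n) :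
    push φ n (bas c) = bas (φ c.1, c.2) := by
  unfold push
  rw [lin_bas]

theorem map_lift {Q' : Type} [Group Q'] (R' : Gens Q') (φ : Q →* Q')
    (hR : ∀ e, φ (R.lab e) = R'.lab e) {n : ℕ} (i : Fin (n + 1)) (b : Bool) (c : Sh (n + 1)) :
    φ (R.lift i b c) = R'.lift i b c := by
  unfold Gens.lift
  cases b
  · simp
  · simp only [cond_true]
    match n, i, c with
    | 0, _, e => exact hR e
    | 1, 0, s => exact hR _
    | 1, 1, s => exact hR _
    | 2, 0, c => exact hR _
    | 2, 1, c => exact hR _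
    | 2, 2, c => exact hR _
    | n + 3, _, c => exact Empty.elim c

theorem push_bdm {Q' : Type} [Group Q'] (R' : Gens Q') (φ : Q →* Q')
    (hR : ∀ e, φ (R.lab e) = R'.lab e) (n : ℕ) :
    (push φ n).comp (R.bdm n) = (R'.bdm n).comp (push φ (n + 1)) := by
  refine lin_ext fun c => ?_
  rw [LinearMap.comp_apply, LinearMap.comp_apply, push_bas, bdm_bas, bdm_bas, map_sum]
  refine Finset.sum_congr rfl fun i _ => ?_
  rw [map_smul, map_sub, push_bas, push_bas]
  have : ∀ b, ((φ (R.face i b c).1, (R.face i b c).2) : Q' × Sh n) = R'.face i b (φ c.1, c.2) := by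
    intro b
    refine Prod.ext ?_ rfl
    show φ (c.1 * R.lift i b c.2) = φ c.1 * R'.lift i b c.2
    rw [map_mul, R.map_lift R' φ hR]
  rw [this, this]

theorem push_co {Q' : Type} [Group Q'] (R' : Gens Q') (φ : Q →* Q')
    (hR : ∀ e, φ (R.lab e) = R'.lab e) (n : ℕ) :
    (push φ (n + 1)).comp (R.co n) = (R'.co n).comp (push φ n) := by
  refine lin_ext fun c => ?_
  rw [LinearMap.comp_apply, LinearMap.comp_apply, push_bas, co_bas, co_bas, map_sum]
  refine Finset.sum_congr rfl fun s _ => ?_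
  rw [map_sum]
  refine Finset.sum_congr rfl fun i _ => ?_
  rw [map_smul, map_sub]
  have : ∀ b, push φ (n + 1)
      (if shFace i b s = c.2 then (bas (c.1 * (R.lift i b s)⁻¹, s) : Z (Q × Sh (n + 1))) else 0) =
      if shFace i b s = c.2 then
        (bas (φ c.1 * (R'.lift i b s)⁻¹, s) : Z (Q' × Sh (n + 1))) else 0 := by
    intro b
    split_ifs
    · rw [push_bas, map_mul, map_inv, R.map_lift R' φ hR]
    · rw [map_zero]
  rw [this, this]

theorem push_lap {Q' : Type} [Group Q'] (R' : Gens Q') (φ : Q →* Q')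
    (hR : ∀ e, φ (R.lab e) = R'.lab e) (n : ℕ) :
    (push φ n).comp (R.lap n) = (R'.lap n).comp (push φ n) := by
  match n with
  | 0 =>
    show (push φ 0).comp ((R.bdm 0).comp (R.co 0)) = ((R'.bdm 0).comp (R'.co 0)).comp (push φ 0)
    rw [← LinearMap.comp_assoc, R.push_bdm R' φ hR, LinearMap.comp_assoc, R.push_co R' φ hR,
      LinearMap.comp_assoc]
  | n + 1 =>
    show (push φ (n + 1)).comp ((R.bdm (n + 1)).comp (R.co (n + 1)) + (R.co n).comp (R.bdm n)) =
      ((R'.bdm (n + 1)).comp (R'.co (n + 1)) + (R'.co n).comp (R'.bdm n)).comp (push φ (n + 1))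
    have e2 : (push φ (n + 1)).comp ((R.co n).comp (R.bdm n)) =
        ((R'.co n).comp (R'.bdm n)).comp (push φ (n + 1)) := by
      rw [← LinearMap.comp_assoc, R.push_co R' φ hR, LinearMap.comp_assoc, R.push_bdm R' φ hR,
        LinearMap.comp_assoc]
    rw [LinearMap.comp_add, LinearMap.add_comp, e2, ← LinearMap.comp_assoc, R.push_bdm R' φ hR,
      LinearMap.comp_assoc, R.push_co R' φ hR]
    rfl

theorem push_lap_pow {Q' : Type} [Group Q'] (R' : Gens Q') (φ : Q →* Q')
    (hR : ∀ e, φ (R.lab e) = R'.lab e) (n j : ℕ) (u : Z (Q × Sh n)) :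
    push φ n ((R.lap n ^ j) u) = (R'.lap n ^ j) (push φ n u) := by
  induction j with
  | zero => rfl
  | succ j ih =>
    rw [pow_succ', pow_succ', Module.End.mul_apply, Module.End.mul_apply, ← ih]
    exact LinearMap.congr_fun (R.push_lap R' φ hR n) _

/-! ### Translations -/

/-- left translation -/
noncomputable def tr (g : Q) (n : ℕ) : Z (Q × Sh n) →ₗ[ℤ] Z (Q × Sh n) :=
  lin fun c => bas (g * c.1, c.2)

theorem tr_bas (g : Q) (n : ℕ) (c : Q × Sh n) : tr g n (bas c) = bas (g * c.1, c.2) := by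
  unfold tr
  rw [lin_bas]

theorem tr_apply (g : Q) (n : ℕ) (u : Z (Q × Sh n)) (c : Q × Sh n) :
    tr g n u (g * c.1, c.2) = u c := by
  induction u using Finsupp.induction_linear with
  | zero => rfl
  | add u v hu hv => rw [map_add, Finsupp.add_apply, hu, hv, Finsupp.add_apply]
  | single a z =>
    rw [single_eq_smul_bas, map_smul, tr_bas, Finsupp.smul_apply, Finsupp.smul_apply]
    congr 1
    by_cases h : a = c
    · subst h
      rw [Finsupp.single_eq_same, Finsupp.single_eq_same]
    · rw [Finsupp.single_eq_of_ne (Ne.symm h), Finsupp.single_eq_of_ne]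
      intro h'
      apply h
      exact Prod.ext (mul_left_cancel (congrArg Prod.fst h')).symm (congrArg Prod.snd h').symm

theorem tr_bdm (g : Q) (n : ℕ) : (tr g n).comp (R.bdm n) = (R.bdm n).comp (tr g (n + 1)) := by
  refine lin_ext fun c => ?_
  rw [LinearMap.comp_apply, LinearMap.comp_apply, tr_bas, bdm_bas, bdm_bas, map_sum]
  refine Finset.sum_congr rfl fun i _ => ?_
  rw [map_smul, map_sub, tr_bas, tr_bas]
  have : ∀ b, ((g * (R.face i b c).1, (R.face i b c).2) : Q × Sh n) =
      R.face i b (g * c.1, c.2) := by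
    intro b
    refine Prod.ext ?_ rfl
    exact (mul_assoc _ _ _).symm
  rw [this, this]

theorem tr_co (g : Q) (n : ℕ) : (tr g (n + 1)).comp (R.co n) = (R.co n).comp (tr g n) := by
  refine lin_ext fun c => ?_
  rw [LinearMap.comp_apply, LinearMap.comp_apply, tr_bas, co_bas, co_bas, map_sum]
  refine Finset.sum_congr rfl fun s _ => ?_
  rw [map_sum]
  refine Finset.sum_congr rfl fun i _ => ?_
  rw [map_smul, map_sub]
  have : ∀ b, tr g (n + 1)
      (if shFace i b s = c.2 then (bas (c.1 * (R.lift i b s)⁻¹, s) : Z (Q × Sh (n + 1))) else 0) =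
      if shFace i b s = c.2 then
        (bas (g * c.1 * (R.lift i b s)⁻¹, s) : Z (Q × Sh (n + 1))) else 0 := by
    intro b
    split_ifs
    · rw [tr_bas, mul_assoc]
    · rw [map_zero]
  rw [this, this]

theorem tr_lap (g : Q) (n : ℕ) : (tr g n).comp (R.lap n) = (R.lap n).comp (tr g n) := by
  match n with
  | 0 =>
    show (tr g 0).comp ((R.bdm 0).comp (R.co 0)) = ((R.bdm 0).comp (R.co 0)).comp (tr g 0)
    rw [← LinearMap.comp_assoc, R.tr_bdm, LinearMap.comp_assoc, R.tr_co,
      LinearMap.comp_assoc]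
  | n + 1 =>
    show (tr g (n + 1)).comp ((R.bdm (n + 1)).comp (R.co (n + 1)) + (R.co n).comp (R.bdm n)) =
      ((R.bdm (n + 1)).comp (R.co (n + 1)) + (R.co n).comp (R.bdm n)).comp (tr g (n + 1))
    have e2 : (tr g (n + 1)).comp ((R.co n).comp (R.bdm n)) =
        ((R.co n).comp (R.bdm n)).comp (tr g (n + 1)) := by
      rw [← LinearMap.comp_assoc, R.tr_co, LinearMap.comp_assoc, R.tr_bdm, LinearMap.comp_assoc]
    rw [LinearMap.comp_add, LinearMap.add_comp, e2, ← LinearMap.comp_assoc, R.tr_bdm,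
      LinearMap.comp_assoc, R.tr_co]
    rfl

theorem tr_lap_pow (g : Q) (n j : ℕ) (u : Z (Q × Sh n)) :
    tr g n ((R.lap n ^ j) u) = (R.lap n ^ j) (tr g n u) := by
  induction j with
  | zero => rfl
  | succ j ih =>
    rw [pow_succ', Module.End.mul_apply, Module.End.mul_apply, ← ih]
    exact LinearMap.congr_fun (R.tr_lap g n) _

/-- The diagonal entries of the powers of the Laplacian do not depend on the group element. -/
theorem diag_eq (n j : ℕ) (g : Q) (s : Sh n) :
    (R.lap n ^ j) (bas (g, s)) (g, s) = (R.lap n ^ j) (bas (1, s)) (1, s) := by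
  have h1 : (bas (g, s) : Z (Q × Sh n)) = tr g n (bas (1, s)) := by
    rw [tr_bas, mul_one]
  have h2 := tr_apply g n ((R.lap n ^ j) (bas (1, s))) (1, s)
  rw [mul_one] at h2
  rw [h1, ← R.tr_lap_pow]
  exact h2

end Gens

end Pool.Agent.Lib.MP_9a92d3_gt
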