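import Pool.Agent.Lib.MP_9a92d3_gt.OpLog
import Pool.Agent.Lib.MP_9a92d3_gt.Mg.G002
import Pool.Agent.Lib.MP_9a92d3_gt.LapFin
import Pool.Agent.Lib.MP_9a92d3_gt.Growth

set_option autoImplicit false

/-!
# The example is det-l2-acyclic
-/

namespace Pool.Agent.Lib.MP_9a92d3_gt

open Gens Filter Topology Polynomial

section general

variable {Q : Type} [Group Q] (R : Gens Q)

theorem lapl_nonneg (n : ℕ) : 0 ≤ lapl R n := by
  rw [ContinuousLinearMap.nonneg_iff_isPositive]
  match n with
  | 0 =>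
    rw [lapl_zero]
    exact ContinuousLinearMap.isPositive_adjoint_comp_self _
  | n + 1 =>
    rw [lapl_succ]
    exact (ContinuousLinearMap.isPositive_adjoint_comp_self _).add
      (ContinuousLinearMap.isPositive_self_comp_adjoint _)

theorem vtr_poly (n : ℕ) (q : ℝ[X]) : vtr R n (aeval (lapl R n) q) =
    q.sum fun j c => c * ((∑ s : Sh n, (R.lap n ^ j) (bas (1, s)) (1, s) : ℤ) : ℝ) := by
  obtain ⟨g, hg⟩ := exists_rep R n
  rw [hg, Polynomial.sum_def]
  have h1 : ∀ s : Sh n, (inner ℂ (unitVec (g s, s)) ((aeval (lapl R n) q) (unitVec (g s, s)))).re =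
      ∑ j ∈ q.support, q.coeff j * (((R.lap n ^ j) (bas (1, s)) (1, s) : ℤ) : ℝ) := by
    intro s
    rw [aeval_eq_sum_range' (n := q.natDegree + 1) (Nat.lt_succ_self _)]
    have h2 : (∑ i ∈ Finset.range (q.natDegree + 1), q.coeff i • lapl R n ^ i)
        (unitVec (g s, s)) = ∑ i ∈ Finset.range (q.natDegree + 1),
          (q.coeff i : ℂ) • ((lapl R n ^ i) (unitVec (g s, s))) := by
      rw [sum_apply]
      rfl
    rw [h2, inner_sum, Complex.re_sum]
    have h3 : ∀ i, (inner ℂ (unitVec (g s, s))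
        ((q.coeff i : ℂ) • ((lapl R n ^ i) (unitVec (g s, s))))).re =
        q.coeff i * (((R.lap n ^ i) (bas (1, s)) (1, s) : ℤ) : ℝ) := by
      intro i
      rw [inner_smul_right, Complex.re_ofReal_mul, inner_lapl_pow]
    rw [Finset.sum_congr rfl fun i _ => h3 i]
    symm
    refine Finset.sum_subset ?_ ?_
    · intro i hi
      rw [Finset.mem_range]
      exact Nat.lt_succ_of_le (le_natDegree_of_mem_supp i hi)
    · intro i _ hi
      rw [notMem_support_iff.mp hi, zero_mul]
  rw [Finset.sum_congr rfl fun s _ => h1 s, Finset.sum_comm]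
  refine Finset.sum_congr rfl fun j _ => ?_
  rw [← Finset.mul_sum]
  push_cast
  rfl

theorem push_apply_one {Q' : Type} [Group Q'] (φ : Q →* Q') (n : ℕ) (u : Z (Q × Sh n)) (s : Sh n)
    (h : ∀ c ∈ u.support, φ c.1 = 1 → c.1 = 1) : push φ n u (1, s) = u (1, s) := by
  classical
  rw [lin_eq_sum, Finsupp.sum]
  by_cases hs : (1, s) ∈ u.support
  · rw [Finset.sum_eq_single (1, s)]
    · rw [push_bas, map_one, Finsupp.single_eq_same, mul_one]
    · intro c hc hne
      rw [push_bas, Finsupp.single_eq_of_ne, mul_zero]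
      intro h1
      apply hne
      have h2 : 1 = φ c.1 := congrArg Prod.fst h1
      have h3 : s = c.2 := congrArg Prod.snd h1
      exact Prod.ext (h c hc h2.symm) h3.symm
    · intro h1
      exact absurd hs h1
  · rw [Finsupp.notMem_support_iff.mp hs]
    refine Finset.sum_eq_zero fun c hc => ?_
    rw [push_bas, Finsupp.single_eq_of_ne, mul_zero]
    intro h1
    apply hs
    have h2 : 1 = φ c.1 := congrArg Prod.fst h1
    have h3 : s = c.2 := congrArg Prod.snd h1
    have h4 : c = (1, s) := Prod.ext (h c hc h2.symm) h3.symm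
    rw [← h4]
    exact hc

end general

theorem eventually_inj (F : Finset GG) : ∀ᶠ i in atTop, ∀ g ∈ F, g ∈ NA i → g = 1 := by
  rw [Finset.eventually_all]
  intro g _
  by_cases hg : g = 1
  · exact Eventually.of_forall fun _ _ => hg
  · have h1 : g ∉ (⨅ i, NA i) := by
      rw [chainA.2.2.2.2, Subgroup.mem_bot]
      exact hg
    rw [Subgroup.mem_iInf] at h1
    push Not at h1
    obtain ⟨i0, hi0⟩ := h1
    have hanti : Antitone NA := antitone_nat_of_succ_le chainA.2.1
    filter_upwards [eventually_ge_atTop i0] with i hi hgi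
    exact absurd (hanti hi hgi) hi0

/-- the finite quotients -/
noncomputable abbrev RQ (i : ℕ) : Gens (PK (Hs (pr (7 ^ i) (7 ^ i) (dvd_refl _))) (7 ^ i)) :=
  (Hs.gens (pr (7 ^ i) (7 ^ i) (dvd_refl _))).RK (7 ^ i)

theorem eventually_diag (n j : ℕ) (s : Sh n) : ∀ᶠ i in atTop,
    ((RQ i).lap n ^ j) (bas (1, s)) (1, s) = (ggens.lap n ^ j) (bas (1, s)) (1, s) := by
  classical
  set u := (ggens.lap n ^ j) (bas (1, s)) with hu
  filter_upwards [eventually_inj (u.support.image Prod.fst)] with i hi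
  have h1 := ggens.push_lap_pow (RQ i) (redK (pr (7 ^ i) (7 ^ i) (dvd_refl _)) (7 ^ i))
    (redK_lab _ _) n j (bas (1, s))
  rw [push_bas, map_one, ← hu] at h1
  rw [← h1]
  refine push_apply_one _ n u s fun c hc hc1 => ?_
  exact hi c.1 (Finset.mem_image_of_mem _ hc) hc1

theorem log_trace_nonneg_aux (n : ℕ) (ε : ℝ) (hε : 0 < ε) (hε1 : ε < 1) (δ : ℝ) (hδ : 0 < δ) :
    -(2 * δ * Fintype.card (Sh n)) ≤ vtr ggens n (logOp (lapl ggens n) ε) := by
  set D := lapl ggens n with hD
  set K := max ‖D‖ (KL n : ℝ) with hK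
  have hcont : ContinuousOn (fun x : ℝ => Real.log (x + ε)) (Set.Icc 0 K) := by
    refine ContinuousOn.log (by fun_prop) ?_
    intro x hx
    have := hx.1
    linarith
  obtain ⟨q, hq⟩ := exists_polynomial_near_of_continuousOn 0 K _ hcont δ hδ
  have hq' : ∀ x ∈ Set.Icc (0 : ℝ) K, |q.eval x - Real.log (x + ε)| ≤ δ :=
    fun x hx => (hq x hx).le
  -- first comparison
  have h1 : vtr ggens n (aeval D q) - δ * Fintype.card (Sh n) ≤ vtr ggens n (logOp D ε) := by
    obtain ⟨g, hg⟩ := exists_rep ggens n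
    rw [hg, hg]
    have h2 : ∑ s : Sh n, ((inner ℂ (unitVec (g s, s)) ((aeval D q) (unitVec (g s, s)))).re - δ) ≤
        ∑ s : Sh n, (inner ℂ (unitVec (g s, s)) ((logOp D ε) (unitVec (g s, s)))).re := by
      refine Finset.sum_le_sum fun s _ => ?_
      exact approx (lapl_nonneg ggens n) hε q δ
        (fun x hx => hq' x ⟨hx.1, hx.2.trans (le_max_left _ _)⟩) _ (norm_unitVec _)
    rw [Finset.sum_sub_distrib, Finset.sum_const, Finset.card_univ, nsmul_eq_mul] at h2
    linarith
  -- second comparison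
  have h2 : ∀ᶠ i : ℕ in atTop, (Fintype.card (Sh n) : ℝ) * (Real.log ε / ((7 : ℝ) ^ i) - δ) ≤
      vtr ggens n (aeval D q) := by
    have h3 : ∀ᶠ i in atTop, ∀ j ∈ q.support, ∀ s ∈ (Finset.univ : Finset (Sh n)),
        ((RQ i).lap n ^ j) (bas (1, s)) (1, s) = (ggens.lap n ^ j) (bas (1, s)) (1, s) := by
      rw [Finset.eventually_all]
      intro j _
      rw [Finset.eventually_all]
      intro s _
      exact eventually_diag n j s
    filter_upwards [h3] with i hi
    have : NeZero (7 ^ i) := ⟨by positivity⟩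
    classical
    have hfin : Fintype (Hs (pr (7 ^ i) (7 ^ i) (dvd_refl _))) := Fintype.ofFinite _
    have h4 := fin_level (Hs.gens (pr (7 ^ i) (7 ^ i) (dvd_refl _))) (7 ^ i) n K
      (le_max_right _ _) q ε δ hε hε1 hq'
    rw [vtr_poly]
    have h5 : (q.sum fun j c => c * ((∑ s : Sh n, ((RQ i).lap n ^ j) (bas (1, s)) (1, s) : ℤ) : ℝ)) =
        q.sum fun j c => c * ((∑ s : Sh n, (ggens.lap n ^ j) (bas (1, s)) (1, s) : ℤ) : ℝ) := by
      rw [Polynomial.sum_def, Polynomial.sum_def]
      refine Finset.sum_congr rfl fun j hj => ?_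
      congr 2
      exact Finset.sum_congr rfl fun s hs => hi j hj s hs
    rw [← h5]
    refine le_trans (le_of_eq ?_) h4
    push_cast
    rfl
  have h3 : Tendsto (fun i : ℕ => (Fintype.card (Sh n) : ℝ) * (Real.log ε / ((7 : ℝ) ^ i) - δ))
      atTop (𝓝 ((Fintype.card (Sh n) : ℝ) * (0 - δ))) := by
    refine Tendsto.const_mul _ (Tendsto.sub_const ?_ _)
    have : Tendsto (fun i : ℕ => (7 : ℝ) ^ i) atTop atTop :=
      tendsto_pow_atTop_atTop_of_one_lt (by norm_num)
    exact Tendsto.const_div_atTop this _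
  have h4 := le_of_tendsto h3 h2
  have h5 : (0 : ℝ) ≤ Fintype.card (Sh n) := by positivity
  nlinarith

theorem log_trace_nonneg (n : ℕ) (ε : ℝ) (hε : 0 < ε) :
    0 ≤ vtr ggens n (logOp (lapl ggens n) ε) := by
  rcases le_or_gt 1 ε with h | h
  · obtain ⟨g, hg⟩ := exists_rep ggens n
    rw [hg]
    exact Finset.sum_nonneg fun s _ => log_nonneg_of_one_le (lapl_nonneg ggens n) h _
  · by_contra hneg
    push Not at hneg
    set V := vtr ggens n (logOp (lapl ggens n) ε) with hV
    set c : ℝ := (Fintype.card (Sh n) : ℝ) with hc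
    have hc0 : 0 ≤ c := by positivity
    have h1 := log_trace_nonneg_aux n ε hε h (-V / (4 * (c + 1))) (by
      apply div_pos
      · linarith
      · positivity)
    rw [← hV, ← hc] at h1
    have h2 : 2 * (-V / (4 * (c + 1))) * c ≤ -V / 2 := by
      rw [div_eq_mul_inv, div_eq_mul_inv]
      have h3 : c * (c + 1)⁻¹ ≤ 1 := by
        rw [← div_eq_mul_inv, div_le_one (by positivity)]
        linarith
      have h4 : 2 * (-V * (4 * (c + 1))⁻¹) * c = (-V / 2) * (c * (c + 1)⁻¹) := by
        field_simp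
        ring
      rw [h4]
      have h5 : 0 ≤ -V / 2 := by linarith
      nlinarith
    linarith

theorem betti_zero (n : ℕ) : vtr ggens n (kerProj (lapl ggens n)) = 0 := by
  obtain ⟨g, hg⟩ := exists_rep ggens n
  set D := lapl ggens n with hD
  set b := vtr ggens n (kerProj D) with hb
  have hb0 : 0 ≤ b := by
    rw [hb, hg]
    refine Finset.sum_nonneg fun s _ => ?_
    rw [inner_kerProj]
    positivity
  set C : ℝ := Fintype.card (Sh n) * Real.log (‖D‖ + 1) with hC
  have hC0 : 0 ≤ C := mul_nonneg (by positivity) (Real.log_nonneg (by linarith [norm_nonneg D]))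
  have h1 : ∀ ε : ℝ, 0 < ε → ε ≤ 1 → 0 ≤ Real.log ε * b + C := by
    intro ε hε hε1
    refine (log_trace_nonneg n ε hε).trans ?_
    rw [← hD, hb, hg, hg, hC, Finset.mul_sum]
    have h2 : ∑ s : Sh n, (inner ℂ (unitVec (g s, s)) ((logOp D ε) (unitVec (g s, s)))).re ≤
        ∑ s : Sh n, (Real.log ε * (inner ℂ (unitVec (g s, s)) (kerProj D (unitVec (g s, s)))).re +
          Real.log (‖D‖ + 1)) :=
      Finset.sum_le_sum fun s _ => log_le (lapl_nonneg ggens n) hε hε1 _ (norm_unitVec _)
    rw [Finset.sum_add_distrib, Finset.sum_const, Finset.card_univ, nsmul_eq_mul] at h2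
    exact h2
  by_contra hne
  have hbpos : 0 < b := lt_of_le_of_ne hb0 (Ne.symm hne)
  have h2 := h1 (Real.exp (-(C + 1) / b)) (Real.exp_pos _) (by
    rw [Real.exp_le_one_iff]
    apply div_nonpos_of_nonpos_of_nonneg
    · linarith
    · exact hb0)
  rw [Real.log_exp, div_mul_cancel₀ _ hne] at h2
  linarith

/-- The example is det-l2-acyclic. -/
theorem detL2Acyclic : ggens.cover.DetL2Acyclic := by
  have hb : ∀ n, ggens.cover.l2Betti n = 0 := fun n => betti_zero n
  refine ⟨hb, fun n => ?_⟩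
  have h1 : (0 : EReal) ≤ ggens.cover.logDet n := by
    unfold FreeCubeComplex.logDet
    refine le_iInf fun ε => ?_
    have h2 : (0 : ℝ) ≤ ggens.cover.vnTrace n (logOp (ggens.cover.laplacian n) ε.1) -
        ggens.cover.l2Betti n * Real.log ε.1 := by
      rw [hb, zero_mul, sub_zero]
      exact log_trace_nonneg n ε.1 ε.2
    exact_mod_cast h2
  exact lt_of_lt_of_le (EReal.bot_lt_zero) h1

end Pool.Agent.Lib.MP_9a92d3_gt
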