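import Pool.Agent.Lib.MP_9a92d3_gt.Defs

set_option autoImplicit false

/-!
# Sequences of abelian groups and their homology
-/

namespace Pool.Agent.Lib.MP_9a92d3_gt

/-- A sequence of abelian groups and maps of degree `-1`. -/
structure Cx where
  C : ℕ → Type
  [inst : ∀ n, AddCommGroup (C n)]
  d : ∀ n, C (n + 1) →ₗ[ℤ] C n

namespace Cx

instance (X : Cx) (n : ℕ) : AddCommGroup (X.C n) := X.inst n

variable (X Y Z : Cx)

def cycles : ∀ n : ℕ, Submodule ℤ (X.C n)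
  | 0 => ⊤
  | n + 1 => LinearMap.ker (X.d n)

def boundaries (n : ℕ) : Submodule ℤ (X.C n) := LinearMap.range (X.d n)

abbrev H (n : ℕ) : Type := X.cycles n ⧸ (X.boundaries n).submoduleOf (X.cycles n)

noncomputable def tor (n : ℕ) : ℕ := Nat.card (Submodule.torsion ℤ (X.H n))

/-- chain maps -/
structure Hom where
  f : ∀ n, X.C n →ₗ[ℤ] Y.C n
  comm : ∀ n x, Y.d n (f (n + 1) x) = f n (X.d n x)

variable {X Y Z}

theorem Hom.map_cycles (F : Hom X Y) (n : ℕ) (x : X.C n) (hx : x ∈ X.cycles n) :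
    F.f n x ∈ Y.cycles n := by
  match n with
  | 0 => trivial
  | n + 1 =>
    have hx' : X.d n x = 0 := hx
    show Y.d n (F.f (n + 1) x) = 0
    rw [F.comm, hx', map_zero]

def Hom.onCycles (F : Hom X Y) (n : ℕ) : X.cycles n →ₗ[ℤ] Y.cycles n :=
  (F.f n).restrict (F.map_cycles n)

def Hom.onH (F : Hom X Y) (n : ℕ) : X.H n →ₗ[ℤ] Y.H n :=
  Submodule.mapQ _ _ (F.onCycles n) (by
    rintro ⟨x, hx⟩ ⟨y, hy⟩
    refine ⟨F.f (n + 1) y, ?_⟩
    rw [F.comm, hy]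
    rfl)

theorem Hom.onH_mk (F : Hom X Y) (n : ℕ) (x : X.cycles n) :
    F.onH n (Submodule.Quotient.mk x) = Submodule.Quotient.mk (F.onCycles n x) := rfl

/-- If `g ∘ f` is homotopic to the identity then `g_* f_* = 1` on homology. -/
theorem Hom.onH_comp_eq_id (F : Hom X Y) (G : Hom Y X) (h : ∀ n, X.C n →ₗ[ℤ] X.C (n + 1))
    (h0 : ∀ x : X.C 0, G.f 0 (F.f 0 x) - x = X.d 0 (h 0 x))
    (hs : ∀ n, ∀ x : X.C (n + 1), X.d n x = 0 →
      G.f (n + 1) (F.f (n + 1) x) - x = X.d (n + 1) (h (n + 1) x)) (n : ℕ) (x : X.H n) :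
    G.onH n (F.onH n x) = x := by
  induction x using Submodule.Quotient.induction_on with
  | _ x =>
  rw [Hom.onH_mk, Hom.onH_mk, Submodule.Quotient.eq]
  obtain ⟨x, hx⟩ := x
  show G.f n (F.f n x) - x ∈ X.boundaries n
  match n with
  | 0 => exact ⟨_, (h0 x).symm⟩
  | n + 1 => exact ⟨_, (hs n x hx).symm⟩

/-- Homotopy inverse chain maps induce isomorphisms on homology. -/
noncomputable def equivOfHomotopy (F : Hom X Y) (G : Hom Y X)
    (h : ∀ n, X.C n →ₗ[ℤ] X.C (n + 1))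
    (h0 : ∀ x : X.C 0, G.f 0 (F.f 0 x) - x = X.d 0 (h 0 x))
    (hs : ∀ n, ∀ x : X.C (n + 1), X.d n x = 0 →
      G.f (n + 1) (F.f (n + 1) x) - x = X.d (n + 1) (h (n + 1) x))
    (k : ∀ n, Y.C n →ₗ[ℤ] Y.C (n + 1))
    (k0 : ∀ x : Y.C 0, F.f 0 (G.f 0 x) - x = Y.d 0 (k 0 x))
    (ks : ∀ n, ∀ x : Y.C (n + 1), Y.d n x = 0 →
      F.f (n + 1) (G.f (n + 1) x) - x = Y.d (n + 1) (k (n + 1) x)) (n : ℕ) :
    X.H n ≃ₗ[ℤ] Y.H n :=
  LinearEquiv.ofLinearMap (F.onH n) (G.onH n)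
    (LinearMap.ext fun x => Hom.onH_comp_eq_id G F k k0 ks n x)
    (LinearMap.ext fun x => Hom.onH_comp_eq_id F G h h0 hs n x)

/-- Isomorphic complexes have isomorphic homology. -/
noncomputable def equivOfIso (e : ∀ n, X.C n ≃ₗ[ℤ] Y.C n)
    (comm : ∀ n x, Y.d n (e (n + 1) x) = e n (X.d n x)) (n : ℕ) : X.H n ≃ₗ[ℤ] Y.H n :=
  equivOfHomotopy ⟨fun n => (e n).toLinearMap, comm⟩
    ⟨fun n => (e n).symm.toLinearMap, fun n x => by
      apply (e n).injective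
      simp [← comm]⟩
    (fun _ => 0) (by simp) (by simp) (fun _ => 0) (by simp) (by simp) n

theorem tor_eq_of_equiv {n m : ℕ} (e : X.H n ≃ₗ[ℤ] Y.H m) : X.tor n = Y.tor m := by
  unfold tor
  refine Nat.card_congr ?_
  refine (e.toEquiv.subtypeEquiv fun a => ?_)
  constructor
  · rintro ⟨c, hc⟩
    exact ⟨c, by
      have := congrArg e hc
      rw [map_zero] at this
      rw [← this]
      exact (map_zsmul e (c : ℤ) a).symm⟩
  · rintro ⟨c, hc⟩
    exact ⟨c, by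
      apply e.injective
      rw [map_zero, ← hc]
      exact map_zsmul e (c : ℤ) a⟩

/-- products -/
def prod (X Y : Cx) : Cx where
  C n := X.C n × Y.C n
  d n := (X.d n).prodMap (Y.d n)

/-- torsion of a product -/
theorem card_torsion_prod (A B : Type) [AddCommGroup A] [AddCommGroup B] :
    Nat.card (Submodule.torsion ℤ (A × B)) =
      Nat.card (Submodule.torsion ℤ A) * Nat.card (Submodule.torsion ℤ B) := by
  rw [← Nat.card_prod]
  refine Nat.card_congr ?_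
  refine
    { toFun := fun x => (⟨x.1.1, ?_⟩, ⟨x.1.2, ?_⟩)
      invFun := fun x => ⟨(x.1.1, x.2.1), ?_⟩
      left_inv := fun x => rfl
      right_inv := fun x => rfl }
  · obtain ⟨⟨a, b⟩, ⟨c, hc⟩⟩ := x
    exact ⟨c, congrArg Prod.fst hc⟩
  · obtain ⟨⟨a, b⟩, ⟨c, hc⟩⟩ := x
    exact ⟨c, congrArg Prod.snd hc⟩
  · obtain ⟨⟨a, ⟨c, hc⟩⟩, ⟨b, ⟨c', hc'⟩⟩⟩ := x
    refine ⟨c * c', ?_⟩
    refine Prod.ext ?_ ?_
    · show ((c : ℤ) * (c' : ℤ)) • a = 0
      have hc1 : (c : ℤ) • a = 0 := hc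
      rw [mul_comm, mul_smul, hc1, smul_zero]
    · show ((c : ℤ) * (c' : ℤ)) • b = 0
      have hc1 : (c' : ℤ) • b = 0 := hc'
      rw [mul_smul, hc1, smul_zero]

/-- homology of a product -/
noncomputable def prodEquiv (X Y : Cx) (n : ℕ) : (prod X Y).H n ≃ₗ[ℤ] X.H n × Y.H n := by
  have hcyc : ∀ x : (prod X Y).C n, x ∈ (prod X Y).cycles n ↔
      x.1 ∈ X.cycles n ∧ x.2 ∈ Y.cycles n := by
    intro x
    match n with
    | 0 => exact ⟨fun _ => ⟨trivial, trivial⟩, fun _ => trivial⟩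
    | n + 1 =>
      show ((X.d n x.1, Y.d n x.2) : X.C n × Y.C n) = 0 ↔ X.d n x.1 = 0 ∧ Y.d n x.2 = 0
      exact Prod.ext_iff
  let F : (prod X Y).H n →ₗ[ℤ] X.H n × Y.H n :=
    (Hom.onH (Y := X) ⟨fun n => LinearMap.fst ℤ _ _, fun _ _ => rfl⟩ n).prod
      (Hom.onH (Y := Y) ⟨fun n => LinearMap.snd ℤ _ _, fun _ _ => rfl⟩ n)
  refine LinearEquiv.ofBijective F ⟨?_, ?_⟩
  · rw [← LinearMap.ker_eq_bot, LinearMap.ker_eq_bot']
    intro x
    induction x using Submodule.Quotient.induction_on with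
    | _ x =>
    intro hx
    obtain ⟨x, hx'⟩ := x
    have h1 := congrArg Prod.fst hx
    have h2 := congrArg Prod.snd hx
    have h1' : (⟨x.1, ((hcyc x).mp hx').1⟩ : X.cycles n) ∈
        (X.boundaries n).submoduleOf (X.cycles n) := (Submodule.Quotient.mk_eq_zero _).mp h1
    have h2' : (⟨x.2, ((hcyc x).mp hx').2⟩ : Y.cycles n) ∈
        (Y.boundaries n).submoduleOf (Y.cycles n) := (Submodule.Quotient.mk_eq_zero _).mp h2
    rw [Submodule.Quotient.mk_eq_zero]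
    obtain ⟨a, ha⟩ := h1'
    obtain ⟨b, hb⟩ := h2'
    exact ⟨(a, b), Prod.ext ha hb⟩
  · rintro ⟨a, b⟩
    induction a using Submodule.Quotient.induction_on with
    | _ a =>
    induction b using Submodule.Quotient.induction_on with
    | _ b =>
    exact ⟨Submodule.Quotient.mk ⟨(a.1, b.1), (hcyc _).mpr ⟨a.2, b.2⟩⟩, rfl⟩

theorem tor_prod (X Y : Cx) (n : ℕ) : (prod X Y).tor n = X.tor n * Y.tor n := by
  unfold tor
  rw [← card_torsion_prod]
  refine Nat.card_congr ?_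
  have e := prodEquiv X Y n
  refine (e.toEquiv.subtypeEquiv fun a => ?_)
  constructor
  · rintro ⟨c, hc⟩
    exact ⟨c, by
      have := congrArg e hc
      rw [map_zero] at this
      rw [← this]
      exact (map_zsmul e (c : ℤ) a).symm⟩
  · rintro ⟨c, hc⟩
    exact ⟨c, by
      apply e.injective
      rw [map_zero, ← hc]
      exact map_zsmul e (c : ℤ) a⟩

end Cx

end Pool.Agent.Lib.MP_9a92d3_gt
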