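import Pool.Agent.Lib.MP_9a92d3_gt.Chain

set_option autoImplicit false

/-!
# The product of a complex with a circle consisting of `k` edges
-/

namespace Pool.Agent.Lib.MP_9a92d3_gt

namespace Circle

variable {k : ℕ} [NeZero k] {M N : Type} [AddCommGroup M] [AddCommGroup N]

/-- translation by one minus the identity -/
def tau (M : Type) [AddCommGroup M] (k : ℕ) : (ZMod k → M) →ₗ[ℤ] (ZMod k → M) where
  toFun u j := u (j - 1) - u j
  map_add' u v := by ext j; simp only [Pi.add_apply]; abel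
  map_smul' c u := by ext j; simp [smul_sub]

/-- sum over the circle -/
def tot (M : Type) [AddCommGroup M] (k : ℕ) [NeZero k] : (ZMod k → M) →ₗ[ℤ] M where
  toFun u := ∑ j, u j
  map_add' u v := by simp [Finset.sum_add_distrib]
  map_smul' c u := by simp [Finset.smul_sum]

/-- the homotopy -/
def hom (M : Type) [AddCommGroup M] (k : ℕ) : (ZMod k → M) →ₗ[ℤ] (ZMod k → M) where
  toFun u l := ∑ i ∈ Finset.Ico (l.val + 1) k, u (i : ZMod k)
  map_add' u v := by ext j; simp [Finset.sum_add_distrib]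
  map_smul' c u := by ext j; simp [Finset.smul_sum]

theorem sum_zmod (u : ZMod k → M) : ∑ j, u j = ∑ i ∈ Finset.range k, u (i : ZMod k) := by
  rw [Finset.sum_range]
  obtain ⟨n, rfl⟩ : ∃ n, k = n + 1 := ⟨k - 1, (Nat.succ_pred_eq_of_ne_zero (NeZero.ne k)).symm⟩
  refine Finset.sum_congr rfl fun j _ => ?_
  congr 1
  exact (Fin.cast_val_eq_self j).symm

theorem tau_hom (u : ZMod k → M) :
    tau M k (hom M k u) = u - Pi.single 0 (tot M k u) := by
  ext l
  show (∑ i ∈ Finset.Ico ((l - 1).val + 1) k, u (i : ZMod k)) -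
    (∑ i ∈ Finset.Ico (l.val + 1) k, u (i : ZMod k)) = u l - (Pi.single 0 (∑ j, u j) : ZMod k → M) l
  obtain ⟨n, rfl⟩ : ∃ n, k = n + 1 := ⟨k - 1, (Nat.succ_pred_eq_of_ne_zero (NeZero.ne k)).symm⟩
  by_cases hl : l = 0
  · subst hl
    rw [zero_sub, ZMod.val_neg_one, Finset.Ico_self, Finset.sum_empty, Pi.single_eq_same, sum_zmod,
      ZMod.val_zero, Finset.range_eq_Ico, ← Finset.sum_Ico_consecutive _ (Nat.zero_le 1)
        (Nat.succ_le_succ (Nat.zero_le n))]
    simp
  · rw [Pi.single_eq_of_ne hl, sub_zero]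
    have hl1 : 1 ≤ l.val := Nat.one_le_iff_ne_zero.mpr fun h => hl ((ZMod.val_eq_zero l).mp h)
    have hlt := ZMod.val_lt l
    have h1 : (1 : ZMod (n + 1)).val = 1 := by
      rw [ZMod.val_one_eq_one_mod, Nat.mod_eq_of_lt (by omega)]
    have h2 : (l - 1).val = l.val - 1 := by
      rw [ZMod.val_sub (by rw [h1]; exact hl1), h1]
    rw [h2, Nat.sub_add_cancel hl1, ← Finset.sum_Ico_consecutive _ (Nat.le_succ l.val)
      (by omega : l.val + 1 ≤ n + 1)]
    simp

theorem hom_tau (u : ZMod k → M) :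
    hom M k (tau M k u) = u - fun _ => u (-1) := by
  ext l
  show (∑ i ∈ Finset.Ico (l.val + 1) k, (u ((i : ZMod k) - 1) - u (i : ZMod k))) = u l - u (-1)
  have hlt := ZMod.val_lt l
  rw [Finset.sum_Ico_eq_sum_range]
  have h : ∀ i ∈ Finset.range (k - (l.val + 1)),
      u (((l.val + 1 + i : ℕ) : ZMod k) - 1) - u ((l.val + 1 + i : ℕ) : ZMod k) =
      (fun j : ℕ => u (((l.val + j : ℕ) : ZMod k))) i -
        (fun j : ℕ => u (((l.val + j : ℕ) : ZMod k))) (i + 1) := by
    intro i _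
    simp only
    congr 2
    · push_cast; ring
    · push_cast; ring
  rw [Finset.sum_congr rfl h, Finset.sum_range_sub']
  simp only [add_zero]
  congr 1
  · rw [ZMod.natCast_zmod_val]
  · congr 1
    have : l.val + (k - (l.val + 1)) = k - 1 := by omega
    rw [this, Nat.cast_sub (Nat.one_le_iff_ne_zero.mpr (NeZero.ne k))]
    simp

/-- pointwise application of a linear map -/
def ptw (k : ℕ) (f : M →ₗ[ℤ] N) : (ZMod k → M) →ₗ[ℤ] (ZMod k → N) := LinearMap.compLeft f (ZMod k)

@[simp] theorem ptw_apply (f : M →ₗ[ℤ] N) (u : ZMod k → M) (j : ZMod k) :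
    ptw k f u j = f (u j) := rfl

theorem ptw_tau (f : M →ₗ[ℤ] N) (u : ZMod k → M) : ptw k f (tau M k u) = tau N k (ptw k f u) := by
  ext j
  show f (u (j - 1) - u j) = f (u (j - 1)) - f (u j)
  rw [map_sub]

theorem ptw_hom (f : M →ₗ[ℤ] N) (u : ZMod k → M) : ptw k f (hom M k u) = hom N k (ptw k f u) := by
  ext j
  show f (∑ i ∈ Finset.Ico (j.val + 1) k, u (i : ZMod k)) = _
  rw [map_sum]
  rfl

theorem tot_ptw (f : M →ₗ[ℤ] N) (u : ZMod k → M) : tot N k (ptw k f u) = f (tot M k u) := by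
  show ∑ j, f (u j) = f (∑ j, u j)
  rw [map_sum]

theorem tot_tau (u : ZMod k → M) : tot M k (tau M k u) = 0 := by
  show ∑ j, (u (j - 1) - u j) = 0
  rw [Finset.sum_sub_distrib, sub_eq_zero]
  exact Equiv.sum_comp (Equiv.subRight (1 : ZMod k)) u

/-- The underlying groups of the product of `D` with a circle consisting of `k` edges. -/
def CircC (D : Cx) (k : ℕ) : ℕ → Type
  | 0 => ZMod k → D.C 0
  | n + 1 => (ZMod k → D.C (n + 1)) × (ZMod k → D.C n)

instance (D : Cx) (k n : ℕ) : AddCommGroup (CircC D k n) :=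
  match n with
  | 0 => inferInstanceAs (AddCommGroup (ZMod k → D.C 0))
  | n + 1 => inferInstanceAs (AddCommGroup ((ZMod k → D.C (n + 1)) × (ZMod k → D.C n)))

/-- The tensor product of `D` with the cellular chain complex of a circle with `k` edges. -/
def circ (D : Cx) (k : ℕ) : Cx where
  C n := CircC D k n
  d n := match n with
    | 0 =>
      { toFun := fun u : (ZMod k → D.C 1) × (ZMod k → D.C 0) =>
          (ptw k (D.d 0) u.1 + tau (D.C 0) k u.2 : ZMod k → D.C 0)
        map_add' := fun u v => by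
          show ptw k (D.d 0) (u.1 + v.1) + tau (D.C 0) k (u.2 + v.2) = _ + _
          rw [map_add, map_add]
          abel
        map_smul' := fun c u => by
          show ptw k (D.d 0) (c • u.1) + tau (D.C 0) k (c • u.2) = c • (_ + _)
          rw [map_smul, map_smul, smul_add] }
    | n + 1 =>
      { toFun := fun u : (ZMod k → D.C (n + 2)) × (ZMod k → D.C (n + 1)) =>
          ((ptw k (D.d (n + 1)) u.1 + (-1 : ℤ) ^ (n + 1) • tau (D.C (n + 1)) k u.2,
            ptw k (D.d n) u.2) : (ZMod k → D.C (n + 1)) × (ZMod k → D.C n))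
        map_add' := fun u v => by
          refine Prod.ext ?_ ?_
          · show ptw k (D.d (n + 1)) (u.1 + v.1) +
              (-1 : ℤ) ^ (n + 1) • tau (D.C (n + 1)) k (u.2 + v.2) = _ + _
            rw [map_add, map_add, smul_add]
            exact add_add_add_comm _ _ _ _
          · show ptw k (D.d n) (u.2 + v.2) = _ + _
            rw [map_add]
        map_smul' := fun c u => by
          refine Prod.ext ?_ ?_
          · show ptw k (D.d (n + 1)) (c • u.1) +
              (-1 : ℤ) ^ (n + 1) • tau (D.C (n + 1)) k (c • u.2) = c • (_ + _)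
            rw [map_smul, map_smul, smul_add, smul_comm c]
          · show ptw k (D.d n) (c • u.2) = c • _
            rw [map_smul] }

/-- The underlying groups of `D ⊕ D[1]`. -/
def DsC (D : Cx) : ℕ → Type
  | 0 => D.C 0
  | n + 1 => D.C (n + 1) × D.C n

instance (D : Cx) (n : ℕ) : AddCommGroup (DsC D n) :=
  match n with
  | 0 => inferInstanceAs (AddCommGroup (D.C 0))
  | n + 1 => inferInstanceAs (AddCommGroup (D.C (n + 1) × D.C n))

/-- `D ⊕ D[1]` -/
def ds (D : Cx) : Cx where
  C n := DsC D n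
  d n := match n with
    | 0 => (D.d 0).comp (LinearMap.fst ℤ (D.C 1) (D.C 0))
    | n + 1 => (D.d (n + 1)).prodMap (D.d n)

variable (D : Cx)

/-- the map `circ D k → D ⊕ D[1]` -/
def alpha (k : ℕ) [NeZero k] : Cx.Hom (circ D k) (ds D) where
  f n := match n with
    | 0 => tot (D.C 0) k
    | n + 1 => (tot (D.C (n + 1)) k).prodMap (LinearMap.proj (-1 : ZMod k))
  comm n x := match n, x with
    | 0, x => by
      show D.d 0 (tot (D.C 1) k x.1) = tot (D.C 0) k (ptw k (D.d 0) x.1 + tau (D.C 0) k x.2)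
      rw [map_add, tot_tau, tot_ptw, add_zero]
    | n + 1, x => by
      refine Prod.ext ?_ ?_
      · show D.d (n + 1) (tot (D.C (n + 2)) k x.1) = tot (D.C (n + 1)) k
          (ptw k (D.d (n + 1)) x.1 + (-1 : ℤ) ^ (n + 1) • tau (D.C (n + 1)) k x.2)
        rw [map_add, map_smul, tot_tau, tot_ptw, smul_zero, add_zero]
      · rfl

/-- the map `D ⊕ D[1] → circ D k` -/
def beta (k : ℕ) [NeZero k] : Cx.Hom (ds D) (circ D k) where
  f n := match n with
    | 0 => LinearMap.single ℤ (fun _ : ZMod k => D.C 0) 0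
    | n + 1 => (LinearMap.single ℤ (fun _ : ZMod k => D.C (n + 1)) 0).prodMap
        (LinearMap.pi fun _ => LinearMap.id)
  comm n x := match n, x with
    | 0, x => by
      show ptw k (D.d 0) (Pi.single 0 x.1) + tau (D.C 0) k (fun _ => x.2) =
        (Pi.single 0 (D.d 0 x.1) : ZMod k → D.C 0)
      ext j
      show D.d 0 ((Pi.single 0 x.1 : ZMod k → D.C 1) j) + (x.2 - x.2) = _
      rw [sub_self, add_zero]
      by_cases hj : j = 0
      · subst hj; simp
      · rw [Pi.single_eq_of_ne hj, Pi.single_eq_of_ne hj, map_zero]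
    | n + 1, x => by
      refine Prod.ext ?_ ?_
      · show ptw k (D.d (n + 1)) (Pi.single 0 x.1) +
          (-1 : ℤ) ^ (n + 1) • tau (D.C (n + 1)) k (fun _ => x.2) =
            (Pi.single 0 (D.d (n + 1) x.1) : ZMod k → D.C (n + 1))
        have h0 : tau (D.C (n + 1)) k (fun _ => x.2) = 0 := by
          ext j
          show x.2 - x.2 = 0
          rw [sub_self]
        rw [h0, smul_zero, add_zero]
        ext j
        show D.d (n + 1) ((Pi.single 0 x.1 : ZMod k → D.C (n + 2)) j) = _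
        by_cases hj : j = 0
        · subst hj; simp
        · rw [Pi.single_eq_of_ne hj, Pi.single_eq_of_ne hj, map_zero]
      · rfl

theorem tot_single (x : M) : tot M k (Pi.single 0 x) = x := by
  show ∑ j, (Pi.single 0 x : ZMod k → M) j = x
  simp

/-- The homology of `D ⊗ C(circle)`. -/
noncomputable def circEquiv (k : ℕ) [NeZero k] (n : ℕ) : (circ D k).H n ≃ₗ[ℤ] (ds D).H n := by
  refine Cx.equivOfHomotopy (alpha D k) (beta D k)
    (fun n => match n with
      | 0 => LinearMap.prod 0 (- hom (D.C 0) k)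
      | n + 1 => LinearMap.prod 0 (((-1 : ℤ) ^ n • hom (D.C (n + 1)) k).comp
          (LinearMap.fst ℤ _ _)))
    ?_ ?_ (fun n => 0) ?_ ?_ n
  · have key : ∀ x : ZMod k → D.C 0, (Pi.single 0 (tot (D.C 0) k x) : ZMod k → D.C 0) - x =
        ptw k (D.d 0) 0 + tau (D.C 0) k (- hom (D.C 0) k x) := by
      intro x
      rw [map_zero, zero_add, map_neg, tau_hom]
      abel
    exact key
  · intro n x hx
    match n, x, hx with
    | 0, (u, v), hx =>
      have hx' : ptw k (D.d 0) u + tau (D.C 0) k v = 0 := hx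
      have h2 : tau (D.C 0) k v = - ptw k (D.d 0) u := eq_neg_of_add_eq_zero_right hx'
      refine Prod.ext ?_ ?_
      · show (Pi.single 0 (tot (D.C 1) k u) : ZMod k → D.C 1) - u =
          ptw k (D.d 1) 0 + (-1 : ℤ) ^ 1 • tau (D.C 1) k ((-1 : ℤ) ^ 0 • hom (D.C 1) k u)
        rw [map_zero, zero_add, pow_zero, one_smul, tau_hom, pow_one, neg_one_smul]
        abel
      · show (fun _ => v (-1)) - v = ptw k (D.d 0) ((-1 : ℤ) ^ 0 • hom (D.C 1) k u)
        rw [pow_zero, one_smul, ptw_hom]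
        have h3 := congrArg (hom (D.C 0) k) h2
        rw [hom_tau, map_neg] at h3
        rw [← neg_sub, h3, neg_neg]
    | n + 1, (u, v), hx =>
      have hx1 : ptw k (D.d (n + 1)) u + (-1 : ℤ) ^ (n + 1) • tau (D.C (n + 1)) k v = 0 :=
        congrArg Prod.fst hx
      have h2 : (-1 : ℤ) ^ (n + 1) • tau (D.C (n + 1)) k v = - ptw k (D.d (n + 1)) u :=
        eq_neg_of_add_eq_zero_right hx1
      have hsq : (-1 : ℤ) ^ (n + 1) * (-1 : ℤ) ^ (n + 1) = 1 := by
        rw [← mul_pow]; simp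
      refine Prod.ext ?_ ?_
      · show (Pi.single 0 (tot (D.C (n + 2)) k u) : ZMod k → D.C (n + 2)) - u =
          ptw k (D.d (n + 2)) 0 +
            (-1 : ℤ) ^ (n + 2) • tau (D.C (n + 2)) k ((-1 : ℤ) ^ (n + 1) • hom (D.C (n + 2)) k u)
        rw [map_zero, zero_add, map_smul, smul_smul, tau_hom, pow_succ _ (n + 1), mul_right_comm,
          hsq, one_mul, neg_one_smul]
        abel
      · show (fun _ => v (-1)) - v =
          ptw k (D.d (n + 1)) ((-1 : ℤ) ^ (n + 1) • hom (D.C (n + 2)) k u)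
        rw [map_smul, ptw_hom]
        have h3 : (-1 : ℤ) ^ (n + 1) • hom (D.C (n + 1)) k
            ((-1 : ℤ) ^ (n + 1) • tau (D.C (n + 1)) k v) = (-1 : ℤ) ^ (n + 1) •
              hom (D.C (n + 1)) k (- ptw k (D.d (n + 1)) u) := by rw [h2]
        rw [map_smul, smul_smul, hsq, one_smul, hom_tau, map_neg, smul_neg] at h3
        rw [← neg_sub, h3, neg_neg]
  · have key : ∀ x : D.C 0, tot (D.C 0) k (Pi.single 0 x) - x = D.d 0 0 := by
      intro x
      rw [tot_single, sub_self, map_zero]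
    exact key
  · intro n x hx
    match n, x, hx with
    | n, (a, b), hx =>
      refine Prod.ext ?_ ?_
      · show tot (D.C (n + 1)) k (Pi.single 0 a) - a = D.d (n + 1) 0
        rw [tot_single, sub_self, map_zero]
      · show b - b = D.d n 0
        rw [sub_self, map_zero]

/-- `H_0 (D ⊕ D[1]) = H_0 D` -/
noncomputable def dsEquivZero : (ds D).H 0 ≃ₗ[ℤ] D.H 0 :=
  Submodule.Quotient.equiv _ _ (LinearEquiv.refl ℤ _) (by
    ext ⟨x, hx⟩
    constructor
    · rintro ⟨y, ⟨z, hz⟩, hy⟩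
      exact ⟨z.1, hz.trans (congrArg Subtype.val hy)⟩
    · rintro ⟨z, hz⟩
      exact ⟨⟨x, hx⟩, ⟨(z, 0), hz⟩, rfl⟩)

theorem mem_cycles_ds (n : ℕ) (x : D.C (n + 1) × D.C n) :
    (x : (ds D).C (n + 1)) ∈ (ds D).cycles (n + 1) ↔ x.1 ∈ D.cycles (n + 1) ∧ x.2 ∈ D.cycles n := by
  match n, x with
  | 0, (a, b) => exact ⟨fun h => ⟨h, trivial⟩, fun h => h.1⟩
  | n + 1, (a, b) =>
    show ((D.d (n + 1) a, D.d n b) : D.C (n + 1) × D.C n) = 0 ↔ D.d (n + 1) a = 0 ∧ D.d n b = 0
    exact Prod.ext_iff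

theorem mem_boundaries_ds (n : ℕ) (x : D.C (n + 1) × D.C n) :
    (x : (ds D).C (n + 1)) ∈ (ds D).boundaries (n + 1) ↔
      x.1 ∈ D.boundaries (n + 1) ∧ x.2 ∈ D.boundaries n := by
  constructor
  · rintro ⟨y, hy⟩
    exact ⟨⟨y.1, congrArg Prod.fst hy⟩, ⟨y.2, congrArg Prod.snd hy⟩⟩
  · rintro ⟨⟨a, ha⟩, ⟨b, hb⟩⟩
    exact ⟨(a, b), Prod.ext ha hb⟩

/-- `H_{n+1} (D ⊕ D[1]) = H_{n+1} D ⊕ H_n D` -/
noncomputable def dsEquivSucc (n : ℕ) : (ds D).H (n + 1) ≃ₗ[ℤ] D.H (n + 1) × D.H n := by
  let p : (ds D).cycles (n + 1) →ₗ[ℤ] D.H (n + 1) × D.H n :=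
    LinearMap.prod
      ((Submodule.mkQ _).comp (LinearMap.codRestrict (D.cycles (n + 1))
        ((LinearMap.fst ℤ (D.C (n + 1)) (D.C n)).comp ((ds D).cycles (n + 1)).subtype)
        (fun x => ((mem_cycles_ds D n x.1).mp x.2).1)))
      ((Submodule.mkQ _).comp (LinearMap.codRestrict (D.cycles n)
        ((LinearMap.snd ℤ (D.C (n + 1)) (D.C n)).comp ((ds D).cycles (n + 1)).subtype)
        (fun x => ((mem_cycles_ds D n x.1).mp x.2).2)))
  have hker : LinearMap.ker p = ((ds D).boundaries (n + 1)).submoduleOf ((ds D).cycles (n + 1)) := by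
    ext x
    rw [LinearMap.mem_ker]
    constructor
    · intro h
      have h1 := (Submodule.Quotient.mk_eq_zero _).mp (congrArg Prod.fst h)
      have h2 := (Submodule.Quotient.mk_eq_zero _).mp (congrArg Prod.snd h)
      exact (mem_boundaries_ds D n x.1).mpr ⟨h1, h2⟩
    · intro h
      have h' := (mem_boundaries_ds D n x.1).mp h
      exact Prod.ext ((Submodule.Quotient.mk_eq_zero _).mpr h'.1)
        ((Submodule.Quotient.mk_eq_zero _).mpr h'.2)
  have hsurj : Function.Surjective p := by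
    rintro ⟨a, b⟩
    induction a using Submodule.Quotient.induction_on with
    | _ a =>
    induction b using Submodule.Quotient.induction_on with
    | _ b =>
    exact ⟨⟨(a.1, b.1), (mem_cycles_ds D n _).mpr ⟨a.2, b.2⟩⟩, rfl⟩
  exact (Submodule.quotEquivOfEq _ _ hker.symm).trans (LinearMap.quotKerEquivOfSurjective p hsurj)

end Circle

/-- torsion cardinalities are invariant under isomorphism -/
theorem card_torsion_congr {A B : Type} [AddCommGroup A] [AddCommGroup B] (e : A ≃ₗ[ℤ] B) :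
    Nat.card (Submodule.torsion ℤ A) = Nat.card (Submodule.torsion ℤ B) := by
  refine Nat.card_congr ?_
  refine (e.toEquiv.subtypeEquiv fun a => ?_)
  constructor
  · rintro ⟨c, hc⟩
    exact ⟨c, by
      have := congrArg e hc
      rw [map_zero] at this
      rw [← this]
      exact (map_zsmul e (c : ℤ) a).symm⟩
  · rintro ⟨c, hc⟩
    exact ⟨c, by
      apply e.injective
      rw [map_zero, ← hc]
      exact map_zsmul e (c : ℤ) a⟩

theorem Circle.tor_circ_zero (D : Cx) (k : ℕ) [NeZero k] : (Circle.circ D k).tor 0 = D.tor 0 :=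
  card_torsion_congr ((Circle.circEquiv D k 0).trans (Circle.dsEquivZero D))

theorem Circle.tor_circ_succ (D : Cx) (k : ℕ) [NeZero k] (n : ℕ) :
    (Circle.circ D k).tor (n + 1) = D.tor (n + 1) * D.tor n := by
  rw [Cx.tor, Cx.tor, Cx.tor, ← Cx.card_torsion_prod]
  exact card_torsion_congr ((Circle.circEquiv D k (n + 1)).trans (Circle.dsEquivSucc D n))

end Pool.Agent.Lib.MP_9a92d3_gt
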