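import Pool.Agent.Lib.MP_9a92d3_gt.Heis

set_option autoImplicit false

/-!
# Finiteness of the cokernel
-/

namespace Pool.Agent.Lib.MP_9a92d3_gt

open Gens4

theorem single_eq_smul_bas {α : Type} (a : α) (n : ℤ) :
    (Finsupp.single a n : Z α) = n • bas a := by
  rw [Finsupp.smul_single, smul_eq_mul, mul_one]

/-- A subgroup of `ℤ[α]` containing the basis elements is everything. -/
theorem mem_of_bas {α : Type} (N : Submodule ℤ (Z α)) (h : ∀ a, bas a ∈ N) (u : Z α) : u ∈ N := by
  induction u using Finsupp.induction_linear with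
  | zero => exact N.zero_mem
  | add u v hu hv => exact N.add_mem hu hv
  | single a n =>
    rw [single_eq_smul_bas]
    exact N.smul_mem _ (h a)

/-- An abelian group which is finitely generated and `2`-divisible is finite. -/
theorem finite_of_two_divisible (M : Type) [AddCommGroup M] [Module.Finite ℤ M]
    (h : ∀ z : M, ∃ z' : M, z = (2 : ℤ) • z') : Finite M := by
  have h1 : (⊤ : Submodule ℤ M) ≤ (Ideal.span {(2 : ℤ)}) • (⊤ : Submodule ℤ M) := by
    intro z _
    obtain ⟨z', rfl⟩ := h z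
    exact Submodule.smul_mem_smul (Ideal.mem_span_singleton_self 2) trivial
  obtain ⟨r, hr, hr'⟩ := Submodule.exists_sub_one_mem_and_smul_eq_zero_of_fg_of_le_smul _ _
    Module.Finite.fg_top h1
  have hr0 : r ≠ 0 := by
    rintro rfl
    rw [Ideal.mem_span_singleton] at hr
    omega
  refine Module.finite_of_fg_torsion M ?_
  intro z
  exact ⟨⟨r, mem_nonZeroDivisors_iff_ne_zero.mpr hr0⟩, hr' z trivial⟩

theorem coker_two_divisible {Q : Type} [Group Q] (x y : Q) (z : Coker x y) :
    ∃ z' : Coker x y, z = (2 : ℤ) • z' := by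
  induction z using Submodule.Quotient.induction_on with
  | _ u =>
  have key : ∀ u : Z Q, u ∈ LinearMap.range (fmap x y) ⊔
      LinearMap.range ((2 : ℤ) • (LinearMap.id : Z Q →ₗ[ℤ] Z Q)) := by
    refine mem_of_bas _ fun q => ?_
    have h1 : (bas q : Z Q) = fmap x y (bas (q * y⁻¹)) +
        (2 : ℤ) • (bas (q * y⁻¹) - bas (q * y⁻¹ * x)) := by
      rw [fmap_bas, inv_mul_cancel_right, smul_sub]
      abel
    rw [h1]
    exact Submodule.add_mem_sup ⟨_, rfl⟩ ⟨bas (q * y⁻¹) - bas (q * y⁻¹ * x), rfl⟩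
  obtain ⟨a, ⟨b, rfl⟩, c, ⟨d, rfl⟩, hu⟩ := Submodule.mem_sup.mp (key u)
  refine ⟨Submodule.Quotient.mk d, ?_⟩
  rw [← Submodule.Quotient.mk_smul, Submodule.Quotient.eq]
  refine ⟨b, ?_⟩
  rw [← hu]
  show fmap x y b = fmap x y b + (2 : ℤ) • d - (2 : ℤ) • d
  abel

theorem finite_coker {Q : Type} [Group Q] [Finite Q] (x y : Q) : Finite (Coker x y) :=
  finite_of_two_divisible _ (coker_two_divisible x y)

end Pool.Agent.Lib.MP_9a92d3_gt
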