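import Mathlib

set_option autoImplicit false

/-!
# Cube complexes, their finite coverings, and their l2-invariants

A cube complex (semi-cubical set) is the combinatorial form of a CW complex all of whose cells are
cubes glued along their faces.
-/

namespace Pool.Agent.Lib.MP_9a92d3_gt

open Filter Topology

/-- A cube complex: for every `n` a set of `n`-cubes, and for every `(n+1)`-cube `c` its
`2 (n+1)` codimension one faces `face i false c` (where the `i`-th coordinate is `0`) and
`face i true c` (where the `i`-th coordinate is `1`), subject to the cubical identities.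
Its geometric realization is a CW complex with one `n`-cell for every `n`-cube. -/
structure CubeComplex where
  /-- the set of `n`-cubes -/
  cell : ℕ → Type
  /-- the faces of an `(n+1)`-cube -/
  face : ∀ {n : ℕ}, Fin (n + 1) → Bool → cell (n + 1) → cell n
  /-- the cubical identities -/
  face_face : ∀ {n : ℕ} (i j : Fin (n + 1)) (a b : Bool) (c : cell (n + 2)), i ≤ j →
    face i a (face j.succ b c) = face j b (face i.castSucc a c)

/-- The order of the torsion subgroup of an abelian group. -/
noncomputable def torsionCard (A : Type) [AddCommGroup A] : ℕ :=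
  Nat.card (Submodule.torsion ℤ A)

namespace CubeComplex

variable (K : CubeComplex)

/-- The cellular boundary map from `(n+1)`-chains to `n`-chains with integer coefficients:
`c ↦ ∑ i, (-1)^i (face i true c - face i false c)`. -/
noncomputable def bd (n : ℕ) : (K.cell (n + 1) →₀ ℤ) →ₗ[ℤ] (K.cell n →₀ ℤ) :=
  Finsupp.linearCombination ℤ fun c : K.cell (n + 1) =>
    ∑ i : Fin (n + 1), (-1 : ℤ) ^ (i : ℕ) •
      (Finsupp.single (K.face i true c) (1 : ℤ) - Finsupp.single (K.face i false c) (1 : ℤ))

/-- The cellular `n`-cycles. -/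
noncomputable def cycles : ∀ n : ℕ, Submodule ℤ (K.cell n →₀ ℤ)
  | 0 => ⊤
  | n + 1 => LinearMap.ker (K.bd n)

/-- The cellular `n`-boundaries. -/
noncomputable def boundaries (n : ℕ) : Submodule ℤ (K.cell n →₀ ℤ) :=
  LinearMap.range (K.bd n)

/-- The `n`-th cellular homology group `H_n(K; ℤ)`, cycles modulo boundaries. -/
abbrev Homology (n : ℕ) : Type :=
  K.cycles n ⧸ (K.boundaries n).submoduleOf (K.cycles n)

/-- The order of the torsion subgroup of `H_n(K; ℤ)`. -/
noncomputable def torsionOrder (n : ℕ) : ℕ := torsionCard (K.Homology n)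

/-- The alternating sum `∑ n, (-1)^n ln |tors H_n(K; ℤ)|` (a finite sum if `K` is finite). -/
noncomputable def torsionSum : ℝ :=
  ∑ᶠ n : ℕ, (-1 : ℝ) ^ n * Real.log (K.torsionOrder n)

/-- `K.IsPath u l v`: the list `l` of oriented edges is an edge path from the vertex `u` to the
vertex `v`.  The oriented edge `(e, true)` runs along `e` from `face 0 false e` to
`face 0 true e`, and `(e, false)` runs backwards. -/
def IsPath : K.cell 0 → List (K.cell 1 × Bool) → K.cell 0 → Prop
  | u, [], v => u = v
  | u, o :: l, v => K.face 0 (!o.2) o.1 = u ∧ IsPath (K.face 0 o.2 o.1) l v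

/-- The elementary moves between edge paths: deleting an edge followed by its reverse, and
pushing two consecutive sides of a square across the square. -/
inductive Move : List (K.cell 1 × Bool) → List (K.cell 1 × Bool) → Prop
  | cancel (l₁ l₂ : List (K.cell 1 × Bool)) (e : K.cell 1) (b : Bool) :
      Move (l₁ ++ (e, b) :: (e, !b) :: l₂) (l₁ ++ l₂)
  | square (l₁ l₂ : List (K.cell 1 × Bool)) (s : K.cell 2) :
      Move (l₁ ++ (K.face 1 false s, true) :: (K.face 0 true s, true) :: l₂)
        (l₁ ++ (K.face 0 false s, true) :: (K.face 1 true s, true) :: l₂)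

/-- Two edge paths from `u` to `v` are homotopic if they are joined by a sequence of elementary
moves and their inverses through edge paths from `u` to `v`. -/
def Homotopic (u v : K.cell 0) (l l' : List (K.cell 1 × Bool)) : Prop :=
  Relation.EqvGen (fun p q => K.IsPath u p v ∧ K.IsPath u q v ∧ K.Move p q) l l'

/-- A cube complex is simply connected if it is nonempty, any two vertices are joined by an edge
path, and every closed edge path is homotopic to the constant one. -/
def SimplyConnected : Prop :=
  Nonempty (K.cell 0) ∧ (∀ u v : K.cell 0, ∃ l, K.IsPath u l v) ∧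
    ∀ (u : K.cell 0) (l : List (K.cell 1 × Bool)), K.IsPath u l u → K.Homotopic u u l []

end CubeComplex

/-- A finite dimensional cube complex with a free action of the group `G` by automorphisms, with
finitely many orbits of cubes.  If it is simply connected, then its quotient `X` by `G` is a
connected finite CW complex with universal cover the given complex and `π₁(X) = G`. -/
structure FreeCubeComplex (G : Type) [Group G] extends CubeComplex where
  /-- the action on `n`-cubes -/
  [act : ∀ n : ℕ, MulAction G (cell n)]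
  /-- the action is compatible with faces -/
  face_smul : ∀ {n : ℕ} (i : Fin (n + 1)) (b : Bool) (g : G) (c : cell (n + 1)),
    face i b (g • c) = g • face i b c
  /-- the action is free -/
  free : ∀ {n : ℕ} (g : G) (c : cell n), g • c = c → g = 1
  /-- there are finitely many orbits of `n`-cubes -/
  finite_orbits : ∀ n : ℕ, Finite (MulAction.orbitRel.Quotient G (cell n))
  /-- the complex is finite dimensional -/
  finite_dim : ∃ d : ℕ, ∀ n : ℕ, d < n → IsEmpty (cell n)

namespace FreeCubeComplex

variable {G : Type} [Group G] (Y : FreeCubeComplex G)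

instance (n : ℕ) : MulAction G (Y.cell n) := Y.act n

/-- The quotient complex of `Y` by a subgroup `N` of `G`. -/
def quotient (N : Subgroup G) : CubeComplex where
  cell n := MulAction.orbitRel.Quotient N (Y.cell n)
  face {n} i b := Quotient.map' (Y.face i b) (by
    rintro c c' ⟨g, hg⟩
    refine ⟨g, ?_⟩
    have hg' : (g : G) • c' = c := hg
    show (g : G) • Y.face i b c' = Y.face i b c
    rw [← Y.face_smul, hg'])
  face_face i j a b c hij := by
    induction c using Quotient.inductionOn' with
    | h c => exact congrArg (Quotient.mk'' (s₁ := MulAction.orbitRel N _)) (Y.face_face i j a b c hij)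

end FreeCubeComplex

section hilbert

variable {H K L : Type} [NormedAddCommGroup H] [InnerProductSpace ℂ H] [CompleteSpace H]
  [NormedAddCommGroup K] [InnerProductSpace ℂ K] [CompleteSpace K]
  [NormedAddCommGroup L] [InnerProductSpace ℂ L] [CompleteSpace L]

/-- The operator `T* T`. -/
noncomputable def starMul (T : H →L[ℂ] K) : H →L[ℂ] H := T.adjoint ∘L T

/-- The operator `T T*`. -/
noncomputable def mulStar (T : H →L[ℂ] K) : K →L[ℂ] K := T ∘L T.adjoint

/-- The operator `T* T + S S*`. -/
noncomputable def starMulAddMulStar (S : H →L[ℂ] K) (T : K →L[ℂ] L) : K →L[ℂ] K :=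
  starMul T + mulStar S

/-- The real part of `⟨v, T v⟩`. -/
noncomputable def quadForm (T : H →L[ℂ] H) (v : H) : ℝ := (inner ℂ v (T v)).re

/-- The operator `ln (T + ε)` (continuous functional calculus) for a self-adjoint `T`. -/
noncomputable def logOp (T : H →L[ℂ] H) (ε : ℝ) : H →L[ℂ] H :=
  cfc (fun x : ℝ => Real.log (x + ε)) T

/-- The orthogonal projection onto the kernel of `T`. -/
noncomputable def kerProj (T : H →L[ℂ] H) : H →L[ℂ] H :=
  (LinearMap.ker T.toLinearMap).starProjection

end hilbert

/-- The Hilbert space of square summable complex valued functions on `α`. -/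
abbrev Ell2 (α : Type) : Type := lp (fun _ : α => ℂ) 2

/-- The bounded operators from `Ell2 α` to `Ell2 β`. -/
abbrev BOp (α β : Type) : Type := Ell2 α →L[ℂ] Ell2 β

/-- The unit vector of `Ell2 α` supported at `a`. -/
noncomputable def unitVec {α : Type} (a : α) : Ell2 α := by
  classical exact lp.single 2 a (1 : ℂ)

section ell2

variable {α β γ : Type}

instance completeSpace_ell2 (α : Type) : CompleteSpace (Ell2 α) := inferInstance

/-- The Laplacian `T* T` in degree zero, if `T` is the coboundary operator. -/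
noncomputable def lapZero (T : BOp α β) : BOp α α := starMul T

/-- The Laplacian `T* T + S S*` in positive degrees, if `S` and `T` are consecutive coboundary
operators. -/
noncomputable def lapSucc (S : BOp α β) (T : BOp β γ) : BOp β β := starMulAddMulStar S T

/-- The real part of the diagonal matrix entry `⟨δ_a, T δ_a⟩` of `T`. -/
noncomputable def diagEntry (T : BOp α α) (a : α) : ℝ := quadForm T (unitVec a)

/-- The operator `ln (T + ε)`. -/
noncomputable def ellLog (T : BOp α α) (ε : ℝ) : BOp α α := logOp T ε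

/-- The orthogonal projection onto the kernel of `T`. -/
noncomputable def ellKer (T : BOp α α) : BOp α α := kerProj T

/-- `T` is the restriction of `F` to the square summable functions. -/
def IsGivenBy (T : BOp α β) (F : (α → ℂ) → β → ℂ) : Prop :=
  ∀ (ξ : Ell2 α) (b : β), T ξ b = F ξ b

end ell2

theorem pullback_key {α β : Type} (φ : β → α) (M : ℕ)
    (hφ : ∀ (a : α) (s : Finset β), (∀ b ∈ s, φ b = a) → s.card ≤ M) (ξ : Ell2 α)
    (s : Finset β) :
    ∑ b ∈ s, ‖ξ (φ b)‖ ^ (2 : ENNReal).toReal ≤ (Real.sqrt M * ‖ξ‖) ^ (2 : ENNReal).toReal := by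
  classical
  rw [Finset.sum_comp (fun a => ‖ξ a‖ ^ (2 : ENNReal).toReal) φ]
  calc ∑ a ∈ s.image φ, (s.filter (fun b => φ b = a)).card • ‖ξ a‖ ^ (2 : ENNReal).toReal
      ≤ ∑ a ∈ s.image φ, (M : ℝ) * ‖ξ a‖ ^ (2 : ENNReal).toReal := by
        refine Finset.sum_le_sum fun a _ => ?_
        rw [nsmul_eq_mul]
        refine mul_le_mul_of_nonneg_right ?_ (by positivity)
        exact_mod_cast hφ a _ (fun b hb => (Finset.mem_filter.mp hb).2)
    _ = (M : ℝ) * ∑ a ∈ s.image φ, ‖ξ a‖ ^ (2 : ENNReal).toReal := by rw [Finset.mul_sum]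
    _ ≤ (M : ℝ) * ‖ξ‖ ^ (2 : ENNReal).toReal :=
        mul_le_mul_of_nonneg_left (lp.sum_rpow_le_norm_rpow (by norm_num) ξ _) (by positivity)
    _ = (Real.sqrt M * ‖ξ‖) ^ (2 : ENNReal).toReal := by
        rw [Real.mul_rpow (Real.sqrt_nonneg _) (norm_nonneg _)]
        norm_num

/-- Composition with a map `φ : β → α` whose fibres have at most `M` elements is a bounded
operator `Ell2 α → Ell2 β`, `ξ ↦ ξ ∘ φ`. -/
theorem exists_pullback {α β : Type} (φ : β → α) (M : ℕ)
    (hφ : ∀ (a : α) (s : Finset β), (∀ b ∈ s, φ b = a) → s.card ≤ M) :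
    ∃ T : BOp α β, ∀ (ξ : Ell2 α) (b : β), T ξ b = ξ (φ b) :=
  ⟨LinearMap.mkContinuous
    { toFun := fun ξ => ⟨fun b => ξ (φ b), memℓp_gen' (pullback_key φ M hφ ξ)⟩
      map_add' := fun _ _ => rfl
      map_smul' := fun _ _ => rfl }
    (Real.sqrt M)
    (fun ξ => lp.norm_le_of_forall_sum_le (by norm_num) (by positivity)
      (pullback_key φ M hφ ξ)), fun _ _ => rfl⟩

namespace FreeCubeComplex

variable {G : Type} [Group G] (Y : FreeCubeComplex G)

/-- As the action is free with finitely many orbits, an `n`-cube is the face of a bounded number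
of `(n+1)`-cubes. -/
theorem card_le_of_face_eq {n : ℕ} (i : Fin (n + 1)) (b : Bool) (a : Y.cell n)
    (s : Finset (Y.cell (n + 1))) (hs : ∀ c ∈ s, Y.face i b c = a) :
    s.card ≤ Nat.card (MulAction.orbitRel.Quotient G (Y.cell (n + 1))) := by
  have := Y.finite_orbits (n + 1)
  have h1 : Nat.card s = s.card := by simp
  rw [← h1]
  refine Nat.card_le_card_of_injective
    (fun c : s => (Quotient.mk'' (c : Y.cell (n + 1)) :
      MulAction.orbitRel.Quotient G (Y.cell (n + 1)))) ?_
  rintro ⟨c, hc⟩ ⟨c', hc'⟩ h
  obtain ⟨g, hg⟩ : c ∈ MulAction.orbit G c' := Quotient.exact' h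
  have hg' : g • c' = c := hg
  have h2 : g • Y.face i b c' = Y.face i b c' := by
    rw [← Y.face_smul, hg', hs c hc, hs c' hc']
  have h3 := Y.free g _ h2
  subst h3
  simpa using hg'.symm

/-- The coboundary of a function on the `n`-cubes,
`(d ξ)(c) = ∑ i, (-1)^i (ξ (face i true c) - ξ (face i false c))`. -/
noncomputable def cobFun (n : ℕ) (ξ : Y.cell n → ℂ) (c : Y.cell (n + 1)) : ℂ :=
  ∑ i : Fin (n + 1), (-1 : ℂ) ^ (i : ℕ) * (ξ (Y.face i true c) - ξ (Y.face i false c))

/-- The coboundary is a bounded operator `Ell2 (n-cubes) → Ell2 ((n+1)-cubes)`. -/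
theorem exists_coboundary (n : ℕ) :
    ∃ d : BOp (Y.cell n) (Y.cell (n + 1)), IsGivenBy d (Y.cobFun n) := by
  have h : ∀ (i : Fin (n + 1)) (b : Bool), ∃ T : BOp (Y.cell n) (Y.cell (n + 1)),
      ∀ (ξ : Ell2 (Y.cell n)) (c : Y.cell (n + 1)), T ξ c = ξ (Y.face i b c) := fun i b =>
    exists_pullback (Y.face i b) _ (Y.card_le_of_face_eq i b)
  choose T hT using h
  refine ⟨∑ i : Fin (n + 1), (-1 : ℂ) ^ (i : ℕ) • (T i true - T i false), fun ξ c => ?_⟩
  have h : (((∑ i : Fin (n + 1), (-1 : ℂ) ^ (i : ℕ) • (T i true - T i false)) ξ :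
      Ell2 (Y.cell (n + 1))) : ∀ _ : Y.cell (n + 1), ℂ) =
      ∑ i : Fin (n + 1), fun c => (-1 : ℂ) ^ (i : ℕ) *
        (ξ (Y.face i true c) - ξ (Y.face i false c)) := by
    simp only [sum_apply, lp.coeFn_sum]
    refine Finset.sum_congr rfl fun i _ => funext fun c => ?_
    rw [← hT, ← hT]
    rfl
  rw [h, Finset.sum_apply, cobFun]

/-- The coboundary operator `Ell2 (n-cubes) → Ell2 ((n+1)-cubes)`, the bounded operator
`ξ ↦ d ξ`.  It is the Hilbert space adjoint of the cellular boundary operator of the l2-chain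
complex. -/
noncomputable def coboundary (n : ℕ) : BOp (Y.cell n) (Y.cell (n + 1)) :=
  (Y.exists_coboundary n).choose

theorem coboundary_apply (n : ℕ) (ξ : Ell2 (Y.cell n)) (c : Y.cell (n + 1)) :
    Y.coboundary n ξ c =
      ∑ i : Fin (n + 1), (-1 : ℂ) ^ (i : ℕ) * (ξ (Y.face i true c) - ξ (Y.face i false c)) :=
  (Y.exists_coboundary n).choose_spec ξ c

/-- The combinatorial Laplacian `Δ_n` on the Hilbert space `Ell2 (n-cubes)`. -/
noncomputable def laplacian : ∀ n : ℕ, BOp (Y.cell n) (Y.cell n)
  | 0 => lapZero (Y.coboundary 0)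
  | n + 1 => lapSucc (Y.coboundary n) (Y.coboundary (n + 1))

/-- The von Neumann trace of a `G`-equivariant bounded operator `T` on `Ell2 (n-cubes)`: the sum of
`⟨δ_c, T δ_c⟩` over representatives `c` of the `G`-orbits of `n`-cubes. -/
noncomputable def vnTrace (n : ℕ) (T : BOp (Y.cell n) (Y.cell n)) : ℝ :=
  ∑ᶠ o : MulAction.orbitRel.Quotient G (Y.cell n), diagEntry T (Quotient.out o)

/-- The `n`-th l2-Betti number: the von Neumann trace of the projection onto the kernel of the
Laplacian. -/
noncomputable def l2Betti (n : ℕ) : ℝ := Y.vnTrace n (ellKer (Y.laplacian n))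

/-- The logarithm of the Fuglede-Kadison determinant of the Laplacian `Δ_n`, an extended real
number: the infimum (equal to the limit as `ε → 0+`) of `tr ln (Δ_n + ε) - b_n ln ε`.  By monotone
convergence this is `∫_{0+}^∞ ln λ dF(λ)` for the spectral density function `F` of `Δ_n`. -/
noncomputable def logDet (n : ℕ) : EReal :=
  ⨅ ε : {ε : ℝ // 0 < ε},
    ((Y.vnTrace n (ellLog (Y.laplacian n) ε) - Y.l2Betti n * Real.log ε : ℝ) : EReal)

/-- `Y` is det-l2-acyclic: all l2-Betti numbers vanish, and all Fuglede-Kadison determinants of the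
Laplacians are positive. -/
def DetL2Acyclic : Prop := (∀ n : ℕ, Y.l2Betti n = 0) ∧ ∀ n : ℕ, ⊥ < Y.logDet n

/-- The l2-torsion `-1/2 ∑ n, (-1)^n n ln det Δ_n`. -/
noncomputable def l2Torsion : ℝ :=
  -(1 / 2) * ∑ᶠ n : ℕ, (-1 : ℝ) ^ n * n * (Y.logDet n).toReal

end FreeCubeComplex

/-- A finite index normal chain of `G`: a decreasing sequence of finite index normal subgroups,
starting with `G` and with trivial intersection. -/
def IsFiniteIndexNormalChain {G : Type} [Group G] (N : ℕ → Subgroup G) : Prop :=
  N 0 = ⊤ ∧ (∀ i, N (i + 1) ≤ N i) ∧ (∀ i, (N i).Normal) ∧ (∀ i, (N i).FiniteIndex) ∧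
    ⨅ i, N i = ⊥

/-- The assertion of Q1 for all finite connected cube complexes `X = Y / G` (where `Y` is the
universal cover of `X` and `G = π₁(X)`). -/
def TorsionGrowthEqualsL2Torsion : Prop :=
  ∀ (G : Type) [Group G] (Y : FreeCubeComplex G), Y.SimplyConnected → Y.DetL2Acyclic →
    ∀ N : ℕ → Subgroup G, IsFiniteIndexNormalChain N →
      Tendsto (fun i => (Y.quotient (N i)).torsionSum / ((N i).index : ℝ)) atTop (𝓝 Y.l2Torsion)

end Pool.Agent.Lib.MP_9a92d3_gt
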