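import Pool.Agent.Lib.MP_9a92d3_gt.TorSum

set_option autoImplicit false

/-!
# The Heisenberg group, its product with `ℤ`, and their finite quotients
-/

namespace Pool.Agent.Lib.MP_9a92d3_gt

/-- The Heisenberg type group of a ring homomorphism `π : A → B`: triples `(a, b, c)` with
`(a, b, c) (a', b', c') = (a + a', b + b', c + c' + π a b')`. -/
@[ext]
structure Hs {A B : Type} [CommRing A] [CommRing B] (π : A →+* B) where
  a : A
  b : B
  c : B

namespace Hs

variable {A B : Type} [CommRing A] [CommRing B] (π : A →+* B)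

instance : Mul (Hs π) := ⟨fun g h => ⟨g.a + h.a, g.b + h.b, g.c + h.c + π g.a * h.b⟩⟩
instance : One (Hs π) := ⟨⟨0, 0, 0⟩⟩
instance : Inv (Hs π) := ⟨fun g => ⟨-g.a, -g.b, -g.c + π g.a * g.b⟩⟩

variable {π}

@[simp] theorem mul_a (g h : Hs π) : (g * h).a = g.a + h.a := rfl
@[simp] theorem mul_b (g h : Hs π) : (g * h).b = g.b + h.b := rfl
@[simp] theorem mul_c (g h : Hs π) : (g * h).c = g.c + h.c + π g.a * h.b := rfl
@[simp] theorem one_a : (1 : Hs π).a = 0 := rfl
@[simp] theorem one_b : (1 : Hs π).b = 0 := rfl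
@[simp] theorem one_c : (1 : Hs π).c = 0 := rfl
@[simp] theorem inv_a (g : Hs π) : (g⁻¹).a = -g.a := rfl
@[simp] theorem inv_b (g : Hs π) : (g⁻¹).b = -g.b := rfl
@[simp] theorem inv_c (g : Hs π) : (g⁻¹).c = -g.c + π g.a * g.b := rfl

instance : Group (Hs π) :=
  Group.ofLeftAxioms
    (fun g h k => by
      ext <;> simp only [mul_a, mul_b, mul_c, map_add] <;> ring)
    (fun g => by
      ext <;> simp)
    (fun g => by
      ext <;> simp)

@[simp] theorem mul_a' (g h : Hs π) : (g * h).a = g.a + h.a := rfl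
@[simp] theorem mul_b' (g h : Hs π) : (g * h).b = g.b + h.b := rfl
@[simp] theorem mul_c' (g h : Hs π) : (g * h).c = g.c + h.c + π g.a * h.b := rfl
@[simp] theorem one_a' : (1 : Hs π).a = 0 := rfl
@[simp] theorem one_b' : (1 : Hs π).b = 0 := rfl
@[simp] theorem one_c' : (1 : Hs π).c = 0 := rfl

/-- the underlying set -/
def equivProd (π : A →+* B) : Hs π ≃ A × B × B where
  toFun g := (g.a, g.b, g.c)
  invFun t := ⟨t.1, t.2.1, t.2.2⟩
  left_inv _ := rfl
  right_inv _ := rfl

instance [Finite A] [Finite B] : Finite (Hs π) := Finite.of_equiv _ (equivProd π).symm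

theorem card_eq [Finite A] [Finite B] :
    Nat.card (Hs π) = Nat.card A * (Nat.card B * Nat.card B) := by
  rw [Nat.card_congr (equivProd π), Nat.card_prod, Nat.card_prod]

/-- The generators of the Heisenberg group. -/
def gens (π : A →+* B) : Gens4 (Hs π) where
  lab e := match e with
    | .x => ⟨1, 0, 0⟩
    | .w => ⟨1, 0, 1⟩
    | .v => ⟨1, 0, 2⟩
    | .y => ⟨0, 1, 0⟩
  h1 := by ext <;> simp
  h2 := by ext <;> simp; norm_num
  h3 := by ext <;> simp
  h4 := by ext <;> simp; norm_num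

/-- reduction of the integral Heisenberg group -/
def red (π : A →+* B) : Hs (RingHom.id ℤ) →* Hs π where
  toFun g := ⟨(g.a : A), (g.b : B), (g.c : B)⟩
  map_one' := by ext <;> simp
  map_mul' g h := by ext <;> simp

end Hs

/-- The group of the example, the product of the integral Heisenberg group and `ℤ`. -/
abbrev GG : Type := Hs (RingHom.id ℤ) × Multiplicative ℤ

/-- The generators of the group of the example. -/
def ggens : Gens GG :=
  (Hs.gens (RingHom.id ℤ)).ext (Multiplicative ℤ) (Multiplicative.ofAdd 1)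

/-- the reduction map -/
def redK {A B : Type} [CommRing A] [CommRing B] (π : A →+* B) (k : ℕ) : GG →* PK (Hs π) k :=
  (Hs.red π).prodMap (AddMonoidHom.toMultiplicative (Int.castAddHom (ZMod k)))

theorem redK_lab {A B : Type} [CommRing A] [CommRing B] (π : A →+* B) (k : ℕ) (e : Ed) :
    redK π k (ggens.lab e) = ((Hs.gens π).RK k).lab e := by
  cases e <;> refine Prod.ext ?_ ?_ <;> simp [redK, ggens, Gens4.RK, Gens4.ext, Hs.gens, Hs.red] <;>
    (ext <;> simp)

theorem redK_surjective {A B : Type} [CommRing A] [CommRing B] (π : A →+* B) (k : ℕ)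
    (hA : Function.Surjective (Int.cast : ℤ → A)) (hB : Function.Surjective (Int.cast : ℤ → B)) :
    Function.Surjective (redK π k) := by
  rintro ⟨⟨a, b, c⟩, t⟩
  obtain ⟨a, rfl⟩ := hA a
  obtain ⟨b, rfl⟩ := hB b
  obtain ⟨c, rfl⟩ := hB c
  obtain ⟨t', ht⟩ := ZMod.intCast_surjective (Multiplicative.toAdd t)
  refine ⟨(⟨a, b, c⟩, Multiplicative.ofAdd t'), ?_⟩
  refine Prod.ext rfl ?_
  show Multiplicative.ofAdd ((t' : ℤ) : ZMod k) = t
  rw [ht]
  rfl

/-- The reduction homomorphism `ZMod n → ZMod m`. -/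
abbrev pr (n m : ℕ) (h : m ∣ n) : ZMod n →+* ZMod m := ZMod.castHom h (ZMod m)

/-- The congruence subgroup: `a` divisible by `n`, `b` and `c` divisible by `m`, and the last
coordinate divisible by `k`. -/
def cong (n m k : ℕ) (h : m ∣ n) : Subgroup GG := (redK (pr n m h) k).ker

theorem mem_cong (n m k : ℕ) (h : m ∣ n) (g : GG) :
    g ∈ cong n m k h ↔ (n : ℤ) ∣ g.1.a ∧ (m : ℤ) ∣ g.1.b ∧ (m : ℤ) ∣ g.1.c ∧
      (k : ℤ) ∣ Multiplicative.toAdd g.2 := by
  rw [← ZMod.intCast_zmod_eq_zero_iff_dvd, ← ZMod.intCast_zmod_eq_zero_iff_dvd,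
    ← ZMod.intCast_zmod_eq_zero_iff_dvd, ← ZMod.intCast_zmod_eq_zero_iff_dvd]
  constructor
  · intro hg
    have h1 : redK (pr n m h) k g = 1 := hg
    have h2 := congrArg Prod.fst h1
    have h3 := congrArg Prod.snd h1
    exact ⟨congrArg Hs.a h2, congrArg Hs.b h2, congrArg Hs.c h2, h3⟩
  · rintro ⟨ha, hb, hc, hd⟩
    show redK (pr n m h) k g = 1
    refine Prod.ext ?_ ?_
    · exact Hs.ext ha hb hc
    · exact hd

instance (n m k : ℕ) (h : m ∣ n) : (cong n m k h).Normal := by
  unfold cong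
  infer_instance

theorem surj_pr (n m k : ℕ) (h : m ∣ n) : Function.Surjective (redK (pr n m h) k) :=
  redK_surjective _ _ ZMod.intCast_surjective ZMod.intCast_surjective

theorem index_cong (n m k : ℕ) (h : m ∣ n) [NeZero n] [NeZero m] [NeZero k] :
    (cong n m k h).index = n * (m * m) * k := by
  unfold cong
  rw [Subgroup.index_ker]
  have : (redK (pr n m h) k).range = ⊤ := MonoidHom.range_eq_top.mpr (surj_pr n m k h)
  rw [this, Nat.card_congr Subgroup.topEquiv.toEquiv, Nat.card_prod, Hs.card_eq, Nat.card_zmod,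
    Nat.card_zmod]
  congr 1
  exact Nat.card_zmod k

theorem torsionSum_cong (n m k : ℕ) (h : m ∣ n) [NeZero n] [NeZero m] [NeZero k]
    (hf : Finite (Gens4.Coker (((Hs.gens (pr n m h)).RK k).lab .x)
      (((Hs.gens (pr n m h)).RK k).lab .y))) :
    (ggens.cover.quotient (cong n m k h)).torsionSum =
      Real.log (Nat.card (Gens4.Coker (((Hs.gens (pr n m h)).RK k).lab .x)
        (((Hs.gens (pr n m h)).RK k).lab .y))) := by
  rw [← Gens4.torsionSum_eq _ _ hf]
  unfold CubeComplex.torsionSum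
  refine finsum_congr fun j => ?_
  have := torsionOrder_quotient ggens ((Hs.gens (pr n m h)).RK k) (redK (pr n m h) k)
    (surj_pr n m k h) (redK_lab _ k) j
  unfold cong
  rw [this]

end Pool.Agent.Lib.MP_9a92d3_gt
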