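import Pool.Agent.Lib.MP_9a92d3_gt.Defs

set_option autoImplicit false

/-!
# The example: a cube complex with one vertex, 5 edges, 13 squares and 9 cubes
-/

namespace Pool.Agent.Lib.MP_9a92d3_gt

/-- The shapes of the edges. -/
inductive Ed | x | w | v | y | t
  deriving DecidableEq, Fintype

/-- The shapes of the squares. -/
inductive Sq | s1 | s2 | s3 | s4 | tx | tw | tv | ty | al | ga | be | si | de
  deriving DecidableEq, Fintype

/-- The shapes of the cubes. -/
inductive Cb | c1 | c2 | c3 | c4 | k1 | k2 | k3 | k4 | k5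
  deriving DecidableEq, Fintype

/-- The shapes of the cells in dimension `n`. -/
def Sh : ℕ → Type
  | 0 => Unit
  | 1 => Ed
  | 2 => Sq
  | 3 => Cb
  | _ + 4 => Empty

/-- sides of a square: `(a, b, c, d)` stands for the relation `a b = c d` -/
def Sq.sides : Sq → Ed × Ed × Ed × Ed
  | .s1 => (.x, .y, .y, .w)
  | .s2 => (.w, .y, .y, .v)
  | .s3 => (.x, .w, .w, .x)
  | .s4 => (.x, .v, .w, .w)
  | .tx => (.x, .t, .t, .x)
  | .tw => (.w, .t, .t, .w)
  | .tv => (.v, .t, .t, .v)
  | .ty => (.y, .t, .t, .y)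
  | .al => (.x, .t, .t, .x)
  | .ga => (.w, .t, .t, .w)
  | .be => (.x, .t, .t, .x)
  | .si => (.x, .w, .w, .x)
  | .de => (.w, .t, .t, .w)

/-- the faces of a square -/
def Sq.face : Sq → Fin 2 → Bool → Ed
  | s, 0, false => s.sides.2.2.1
  | s, 0, true => s.sides.2.1
  | s, 1, false => s.sides.1
  | s, 1, true => s.sides.2.2.2

/-- the base square of a cube -/
def Cb.base : Cb → Sq
  | .c1 => .s1
  | .c2 => .s2
  | .c3 => .s3
  | .c4 => .s4
  | .k1 => .s1
  | .k2 => .s3
  | .k3 => .s3
  | .k4 => .s4
  | .k5 => .s3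

/-- the faces of a cube -/
def Cb.face : Cb → Fin 3 → Bool → Sq
  | .c1, 0, false => .ty
  | .c1, 0, true => .ty
  | .c1, 1, false => .tx
  | .c1, 1, true => .tw
  | .c1, 2, _ => .s1
  | .c2, 0, false => .ty
  | .c2, 0, true => .ty
  | .c2, 1, false => .tw
  | .c2, 1, true => .tv
  | .c2, 2, _ => .s2
  | .c3, 0, false => .tw
  | .c3, 0, true => .tw
  | .c3, 1, false => .tx
  | .c3, 1, true => .tx
  | .c3, 2, _ => .s3
  | .c4, 0, false => .tw
  | .c4, 0, true => .tv
  | .c4, 1, false => .tx
  | .c4, 1, true => .tw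
  | .c4, 2, _ => .s4
  | .k1, 0, false => .ty
  | .k1, 0, true => .ty
  | .k1, 1, false => .al
  | .k1, 1, true => .ga
  | .k1, 2, _ => .s1
  | .k2, 0, false => .ga
  | .k2, 0, true => .ga
  | .k2, 1, false => .be
  | .k2, 1, true => .tx
  | .k2, 2, _ => .s3
  | .k3, 0, false => .tw
  | .k3, 0, true => .tw
  | .k3, 1, false => .be
  | .k3, 1, true => .tx
  | .k3, 2, false => .si
  | .k3, 2, true => .s3
  | .k4, 0, false => .de
  | .k4, 0, true => .tv
  | .k4, 1, false => .be
  | .k4, 1, true => .tw
  | .k4, 2, _ => .s4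
  | .k5, 0, false => .de
  | .k5, 0, true => .tw
  | .k5, 1, false => .al
  | .k5, 1, true => .tx
  | .k5, 2, false => .si
  | .k5, 2, true => .s3

/-- the shapes of the faces -/
def shFace : ∀ {n : ℕ}, Fin (n + 1) → Bool → Sh (n + 1) → Sh n
  | 0, _, _, _ => ()
  | 1, i, b, s => Sq.face s i b
  | 2, i, b, c => Cb.face c i b
  | _ + 3, _, _, c => Empty.elim c

/-- Elements `x, w, v, y, t` of a group satisfying the relations of the example. -/
structure Gens (Q : Type) [Group Q] where
  lab : Ed → Q
  h1 : lab .x * lab .y = lab .y * lab .w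
  h2 : lab .w * lab .y = lab .y * lab .v
  h3 : lab .x * lab .w = lab .w * lab .x
  h4 : lab .x * lab .v = lab .w * lab .w
  ht : ∀ e, lab e * lab .t = lab .t * lab e

namespace Gens

variable {Q : Type} [Group Q] (R : Gens Q)

/-- The labels of the edges of a cell at its initial vertex. -/
def ini : ∀ {n : ℕ}, Sh (n + 1) → Fin (n + 1) → Q
  | 0, e, _ => R.lab e
  | 1, s, 0 => R.lab (Sq.sides s).1
  | 1, s, 1 => R.lab (Sq.sides s).2.2.1
  | 2, c, 0 => R.lab (Sq.sides (Cb.base c)).1
  | 2, c, 1 => R.lab (Sq.sides (Cb.base c)).2.2.1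
  | 2, _, 2 => R.lab .t
  | _ + 3, c, _ => Empty.elim c

/-- translation part of a face -/
def lift {n : ℕ} (i : Fin (n + 1)) (b : Bool) (c : Sh (n + 1)) : Q :=
  bif b then R.ini c i else 1

/-- The face of a cell. -/
def face {n : ℕ} (i : Fin (n + 1)) (b : Bool) (c : Q × Sh (n + 1)) : Q × Sh n :=
  (c.1 * R.lift i b c.2, shFace i b c.2)

theorem side_rel (s : Sq) :
    R.lab s.sides.1 * R.lab s.sides.2.1 = R.lab s.sides.2.2.1 * R.lab s.sides.2.2.2 := by
  cases s <;> simp only [Sq.sides] <;> first | exact R.h1 | exact R.h2 | exact R.h3 | exact R.h4 |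
    exact R.ht _

theorem face_face {n : ℕ} (i j : Fin (n + 1)) (a b : Bool) (c : Q × Sh (n + 2)) (hij : i ≤ j) :
    R.face i a (R.face j.succ b c) = R.face j b (R.face i.castSucc a c) := by
  obtain ⟨g, c⟩ := c
  match n with
  | 0 =>
    obtain rfl : i = 0 := Fin.eq_zero i
    obtain rfl : j = 0 := Fin.eq_zero j
    have h := R.side_rel c
    refine Prod.ext ?_ rfl
    cases a <;> cases b
    · rfl
    · change g * R.lab (Sq.sides c).2.2.1 * 1 = g * 1 * R.lab (Sq.sides c).2.2.1
      simp
    · change g * 1 * R.lab (Sq.sides c).1 = g * R.lab (Sq.sides c).1 * 1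
      simp
    · change g * R.lab (Sq.sides c).2.2.1 * R.lab (Sq.sides c).2.2.2 =
        g * R.lab (Sq.sides c).1 * R.lab (Sq.sides c).2.1
      rw [mul_assoc, mul_assoc, h]
  | 1 =>
    have h1 := R.h1
    have h2 := R.h2
    have h3 := R.h3
    have h4 := R.h4
    have hx := R.ht .x
    have hw := R.ht .w
    have hv := R.ht .v
    have hy := R.ht .y
    have e1 : (1 : Fin 2).castSucc = (1 : Fin 3) := rfl
    have e0 : (0 : Fin 2).castSucc = (0 : Fin 3) := rfl
    have s1 : (1 : Fin 2).succ = (2 : Fin 3) := rfl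
    have s0 : (0 : Fin 2).succ = (1 : Fin 3) := rfl
    have key : ∀ (i j : Fin 2) (a b : Bool) (c : Cb), i ≤ j →
        R.face (n := 1) i a (R.face (n := 2) j.succ b (g, c)) =
          R.face (n := 1) j b (R.face (n := 2) i.castSucc a (g, c)) := by
      intro i j a b c hij
      fin_cases i <;> fin_cases j
      · refine Prod.ext ?_ (by cases a <;> cases b <;> cases c <;> rfl)
        cases a <;> cases b <;> cases c <;>
          simp [face, lift, ini, shFace, Cb.face, Sq.sides, Cb.base, mul_assoc, h1, h2, h3, h4]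
      · refine Prod.ext ?_ (by cases a <;> cases b <;> cases c <;> rfl)
        cases a <;> cases b <;> cases c <;>
          simp [face, lift, ini, shFace, Cb.face, Sq.sides, Cb.base, mul_assoc, hx, hw, hv, hy]
      · exact absurd hij (by decide)
      · refine Prod.ext ?_ (by cases a <;> cases b <;> cases c <;> rfl)
        cases a <;> cases b <;> cases c <;>
          simp [face, lift, ini, shFace, Cb.face, Sq.sides, Cb.base, mul_assoc, hx, hw, hv, hy]
    exact key i j a b c hij
  | n + 2 => exact Empty.elim c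

/-- The cube complex. -/
def complex : CubeComplex where
  cell n := Q × Sh n
  face i b c := R.face i b c
  face_face i j a b c hij := R.face_face i j a b c hij

theorem face_mul {n : ℕ} (i : Fin (n + 1)) (b : Bool) (g : Q) (c : Q × Sh (n + 1)) :
    R.face i b (g * c.1, c.2) = (g * (R.face i b c).1, (R.face i b c).2) := by
  simp only [face, mul_assoc]

end Gens

instance (n : ℕ) : Finite (Sh n) :=
  match n with
  | 0 => inferInstanceAs (Finite Unit)
  | 1 => inferInstanceAs (Finite Ed)
  | 2 => inferInstanceAs (Finite Sq)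
  | 3 => inferInstanceAs (Finite Cb)
  | _ + 4 => inferInstanceAs (Finite Empty)

/-- The action of a group on the product with another set. -/
@[reducible] def prodAct (Q : Type) [Group Q] (S : Type) : MulAction Q (Q × S) where
  smul g c := (g * c.1, c.2)
  one_smul c := by
    show (1 * c.1, c.2) = c
    rw [one_mul]
  mul_smul g h c := by
    show (g * h * c.1, c.2) = (g * (h * c.1), c.2)
    rw [mul_assoc]

namespace Gens

variable {Q : Type} [Group Q] (R : Gens Q)

/-- The free action of `Q` on the complex by left translation. -/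
def cover : FreeCubeComplex Q where
  toCubeComplex := R.complex
  act n := prodAct Q (Sh n)
  face_smul i b g c := R.face_mul i b g c
  free g c h := by
    have h1 : g * c.1 = c.1 := congrArg Prod.fst h
    exact mul_eq_right.mp h1
  finite_orbits n := by
    letI := prodAct Q (Sh n)
    refine Finite.of_surjective (fun s : Sh n => (Quotient.mk'' ((1 : Q), s) :
      MulAction.orbitRel.Quotient Q (Q × Sh n))) ?_
    intro o
    induction o using Quotient.inductionOn' with
    | h c => exact ⟨c.2, Quotient.sound' ⟨c.1⁻¹, Prod.ext (inv_mul_cancel c.1) rfl⟩⟩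
  finite_dim := ⟨3, fun n hn => by
    obtain ⟨m, rfl⟩ : ∃ m, n = m + 4 := ⟨n - 4, by omega⟩
    exact inferInstanceAs (IsEmpty (Q × Empty))⟩

end Gens

end Pool.Agent.Lib.MP_9a92d3_gt
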