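import Pool.Agent.Lib.MP_9a92d3_gt.Chain
import Pool.Agent.Lib.MP_9a92d3_gt.Model

set_option autoImplicit false

/-!
# Quotients of the complex
-/

namespace Pool.Agent.Lib.MP_9a92d3_gt

/-- the chain complex of a cube complex -/
noncomputable def CubeComplex.cx (K : CubeComplex) : Cx where
  C n := K.cell n →₀ ℤ
  d n := K.bd n

theorem CubeComplex.tor_cx (K : CubeComplex) (n : ℕ) : K.cx.tor n = K.torsionOrder n := by
  cases n <;> rfl

theorem CubeComplex.bd_single (K : CubeComplex) (n : ℕ) (c : K.cell (n + 1)) :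
    K.bd n (Finsupp.single c 1) = ∑ i : Fin (n + 1), (-1 : ℤ) ^ (i : ℕ) •
      (Finsupp.single (K.face i true c) (1 : ℤ) - Finsupp.single (K.face i false c) (1 : ℤ)) := by
  simp [CubeComplex.bd]

theorem CubeComplex.torsionOrder_congr (K L : CubeComplex) (e : ∀ n, K.cell n ≃ L.cell n)
    (he : ∀ (n : ℕ) (i : Fin (n + 1)) (b : Bool) (c : K.cell (n + 1)),
      e n (K.face i b c) = L.face i b (e (n + 1) c)) (n : ℕ) :
    K.torsionOrder n = L.torsionOrder n := by
  rw [← tor_cx, ← tor_cx]
  refine Cx.tor_eq_of_equiv (Cx.equivOfIso (X := K.cx) (Y := L.cx)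
    (fun n => Finsupp.domLCongr (e n)) ?_ n)
  intro n
  have : (L.bd n).comp (Finsupp.domLCongr (R := ℤ) (M := ℤ) (e (n + 1))).toLinearMap =
      (Finsupp.domLCongr (R := ℤ) (M := ℤ) (e n)).toLinearMap.comp (K.bd n) := by
    refine Finsupp.lhom_ext' fun c => LinearMap.ext_ring ?_
    simp only [LinearMap.coe_comp, LinearEquiv.coe_coe, Function.comp_apply,
      Finsupp.lsingle_apply, Finsupp.domLCongr_single, bd_single, map_sum, map_zsmul, map_sub, he]
  exact fun x => LinearMap.congr_fun this x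

/-- The map from the orbit space to the cells of the complex over the quotient group. -/
noncomputable def quotCellEquiv {G Q : Type} [Group G] [Group Q] (R : Gens G) (φ : G →* Q)
    (hφ : Function.Surjective φ) (n : ℕ) :
    (R.cover.quotient φ.ker).cell n ≃ Q × Sh n := by
  refine Equiv.ofBijective (Quotient.lift (fun c : G × Sh n => (φ c.1, c.2)) ?_) ⟨?_, ?_⟩
  · rintro a b ⟨⟨g, hg⟩, h⟩
    have h' : (g * b.1, b.2) = a := h
    have h1 : g * b.1 = a.1 := by rw [← h']
    have h2 : b.2 = a.2 := by rw [← h']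
    have hg' : φ g = 1 := hg
    refine Prod.ext ?_ h2.symm
    show φ a.1 = φ b.1
    rw [← h1, map_mul, hg', one_mul]
  · intro a b
    induction a using Quotient.inductionOn' with
    | h a =>
    induction b using Quotient.inductionOn' with
    | h b =>
    intro h
    have h' : ((φ a.1, a.2) : Q × Sh n) = (φ b.1, b.2) := h
    have h1 : φ a.1 = φ b.1 := (Prod.ext_iff.mp h').1
    have h2 : a.2 = b.2 := (Prod.ext_iff.mp h').2
    refine Quotient.sound' ⟨⟨a.1 * b.1⁻¹, ?_⟩, ?_⟩
    · show φ (a.1 * b.1⁻¹) = 1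
      rw [map_mul, map_inv, h1, mul_inv_cancel]
    · refine Prod.ext ?_ h2.symm
      show a.1 * b.1⁻¹ * b.1 = a.1
      rw [inv_mul_cancel_right]
  · rintro ⟨q, s⟩
    obtain ⟨g, rfl⟩ := hφ q
    exact ⟨Quotient.mk'' (g, s), rfl⟩

theorem torsionOrder_quotient {G Q : Type} [Group G] [Group Q] (R : Gens G) (R' : Gens Q)
    (φ : G →* Q) (hφ : Function.Surjective φ) (hR : ∀ e, φ (R.lab e) = R'.lab e) (n : ℕ) :
    (R.cover.quotient φ.ker).torsionOrder n = R'.complex.torsionOrder n := by
  refine CubeComplex.torsionOrder_congr _ _ (quotCellEquiv R φ hφ) ?_ n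
  intro n i b c
  induction c using Quotient.inductionOn' with
  | h c =>
  show (φ (c.1 * R.lift i b c.2), shFace i b c.2) = (φ c.1 * R'.lift i b c.2, shFace i b c.2)
  rw [map_mul]
  have : φ (R.lift i b c.2) = R'.lift i b c.2 := by
    unfold Gens.lift
    cases b
    · simp
    · simp only [cond_true]
      obtain ⟨g, c⟩ := c
      match n, i, c with
      | 0, _, e => exact hR e
      | 1, 0, s => exact hR _
      | 1, 1, s => exact hR _
      | 2, 0, c => exact hR _
      | 2, 1, c => exact hR _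
      | 2, 2, c => exact hR _
      | n + 3, _, c => exact Empty.elim c
  rw [this]

end Pool.Agent.Lib.MP_9a92d3_gt
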