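import Pool.Agent.Lib.MP_9a92d3_gt.Circle
import Pool.Agent.Lib.MP_9a92d3_gt.Quot

set_option autoImplicit false

/-!
# The homology of the complex over `P × ℤ/k`
-/

namespace Pool.Agent.Lib.MP_9a92d3_gt

/-- edges of the two-dimensional complex -/
inductive Ed4 | x | w | v | y
  deriving DecidableEq, Fintype

/-- squares of the two-dimensional complex -/
inductive Sq4 | s1 | s2 | s3 | s4
  deriving DecidableEq, Fintype

def Ed4.toEd : Ed4 → Ed
  | .x => .x
  | .w => .w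
  | .v => .v
  | .y => .y

/-- the square `e × t` -/
def Ed4.toSq : Ed4 → Sq
  | .x => .tx
  | .w => .tw
  | .v => .tv
  | .y => .ty

def Sq4.toSq : Sq4 → Sq
  | .s1 => .s1
  | .s2 => .s2
  | .s3 => .s3
  | .s4 => .s4

/-- the cube `s × t` -/
def Sq4.toCb : Sq4 → Cb
  | .s1 => .c1
  | .s2 => .c2
  | .s3 => .c3
  | .s4 => .c4

def Sq4.sides : Sq4 → Ed4 × Ed4 × Ed4 × Ed4
  | .s1 => (.x, .y, .y, .w)
  | .s2 => (.w, .y, .y, .v)
  | .s3 => (.x, .w, .w, .x)
  | .s4 => (.x, .v, .w, .w)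

/-- Elements `x, w, v, y` satisfying the relations of the two-dimensional complex. -/
structure Gens4 (P : Type) [Group P] where
  lab : Ed4 → P
  h1 : lab .x * lab .y = lab .y * lab .w
  h2 : lab .w * lab .y = lab .y * lab .v
  h3 : lab .x * lab .w = lab .w * lab .x
  h4 : lab .x * lab .v = lab .w * lab .w

/-- Adding a central generator. -/
def Gens4.ext {P : Type} [Group P] (R : Gens4 P) (C : Type) [CommGroup C] (c : C) :
    Gens (P × C) where
  lab e := match e with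
    | .x => (R.lab .x, 1)
    | .w => (R.lab .w, 1)
    | .v => (R.lab .v, 1)
    | .y => (R.lab .y, 1)
    | .t => (1, c)
  h1 := by simp [R.h1]
  h2 := by simp [R.h2]
  h3 := by simp [R.h3]
  h4 := by simp [R.h4]
  ht e := by cases e <;> simp

/-- free abelian group on `α` -/
abbrev Z (α : Type) : Type := α →₀ ℤ

/-- basis element -/
noncomputable abbrev bas {α : Type} (a : α) : Z α := Finsupp.single a 1

/-- linear map given by the images of the basis elements -/
noncomputable def lin {α M : Type} [AddCommGroup M] (f : α → M) : Z α →ₗ[ℤ] M :=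
  Finsupp.linearCombination ℤ f

@[simp] theorem lin_bas {α M : Type} [AddCommGroup M] (f : α → M) (a : α) :
    lin f (bas a) = f a := by
  simp [lin, bas]

theorem lin_ext {α M : Type} [AddCommGroup M] {f g : Z α →ₗ[ℤ] M} (h : ∀ a, f (bas a) = g (bas a)) :
    f = g :=
  Finsupp.lhom_ext' fun a => LinearMap.ext_ring (h a)

namespace Gens4

variable {P : Type} [Group P] (R : Gens4 P)

noncomputable def d0 : Z (P × Ed4) →ₗ[ℤ] Z P :=
  lin fun c => bas (c.1 * R.lab c.2) - bas c.1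

noncomputable def d1 : Z (P × Sq4) →ₗ[ℤ] Z (P × Ed4) :=
  lin fun c => bas (c.1, c.2.sides.1) + bas (c.1 * R.lab c.2.sides.1, c.2.sides.2.1) -
    bas (c.1, c.2.sides.2.2.1) - bas (c.1 * R.lab c.2.sides.2.2.1, c.2.sides.2.2.2)

/-- the groups of the chain complex of the two-dimensional complex -/
def DC (P : Type) : ℕ → Type
  | 0 => Z P
  | 1 => Z (P × Ed4)
  | 2 => Z (P × Sq4)
  | _ + 3 => PUnit

noncomputable instance (P : Type) (n : ℕ) : AddCommGroup (DC P n) :=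
  match n with
  | 0 => inferInstanceAs (AddCommGroup (Z P))
  | 1 => inferInstanceAs (AddCommGroup (Z (P × Ed4)))
  | 2 => inferInstanceAs (AddCommGroup (Z (P × Sq4)))
  | _ + 3 => inferInstanceAs (AddCommGroup PUnit)

/-- the chain complex of the two-dimensional complex -/
noncomputable def D : Cx where
  C n := DC P n
  d n := match n with
    | 0 => R.d0
    | 1 => R.d1
    | 2 => (0 : PUnit →ₗ[ℤ] Z (P × Sq4))
    | _ + 3 => (0 : PUnit →ₗ[ℤ] PUnit)

end Gens4

/-- The underlying groups of the two-term complex. -/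
def EC (Q : Type) : ℕ → Type
  | 0 => PUnit
  | 1 => PUnit
  | 2 => Z Q
  | 3 => Z Q
  | _ + 4 => PUnit

noncomputable instance (Q : Type) (n : ℕ) : AddCommGroup (EC Q n) :=
  match n with
  | 0 => inferInstanceAs (AddCommGroup PUnit)
  | 1 => inferInstanceAs (AddCommGroup PUnit)
  | 2 => inferInstanceAs (AddCommGroup (Z Q))
  | 3 => inferInstanceAs (AddCommGroup (Z Q))
  | _ + 4 => inferInstanceAs (AddCommGroup PUnit)

/-- Right multiplication by `y - 2 + 2 x` on `ℤ[Q]`. -/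
noncomputable def fmap {Q : Type} [Group Q] (x y : Q) : Z Q →ₗ[ℤ] Z Q :=
  lin fun q => bas (q * y) - (2 : ℤ) • bas q + (2 : ℤ) • bas (q * x)

/-- The two-term complex in degrees `3` and `2`. -/
noncomputable def E {Q : Type} [Group Q] (x y : Q) : Cx where
  C n := EC Q n
  d n := match n with
    | 0 => (0 : PUnit →ₗ[ℤ] PUnit)
    | 1 => (0 : Z Q →ₗ[ℤ] PUnit)
    | 2 => fmap x y
    | 3 => (0 : PUnit →ₗ[ℤ] Z Q)
    | _ + 4 => (0 : PUnit →ₗ[ℤ] PUnit)

open Circle

variable {P : Type} [Group P] (R : Gens4 P) (k : ℕ) [NeZero k]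

/-- the quotient group -/
abbrev PK (P : Type) (k : ℕ) : Type := P × Multiplicative (ZMod k)

/-- the generators over `P × ℤ/k` -/
def Gens4.RK (R : Gens4 P) (k : ℕ) : Gens (PK P k) :=
  R.ext (Multiplicative (ZMod k)) (Multiplicative.ofAdd 1)

/-- `δ_j ⊗ b` -/
noncomputable abbrev dl {k : ℕ} {α : Type} (j : Multiplicative (ZMod k)) (b : α) :
    ZMod k → Z α := Pi.single (Multiplicative.toAdd j) (bas b)

namespace Gens4

/-- degree 0 -/
noncomputable def phi0 : Z (PK P k × Unit) →ₗ[ℤ] (ZMod k → Z P) := lin fun c => dl c.1.2 c.1.1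

noncomputable def phi1 : Z (PK P k × Ed) →ₗ[ℤ] (ZMod k → Z (P × Ed4)) × (ZMod k → Z P) :=
  lin fun c => match c.2 with
    | .x => (dl c.1.2 (c.1.1, .x), 0)
    | .w => (dl c.1.2 (c.1.1, .w), 0)
    | .v => (dl c.1.2 (c.1.1, .v), 0)
    | .y => (dl c.1.2 (c.1.1, .y), 0)
    | .t => (0, dl c.1.2 c.1.1)

noncomputable def phi2 : Z (PK P k × Sq) →ₗ[ℤ]
    ((ZMod k → Z (P × Sq4)) × (ZMod k → Z (P × Ed4))) × Z (PK P k) :=
  lin fun c => match c.2 with
    | .s1 => ((dl c.1.2 (c.1.1, .s1), 0), 0)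
    | .s2 => ((dl c.1.2 (c.1.1, .s2), 0), 0)
    | .s3 => ((dl c.1.2 (c.1.1, .s3), 0), 0)
    | .s4 => ((dl c.1.2 (c.1.1, .s4), 0), 0)
    | .tx => ((0, dl c.1.2 (c.1.1, .x)), 0)
    | .tw => ((0, dl c.1.2 (c.1.1, .w)), 0)
    | .tv => ((0, dl c.1.2 (c.1.1, .v)), 0)
    | .ty => ((0, dl c.1.2 (c.1.1, .y)), 0)
    | .al => ((0, dl c.1.2 (c.1.1, .x)), bas (c.1 * (R.RK k).lab .y))
    | .ga => ((0, dl c.1.2 (c.1.1, .w)), bas c.1)
    | .be => ((0, dl c.1.2 (c.1.1, .x)), bas c.1 - bas (c.1 * (R.RK k).lab .x))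
    | .si => ((dl c.1.2 (c.1.1, .s3), 0), bas c.1 - bas (c.1 * (R.RK k).lab .x))
    | .de => ((0, dl c.1.2 (c.1.1, .w)), bas c.1 - bas (c.1 * (R.RK k).lab .x))

noncomputable def phi3 : Z (PK P k × Cb) →ₗ[ℤ]
    ((ZMod k → PUnit) × (ZMod k → Z (P × Sq4))) × Z (PK P k) :=
  lin fun c => match c.2 with
    | .c1 => ((0, dl c.1.2 (c.1.1, .s1)), 0)
    | .c2 => ((0, dl c.1.2 (c.1.1, .s2)), 0)
    | .c3 => ((0, dl c.1.2 (c.1.1, .s3)), 0)
    | .c4 => ((0, dl c.1.2 (c.1.1, .s4)), 0)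
    | .k1 => ((0, dl c.1.2 (c.1.1, .s1)), 0)
    | .k2 => ((0, dl c.1.2 (c.1.1, .s3)), 0)
    | .k3 => ((0, dl c.1.2 (c.1.1, .s3)), 0)
    | .k4 => ((0, dl c.1.2 (c.1.1, .s4)), 0)
    | .k5 => ((0, dl c.1.2 (c.1.1, .s3)), bas c.1)

/-- the boundary maps of the complex, explicitly -/
noncomputable def b0 {Q : Type} [Group Q] (R : Gens Q) : Z (Q × Ed) →ₗ[ℤ] Z (Q × Unit) :=
  R.complex.bd 0

noncomputable def b1 {Q : Type} [Group Q] (R : Gens Q) : Z (Q × Sq) →ₗ[ℤ] Z (Q × Ed) :=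
  R.complex.bd 1

noncomputable def b2 {Q : Type} [Group Q] (R : Gens Q) : Z (Q × Cb) →ₗ[ℤ] Z (Q × Sq) :=
  R.complex.bd 2

theorem b0_bas {Q : Type} [Group Q] (R : Gens Q) (q : Q) (e : Ed) :
    b0 R (bas (q, e)) = bas (q * R.lab e, ()) - bas (q, ()) := by
  refine (CubeComplex.bd_single R.complex 0 (q, e)).trans ?_
  rw [Fin.sum_univ_one]
  show (-1 : ℤ) ^ 0 • (bas (q * R.lab e, ()) - bas (q * 1, ())) = _
  rw [pow_zero, one_smul, mul_one]

theorem b1_bas {Q : Type} [Group Q] (R : Gens Q) (q : Q) (s : Sq) :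
    b1 R (bas (q, s)) = (bas (q * R.lab s.sides.1, s.sides.2.1) - bas (q, s.sides.2.2.1)) -
      (bas (q * R.lab s.sides.2.2.1, s.sides.2.2.2) - bas (q, s.sides.1)) := by
  refine (CubeComplex.bd_single R.complex 1 (q, s)).trans ?_
  rw [Fin.sum_univ_two]
  show (-1 : ℤ) ^ 0 • (bas (q * R.lab s.sides.1, s.sides.2.1) - bas (q * 1, s.sides.2.2.1)) +
    (-1 : ℤ) ^ 1 • (bas (q * R.lab s.sides.2.2.1, s.sides.2.2.2) - bas (q * 1, s.sides.1)) = _
  rw [pow_zero, one_smul, mul_one, pow_one, neg_one_smul, sub_eq_add_neg (_ - _)]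

theorem b2_bas {Q : Type} [Group Q] (R : Gens Q) (q : Q) (c : Cb) :
    b2 R (bas (q, c)) = (bas (q * R.lab c.base.sides.1, c.face 0 true) - bas (q, c.face 0 false)) -
      (bas (q * R.lab c.base.sides.2.2.1, c.face 1 true) - bas (q, c.face 1 false)) +
      (bas (q * R.lab .t, c.face 2 true) - bas (q, c.face 2 false)) := by
  refine (CubeComplex.bd_single R.complex 2 (q, c)).trans ?_
  rw [Fin.sum_univ_three]
  show (-1 : ℤ) ^ 0 • (bas (q * R.lab c.base.sides.1, c.face 0 true) -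
      bas (q * 1, c.face 0 false)) +
    (-1 : ℤ) ^ 1 • (bas (q * R.lab c.base.sides.2.2.1, c.face 1 true) -
      bas (q * 1, c.face 1 false)) +
    (-1 : ℤ) ^ 2 • (bas (q * R.lab .t, c.face 2 true) - bas (q * 1, c.face 2 false)) = _
  rw [pow_zero, one_smul, mul_one, pow_one, neg_one_smul, sub_eq_add_neg (_ - _)]
  norm_num

theorem ptw_single {M N : Type} [AddCommGroup M] [AddCommGroup N] (f : M →ₗ[ℤ] N) (j : ZMod k)
    (m : M) : ptw k f (Pi.single j m) = Pi.single j (f m) := by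
  ext l
  show f ((Pi.single j m : ZMod k → M) l) = _
  by_cases h : l = j
  · subst h; simp
  · rw [Pi.single_eq_of_ne h, Pi.single_eq_of_ne h, map_zero]

theorem tau_single {M : Type} [AddCommGroup M] (j : ZMod k) (m : M) :
    tau M k (Pi.single j m) = Pi.single (j + 1) m - Pi.single j m := by
  ext l
  show (Pi.single j m : ZMod k → M) (l - 1) - (Pi.single j m : ZMod k → M) l = _
  rw [Pi.sub_apply]
  congr 1
  by_cases h : l = j + 1
  · subst h; simp
  · rw [Pi.single_eq_of_ne h, Pi.single_eq_of_ne]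
    intro h'
    exact h (by rw [← h']; ring)

noncomputable def t0 : (ZMod k → Z (P × Ed4)) × (ZMod k → Z P) →ₗ[ℤ] (ZMod k → Z P) :=
  (circ R.D k).d 0

noncomputable def t1 : (ZMod k → Z (P × Sq4)) × (ZMod k → Z (P × Ed4)) →ₗ[ℤ]
    (ZMod k → Z (P × Ed4)) × (ZMod k → Z P) :=
  (circ R.D k).d 1

noncomputable def t2 : (ZMod k → PUnit) × (ZMod k → Z (P × Sq4)) →ₗ[ℤ]
    (ZMod k → Z (P × Sq4)) × (ZMod k → Z (P × Ed4)) :=
  (circ R.D k).d 2

theorem t0_apply (u v) : R.t0 k (u, v) = ptw k R.d0 u + tau (Z P) k v := rfl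

theorem t1_apply (u v) : R.t1 k (u, v) =
    (ptw k R.d1 u - tau (Z (P × Ed4)) k v, ptw k R.d0 v) := by
  refine Prod.ext ?_ rfl
  show ptw k R.d1 u + (-1 : ℤ) ^ 1 • tau (Z (P × Ed4)) k v = _
  rw [pow_one, neg_one_smul, sub_eq_add_neg]

theorem t2_apply (u v) : R.t2 k (u, v) = (tau (Z (P × Sq4)) k v, ptw k R.d1 v) := by
  refine Prod.ext ?_ rfl
  show ptw k (0 : PUnit →ₗ[ℤ] Z (P × Sq4)) u + (-1 : ℤ) ^ 2 • tau (Z (P × Sq4)) k v = _
  rw [neg_one_sq, one_smul]
  have : ptw k (0 : PUnit →ₗ[ℤ] Z (P × Sq4)) u = 0 := rfl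
  rw [this, zero_add]

theorem d0_bas (p : P) (e : Ed4) : R.d0 (bas (p, e)) = bas (p * R.lab e) - bas p := by
  unfold d0
  rw [lin_bas]

theorem d1_bas (p : P) (s : Sq4) : R.d1 (bas (p, s)) =
    bas (p, s.sides.1) + bas (p * R.lab s.sides.1, s.sides.2.1) -
      bas (p, s.sides.2.2.1) - bas (p * R.lab s.sides.2.2.1, s.sides.2.2.2) := by
  unfold d1
  rw [lin_bas]

@[simp] theorem RK_x : (R.RK k).lab .x = (R.lab .x, 1) := rfl
@[simp] theorem RK_w : (R.RK k).lab .w = (R.lab .w, 1) := rfl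
@[simp] theorem RK_v : (R.RK k).lab .v = (R.lab .v, 1) := rfl
@[simp] theorem RK_y : (R.RK k).lab .y = (R.lab .y, 1) := rfl
@[simp] theorem RK_t : (R.RK k).lab .t = (1, Multiplicative.ofAdd 1) := rfl

theorem comm0 (x : Z (PK P k × Ed)) : R.t0 k (phi1 k x) = phi0 k (b0 (R.RK k) x) := by
  have : (R.t0 k).comp (phi1 k) = (phi0 k).comp (b0 (R.RK k)) := by
    refine lin_ext ?_
    rintro ⟨⟨p, j⟩, e⟩
    rw [LinearMap.comp_apply, LinearMap.comp_apply, b0_bas]
    cases e <;>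
      simp [phi1, phi0, dl, t0_apply, ptw_single, tau_single, d0_bas, Pi.single_sub]
  exact LinearMap.congr_fun this x

theorem comm1 (x : Z (PK P k × Sq)) : R.t1 k (R.phi2 k x).1 = phi1 k (b1 (R.RK k) x) := by
  have : ((R.t1 k).comp (LinearMap.fst ℤ _ _)).comp (R.phi2 k) =
      (phi1 k).comp (b1 (R.RK k)) := by
    refine lin_ext ?_
    rintro ⟨⟨p, j⟩, e⟩
    rw [LinearMap.comp_apply, LinearMap.comp_apply, LinearMap.comp_apply, b1_bas]
    cases e <;>
      simp [phi1, phi2, dl, t1_apply, ptw_single, tau_single, d1_bas, d0_bas, Pi.single_sub,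
        Pi.single_add, Sq.sides, Sq4.sides] <;> abel
  exact LinearMap.congr_fun this x

theorem fmap_bas {Q : Type} [Group Q] (x y q : Q) :
    fmap x y (bas q) = bas (q * y) - (2 : ℤ) • bas q + (2 : ℤ) • bas (q * x) := by
  unfold fmap
  rw [lin_bas]

/-- the differential of the two-term complex -/
noncomputable abbrev fK : Z (PK P k) →ₗ[ℤ] Z (PK P k) := fmap ((R.RK k).lab .x) ((R.RK k).lab .y)

theorem comm2 (x : Z (PK P k × Cb)) :
    (R.t2 k (phi3 k x).1, R.fK k (phi3 k x).2) = R.phi2 k (b2 (R.RK k) x) := by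
  have : ((R.t2 k).prodMap (R.fK k)).comp (phi3 k) = (R.phi2 k).comp (b2 (R.RK k)) := by
    refine lin_ext ?_
    rintro ⟨⟨p, j⟩, e⟩
    rw [LinearMap.comp_apply, LinearMap.comp_apply, b2_bas]
    cases e <;>
      simp [phi3, phi2, dl, t2_apply, ptw_single, tau_single, d1_bas, Pi.single_sub,
        Pi.single_add, Sq.sides, Sq4.sides, Cb.base, Cb.face, fmap_bas, -Finsupp.smul_single] <;>
      first | (abel; done) | (abel_nf; exact ⟨trivial, trivial⟩)
  exact LinearMap.congr_fun this x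

/-- the map `(ZMod k → Z β) → Z γ` -/
noncomputable def sp {β γ : Type} (ι : Multiplicative (ZMod k) → β → γ) :
    (ZMod k → Z β) →ₗ[ℤ] Z γ :=
  ∑ j : ZMod k, (lin fun b => bas (ι (Multiplicative.ofAdd j) b)).comp (LinearMap.proj j)

theorem sp_single {β γ : Type} (ι : Multiplicative (ZMod k) → β → γ) (j : ZMod k) (b : β) :
    sp k ι (Pi.single j (bas b)) = bas (ι (Multiplicative.ofAdd j) b) := by
  unfold sp
  rw [LinearMap.sum_apply, Finset.sum_eq_single j]
  · rw [LinearMap.comp_apply, LinearMap.proj_apply, Pi.single_eq_same, lin_bas]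
  · intro l _ hl
    rw [LinearMap.comp_apply, LinearMap.proj_apply, Pi.single_eq_of_ne hl, map_zero]
  · intro h
    exact absurd (Finset.mem_univ j) h

theorem pi_lin_ext {β M : Type} [AddCommGroup M] {f g : (ZMod k → Z β) →ₗ[ℤ] M}
    (h : ∀ (j : Multiplicative (ZMod k)) (b : β),
      f (Pi.single (Multiplicative.toAdd j) (bas b)) =
        g (Pi.single (Multiplicative.toAdd j) (bas b))) : f = g := by
  refine LinearMap.pi_ext' fun j => lin_ext fun b => ?_
  exact h (Multiplicative.ofAdd j) b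

noncomputable def psi0 : (ZMod k → Z P) →ₗ[ℤ] Z (PK P k × Unit) := sp k fun j p => ((p, j), ())

noncomputable def psi1 : (ZMod k → Z (P × Ed4)) × (ZMod k → Z P) →ₗ[ℤ] Z (PK P k × Ed) :=
  LinearMap.coprod (sp k fun j c => ((c.1, j), c.2.toEd)) (sp k fun j p => ((p, j), .t))

noncomputable def psi2 :
    ((ZMod k → Z (P × Sq4)) × (ZMod k → Z (P × Ed4))) × Z (PK P k) →ₗ[ℤ] Z (PK P k × Sq) :=
  LinearMap.coprod
    (LinearMap.coprod (sp k fun j c => ((c.1, j), c.2.toSq)) (sp k fun j c => ((c.1, j), c.2.toSq)))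
    (lin fun q => bas (q, .ga) - bas (q, .tw))

noncomputable def psi3 :
    ((ZMod k → PUnit) × (ZMod k → Z (P × Sq4))) × Z (PK P k) →ₗ[ℤ] Z (PK P k × Cb) :=
  LinearMap.coprod
    (LinearMap.coprod 0 (sp k fun j c => ((c.1, j), c.2.toCb)))
    (lin fun q => (bas (q, .k5) - bas (q, .c3)) - (bas (q, .k1) - bas (q, .c1)) -
      (bas (q, .k3) - bas (q, .c3)) - (bas (q, .k4) - bas (q, .c4)) +
      (2 : ℤ) • (bas (q, .k2) - bas (q, .c3)))

/-- the homotopy -/
noncomputable def hty : Z (PK P k × Sq) →ₗ[ℤ] Z (PK P k × Cb) :=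
  lin fun c => match c.2 with
    | .al => bas (c.1, .c1) - bas (c.1, .k1)
    | .be => bas (c.1, .c3) - bas (c.1, .k2)
    | .si => bas (c.1, .k3) - bas (c.1, .k2)
    | .de => (bas (c.1, .c3) - bas (c.1, .k2)) - (bas (c.1, .c4) - bas (c.1, .k4))
    | _ => 0

theorem comp0 (x : Z (PK P k × Unit)) : psi0 k (phi0 k x) = x := by
  have : (psi0 k).comp (phi0 k) = LinearMap.id (M := Z (PK P k × Unit)) := by
    refine lin_ext ?_
    rintro ⟨⟨p, j⟩, ⟨⟩⟩
    simp [psi0, phi0, sp_single]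
  exact LinearMap.congr_fun this x

theorem comp0' (x : ZMod k → Z P) : phi0 k (psi0 k x) = x := by
  have : (phi0 k).comp (psi0 k) = LinearMap.id (M := ZMod k → Z P) := by
    refine pi_lin_ext k ?_
    rintro j p
    simp [psi0, phi0, sp_single]
  exact LinearMap.congr_fun this x

theorem comp1 (x : Z (PK P k × Ed)) : psi1 k (phi1 k x) = x := by
  have : (psi1 k).comp (phi1 k) = LinearMap.id (M := Z (PK P k × Ed)) := by
    refine lin_ext ?_
    rintro ⟨⟨p, j⟩, e⟩
    cases e <;> simp [psi1, phi1, sp_single, Ed4.toEd]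
  exact LinearMap.congr_fun this x

theorem comp1' (x : (ZMod k → Z (P × Ed4)) × (ZMod k → Z P)) : phi1 k (psi1 k x) = x := by
  have : (phi1 k).comp (psi1 k) = LinearMap.id (M := (ZMod k → Z (P × Ed4)) × (ZMod k → Z P)) := by
    refine LinearMap.prod_ext (pi_lin_ext k ?_) (pi_lin_ext k ?_)
    · rintro j ⟨p, e⟩
      cases e <;> simp [psi1, phi1, sp_single, Ed4.toEd]
    · rintro j p
      simp [psi1, phi1, sp_single]
  exact LinearMap.congr_fun this x

theorem comp2' (x) : R.phi2 k (psi2 k x) = x := by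
  have : (R.phi2 k).comp (psi2 k) = LinearMap.id := by
    refine LinearMap.prod_ext (LinearMap.prod_ext (pi_lin_ext k ?_) (pi_lin_ext k ?_))
      (lin_ext ?_)
    · rintro j ⟨p, e⟩
      cases e <;> simp [psi2, phi2, sp_single, Sq4.toSq]
    · rintro j ⟨p, e⟩
      cases e <;> simp [psi2, phi2, sp_single, Ed4.toSq]
    · rintro ⟨p, j⟩
      simp [psi2, phi2]
  exact LinearMap.congr_fun this x

theorem comp3' (x) : phi3 k (psi3 (P := P) k x) = x := by
  have : (phi3 k).comp (psi3 (P := P) k) = LinearMap.id := by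
    refine LinearMap.prod_ext (LinearMap.prod_ext ?_ (pi_lin_ext k ?_))
      (lin_ext ?_)
    · exact Subsingleton.elim _ _
    · rintro j ⟨p, e⟩
      cases e <;> simp [psi3, phi3, sp_single, Sq4.toCb]
    · rintro ⟨p, j⟩
      simp [psi3, phi3]
  exact LinearMap.congr_fun this x

theorem comp2 (x : Z (PK P k × Sq)) :
    psi2 k (R.phi2 k x) - x = b2 (R.RK k) (hty k x) := by
  have : (psi2 k).comp (R.phi2 k) - LinearMap.id = (b2 (R.RK k)).comp (hty k) := by
    refine lin_ext ?_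
    rintro ⟨⟨p, j⟩, e⟩
    cases e <;>
      simp [psi2, phi2, hty, sp_single, Sq4.toSq, Ed4.toSq, b2_bas, Cb.base, Cb.face, Sq.sides] <;>
      abel
  exact LinearMap.congr_fun this x

theorem comp3 (x : Z (PK P k × Cb)) :
    psi3 k (phi3 k x) - x = hty k (b2 (R.RK k) x) := by
  have : (psi3 k).comp (phi3 k) - LinearMap.id = (hty k).comp (b2 (R.RK k)) := by
    refine lin_ext ?_
    rintro ⟨⟨p, j⟩, e⟩
    cases e <;>
      simp [psi3, phi3, hty, sp_single, Sq4.toCb, b2_bas, Cb.base, Cb.face, Sq.sides] <;>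
      abel
  exact LinearMap.congr_fun this x

theorem cmm0 (x) : b0 (R.RK k) (psi1 k x) = psi0 k (R.t0 k x) := by
  have : (b0 (R.RK k)).comp (psi1 k) = (psi0 k).comp (R.t0 k) := by
    refine LinearMap.prod_ext (pi_lin_ext k ?_) (pi_lin_ext k ?_)
    · rintro j ⟨p, e⟩
      cases e <;> simp [psi1, psi0, sp_single, Ed4.toEd, b0_bas, t0_apply, ptw_single, d0_bas,
        Pi.single_sub]
    · rintro j p
      simp [psi1, psi0, sp_single, b0_bas, t0_apply, tau_single]
  exact LinearMap.congr_fun this x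

theorem cmm1 (x) : b1 (R.RK k) (psi2 k x) = psi1 k (R.t1 k x.1) := by
  have : (b1 (R.RK k)).comp (psi2 k) = ((psi1 k).comp (R.t1 k)).comp (LinearMap.fst ℤ _ _) := by
    refine LinearMap.prod_ext (LinearMap.prod_ext (pi_lin_ext k ?_) (pi_lin_ext k ?_))
      (lin_ext ?_)
    · rintro j ⟨p, e⟩
      cases e <;> simp [psi1, psi2, sp_single, Ed4.toEd, Sq4.toSq, b1_bas, t1_apply, ptw_single,
        d1_bas, Pi.single_sub, Pi.single_add, Sq.sides, Sq4.sides] <;> abel
    · rintro j ⟨p, e⟩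
      cases e <;> simp [psi1, psi2, sp_single, Ed4.toEd, Ed4.toSq, b1_bas, t1_apply, ptw_single,
        tau_single, d0_bas, Pi.single_sub, Pi.single_add, Sq.sides] <;> abel
    · rintro ⟨p, j⟩
      simp [psi1, psi2, b1_bas, Sq.sides]
  exact LinearMap.congr_fun this x

theorem cmm2 (x) : b2 (R.RK k) (psi3 k x) = psi2 k (R.t2 k x.1, R.fK k x.2) := by
  have : (b2 (R.RK k)).comp (psi3 k) = (psi2 k).comp ((R.t2 k).prodMap (R.fK k)) := by
    refine LinearMap.prod_ext (LinearMap.prod_ext ?_ (pi_lin_ext k ?_))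
      (lin_ext ?_)
    · exact Subsingleton.elim _ _
    · rintro j ⟨p, e⟩
      cases e <;> simp [psi3, psi2, sp_single, Ed4.toSq, Sq4.toSq, Sq4.toCb, b2_bas, t2_apply,
        ptw_single, d1_bas, tau_single,
        Pi.single_sub, Pi.single_add, Sq.sides, Sq4.sides, Cb.base, Cb.face] <;> abel
    · rintro ⟨p, j⟩
      simp [psi3, psi2, b2_bas, Sq.sides, Cb.base, Cb.face, fmap_bas, -Finsupp.smul_single]
      abel
  exact LinearMap.congr_fun this x

end Gens4

end Pool.Agent.Lib.MP_9a92d3_gt
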