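import Pool.Agent.Lib.MP_9a92d3_gt.Homol

set_option autoImplicit false

/-!
# The homology of the complex over `P × ℤ/k`, continued
-/

namespace Pool.Agent.Lib.MP_9a92d3_gt

namespace Gens4

variable {P : Type} [Group P] (R : Gens4 P) (k : ℕ) [NeZero k]

/-- the target complex -/
noncomputable def tgt : Cx :=
  Cx.prod (Circle.circ R.D k) (E ((R.RK k).lab .x) ((R.RK k).lab .y))

instance sub4 {Q : Type} [Group Q] (R : Gens Q) (n : ℕ) : Subsingleton (R.complex.cx.C (n + 4)) :=
  inferInstanceAs (Subsingleton (Z (Q × Empty)))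

instance subT4 (n : ℕ) : Subsingleton ((R.tgt k).C (n + 4)) :=
  inferInstanceAs (Subsingleton (((ZMod k → PUnit) × (ZMod k → PUnit)) × PUnit))

/-- the chain map `C(X) → T ⊕ E` -/
noncomputable def PhiHom : Cx.Hom (R.RK k).complex.cx (R.tgt k) where
  f n := match n with
    | 0 => (phi0 k).prod (0 : Z (PK P k × Unit) →ₗ[ℤ] PUnit)
    | 1 => (phi1 k).prod (0 : Z (PK P k × Ed) →ₗ[ℤ] PUnit)
    | 2 => R.phi2 k
    | 3 => phi3 k
    | _ + 4 => 0
  comm n x := match n, x with
    | 0, x => Prod.ext (R.comm0 k x) rfl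
    | 1, x => Prod.ext (R.comm1 k x) rfl
    | 2, x => R.comm2 k x
    | 3, x => by
      rw [Subsingleton.elim x 0, map_zero, map_zero, map_zero, map_zero]
    | n + 4, x => by
      exact Subsingleton.elim _ _

/-- the chain map `T ⊕ E → C(X)` -/
noncomputable def PsiHom : Cx.Hom (R.tgt k) (R.RK k).complex.cx where
  f n := match n with
    | 0 => (psi0 k).comp (LinearMap.fst ℤ (ZMod k → Z P) PUnit)
    | 1 => (psi1 k).comp (LinearMap.fst ℤ ((ZMod k → Z (P × Ed4)) × (ZMod k → Z P)) PUnit)
    | 2 => psi2 k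
    | 3 => psi3 k
    | _ + 4 => 0
  comm n x := match n, x with
    | 0, x => R.cmm0 k x.1
    | 1, x => R.cmm1 k x
    | 2, x => R.cmm2 k x
    | 3, x => by
      rw [Subsingleton.elim x 0, map_zero, map_zero, map_zero, map_zero]
    | n + 4, x => by
      exact Subsingleton.elim _ _

/-- The homology of the complex. -/
noncomputable def mainEquiv (n : ℕ) : (R.RK k).complex.cx.H n ≃ₗ[ℤ] (R.tgt k).H n := by
  refine Cx.equivOfHomotopy (R.PhiHom k) (R.PsiHom k)
    (fun n => match n with
      | 0 => 0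
      | 1 => 0
      | 2 => hty k
      | _ + 3 => 0) ?_ ?_ (fun _ => 0) ?_ ?_ n
  · intro x
    refine Eq.trans (b := 0) ?_ (map_zero _).symm
    exact sub_eq_zero.mpr (comp0 k x)
  · intro n x hx
    match n, x, hx with
    | 0, x, hx =>
      refine Eq.trans (b := 0) ?_ (map_zero _).symm
      exact sub_eq_zero.mpr (comp1 k x)
    | 1, x, hx => exact R.comp2 k x
    | 2, x, hx =>
      refine Eq.trans (b := 0) ?_ (map_zero _).symm
      have h := R.comp3 k x
      have hx' : b2 (R.RK k) x = 0 := hx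
      rw [hx', map_zero] at h
      exact h
    | n + 3, x, hx => exact Subsingleton.elim _ _
  · intro x
    refine Eq.trans (b := 0) ?_ (map_zero _).symm
    exact sub_eq_zero.mpr (Prod.ext (comp0' k x.1) rfl)
  · intro n x hx
    refine Eq.trans (b := 0) ?_ (map_zero _).symm
    match n, x, hx with
    | 0, x, hx => exact sub_eq_zero.mpr (Prod.ext (comp1' k x.1) rfl)
    | 1, x, hx => exact sub_eq_zero.mpr (R.comp2' k x)
    | 2, x, hx => exact sub_eq_zero.mpr (comp3' k x)
    | n + 3, x, hx => exact Subsingleton.elim _ _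

end Gens4

end Pool.Agent.Lib.MP_9a92d3_gt
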