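import Pool.Agent.Lib.MP_9a92d3_gt.Defs

set_option autoImplicit false

/-!
# The logarithm of a positive operator
-/

namespace Pool.Agent.Lib.MP_9a92d3_gt

open Polynomial

variable {H : Type} [NormedAddCommGroup H] [InnerProductSpace ℂ H] [CompleteSpace H]

theorem re_inner_mono {A B : H →L[ℂ] H} (h : A ≤ B) (v : H) :
    (inner ℂ v (A v)).re ≤ (inner ℂ v (B v)).re := by
  have h1 := (ContinuousLinearMap.le_def A B).mp h
  have h2 := h1.re_inner_nonneg_right v
  rw [sub_apply, inner_sub_right, map_sub] at h2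
  exact sub_nonneg.mp h2

theorem re_inner_algebraMap' (r : ℝ) (v : H) :
    (inner ℂ v ((algebraMap ℝ (H →L[ℂ] H) r) v)).re = r * ‖v‖ ^ 2 := by
  rw [Algebra.algebraMap_eq_smul_one]
  have : ((r • (1 : H →L[ℂ] H)) v) = (r : ℂ) • v := rfl
  rw [this, inner_smul_right, inner_self_eq_norm_sq_to_K]
  norm_cast
  exact Complex.re_ofReal_mul _ _

theorem re_inner_algebraMap (r : ℝ) (v : H) (hv : ‖v‖ = 1) :
    (inner ℂ v ((algebraMap ℝ (H →L[ℂ] H) r) v)).re = r := by
  rw [re_inner_algebraMap', hv, one_pow, mul_one]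

theorem spec_bounds {T : H →L[ℂ] H} (hT : 0 ≤ T) (x : ℝ) (hx : x ∈ spectrum ℝ T) :
    x ∈ Set.Icc (0 : ℝ) ‖T‖ := by
  refine ⟨spectrum_nonneg_of_nonneg hT hx, ?_⟩
  have h1 := spectrum.norm_le_norm_mul_of_mem hx
  have h2 : ‖(1 : H →L[ℂ] H)‖ ≤ 1 := ContinuousLinearMap.norm_id_le
  have h3 : x ≤ ‖x‖ := le_abs_self x
  have h4 := norm_nonneg T
  nlinarith

theorem cont_log {T : H →L[ℂ] H} (hT : 0 ≤ T) {ε : ℝ} (hε : 0 < ε) :
    ContinuousOn (fun x : ℝ => Real.log (x + ε)) (spectrum ℝ T) := by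
  refine ContinuousOn.log (by fun_prop) ?_
  intro x hx
  have := (spec_bounds hT x hx).1
  linarith

theorem isSelfAdjoint_of_nonneg' {T : H →L[ℂ] H} (hT : 0 ≤ T) : IsSelfAdjoint T :=
  IsSelfAdjoint.of_nonneg hT

/-- Approximation by polynomials. -/
theorem approx {T : H →L[ℂ] H} (hT : 0 ≤ T) {ε : ℝ} (hε : 0 < ε) (q : ℝ[X]) (δ : ℝ)
    (hq : ∀ x ∈ Set.Icc (0 : ℝ) ‖T‖, |q.eval x - Real.log (x + ε)| ≤ δ) (v : H) (hv : ‖v‖ = 1) :
    (inner ℂ v ((aeval T q) v)).re - δ ≤ (inner ℂ v (logOp T ε v)).re := by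
  have hsa := isSelfAdjoint_of_nonneg' hT
  have hlog := cont_log hT hε
  have hqc : ContinuousOn (fun x : ℝ => q.eval x) (spectrum ℝ T) := q.continuous.continuousOn
  have h1 : cfc (fun x : ℝ => q.eval x - Real.log (x + ε)) T ≤ algebraMap ℝ (H →L[ℂ] H) δ := by
    refine cfc_le_algebraMap _ δ T (fun x hx => ?_) (hqc.sub hlog) hsa
    exact (le_abs_self _).trans (hq x (spec_bounds hT x hx))
  rw [cfc_sub _ _ T hqc hlog] at h1
  have h2 : cfc (fun x : ℝ => q.eval x) T = aeval T q := cfc_polynomial q T hsa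
  have h3 := re_inner_mono h1 v
  rw [re_inner_algebraMap δ v hv, sub_apply, inner_sub_right, Complex.sub_re, h2] at h3
  unfold logOp
  linarith

/-- The logarithm is nonnegative for `ε ≥ 1`. -/
theorem log_nonneg_of_one_le {T : H →L[ℂ] H} (hT : 0 ≤ T) {ε : ℝ} (hε : 1 ≤ ε) (v : H) :
    0 ≤ (inner ℂ v (logOp T ε v)).re := by
  have h1 : 0 ≤ logOp T ε := by
    unfold logOp
    refine cfc_nonneg fun x hx => ?_
    have := (spec_bounds hT x hx).1
    exact Real.log_nonneg (by linarith)
  have := re_inner_mono h1 v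
  simpa using this

theorem kerProj_apply_mem (T : H →L[ℂ] H) (v : H) : T (kerProj T v) = 0 := by
  have h : kerProj T v ∈ LinearMap.ker T.toLinearMap := Submodule.starProjection_apply_mem _ _
  exact h

theorem inner_kerProj (T : H →L[ℂ] H) (v : H) :
    (inner ℂ v (kerProj T v)).re = ‖kerProj T v‖ ^ 2 := by
  have h := (LinearMap.ker T.toLinearMap).re_inner_starProjection_eq_normSq (𝕜 := ℂ) v
  rw [← inner_conj_symm]
  exact h

/-- The upper bound by the kernel. -/
theorem log_le {T : H →L[ℂ] H} (hT : 0 ≤ T) {ε : ℝ} (hε : 0 < ε) (hε1 : ε ≤ 1) (v : H)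
    (hv : ‖v‖ = 1) :
    (inner ℂ v (logOp T ε v)).re ≤
      Real.log ε * (inner ℂ v (kerProj T v)).re + Real.log (‖T‖ + 1) := by
  have hsa := isSelfAdjoint_of_nonneg' hT
  have hlog := cont_log hT hε
  set L := logOp T ε with hL
  -- `L` acts by `log ε` on the kernel
  have hker : ∀ u : H, T u = 0 → L u = (Real.log ε : ℂ) • u := by
    intro u hu
    set f : ℝ → ℝ := fun x => Real.log (x + ε) with hf
    have hcf : ContinuousOn f (Set.Ioi (-ε)) := by
      refine ContinuousOn.log (by fun_prop) ?_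
      intro x hx
      have : -ε < x := hx
      linarith
    have hdf : DifferentiableAt ℝ f 0 := by
      refine DifferentiableAt.log (by fun_prop) ?_
      rw [zero_add]
      exact hε.ne'
    have hds : ContinuousOn (dslope f 0) (spectrum ℝ T) := by
      have hn : Set.Ioi (-ε) ∈ nhds (0 : ℝ) := Ioi_mem_nhds (by linarith)
      refine ((continuousOn_dslope hn).mpr ⟨hcf, hdf⟩).mono fun x hx => ?_
      have := (spec_bounds hT x hx).1
      show -ε < x
      linarith
    have h1 : L = algebraMap ℝ (H →L[ℂ] H) (Real.log ε) + cfc (dslope f 0) T * T := by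
      have h2 : cfc (fun x : ℝ => x) T = T := cfc_id' ℝ T hsa
      have h3 : cfc (fun x : ℝ => dslope f 0 x * x) T = cfc (dslope f 0) T * T := by
        rw [cfc_mul (dslope f 0) (fun x => x) T hds continuousOn_id, h2]
      have h4 : cfc (fun x : ℝ => Real.log ε + dslope f 0 x * x) T =
          algebraMap ℝ (H →L[ℂ] H) (Real.log ε) + cfc (dslope f 0) T * T := by
        rw [cfc_const_add _ (fun x => dslope f 0 x * x) T (hds.mul continuousOn_id) hsa, h3]
      rw [← h4, hL]
      unfold logOp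
      refine cfc_congr fun x hx => ?_
      have h5 := sub_smul_dslope f 0 x
      rw [sub_zero, smul_eq_mul] at h5
      have h6 : f 0 = Real.log ε := by rw [hf]; simp
      rw [h6] at h5
      show f x = _
      linarith
    rw [h1, add_apply]
    have : (cfc (dslope f 0) T * T) u = cfc (dslope f 0) T (T u) := rfl
    rw [this, hu, map_zero, add_zero, Algebra.algebraMap_eq_smul_one]
    rfl
  have hLsa : IsSelfAdjoint L := by
    rw [hL]
    unfold logOp
    exact cfc_predicate _ _
  have hup : L ≤ algebraMap ℝ (H →L[ℂ] H) (Real.log (‖T‖ + 1)) := by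
    rw [hL]
    unfold logOp
    refine cfc_le_algebraMap _ _ T (fun x hx => ?_) hlog hsa
    have := spec_bounds hT x hx
    exact Real.log_le_log (by linarith [this.1]) (by linarith [this.2])
  set u := kerProj T v with hu
  set w := v - u with hw
  have hTu : T u = 0 := kerProj_apply_mem T v
  have horth' : inner ℂ w u = 0 :=
    (LinearMap.ker T.toLinearMap).starProjection_inner_eq_zero v u hTu
  have horth : inner ℂ u w = 0 := by rw [← inner_conj_symm, horth', map_zero]
  have hvuw : v = u + w := by rw [hw]; abel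
  have hLu := hker u hTu
  have e2 : inner ℂ u (L w) = 0 := by
    have : inner ℂ u (L w) = inner ℂ (L u) w := by
      conv_rhs => rw [← hLsa.adjoint_eq]
      rw [ContinuousLinearMap.adjoint_inner_left]
    rw [this, hLu, inner_smul_left, horth, mul_zero]
  have e3 : inner ℂ w (L u) = 0 := by rw [hLu, inner_smul_right, horth', mul_zero]
  have e1 : inner ℂ v (L v) = inner ℂ u (L u) + inner ℂ w (L w) := by
    conv_lhs => rw [hvuw]
    rw [map_add, inner_add_left, inner_add_right, inner_add_right, e2, e3, add_zero, zero_add]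
  have e4 : (inner ℂ u (L u)).re = Real.log ε * ‖u‖ ^ 2 := by
    rw [hLu, inner_smul_right, inner_self_eq_norm_sq_to_K]
    norm_cast
    exact Complex.re_ofReal_mul _ _
  have e5 : (inner ℂ w (L w)).re ≤ Real.log (‖T‖ + 1) * ‖w‖ ^ 2 := by
    rw [← re_inner_algebraMap']
    exact re_inner_mono hup w
  have e6 : ‖w‖ ^ 2 ≤ 1 := by
    have h1 : ‖v‖ ^ 2 = ‖u‖ ^ 2 + ‖w‖ ^ 2 := by
      have := norm_add_sq_eq_norm_sq_add_norm_sq_of_inner_eq_zero u w horth
      rw [← hvuw] at this
      linarith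
    rw [hv, one_pow] at h1
    have := sq_nonneg ‖u‖
    linarith
  have e7 : 0 ≤ Real.log (‖T‖ + 1) := Real.log_nonneg (by linarith [norm_nonneg T])
  rw [e1, Complex.add_re, e4, inner_kerProj]
  nlinarith

end Pool.Agent.Lib.MP_9a92d3_gt
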