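import Pool.Agent.Lib.MP_9a92d3_gt.Heis

set_option autoImplicit false

/-!
# Simple connectivity of the complex
-/

namespace Pool.Agent.Lib.MP_9a92d3_gt

/-! ### The group is presented by the relations -/

section presentation

variable {Γ : Type} [Group Γ] (R : Gens Γ)

/-- the central element -/
def Gens.zc : Γ := (R.lab .x)⁻¹ * R.lab .w

theorem Gens.x_zc : R.lab .x * R.zc = R.lab .w := by
  unfold Gens.zc
  rw [mul_inv_cancel_left]

theorem Gens.comm_x_zc : Commute (R.lab .x) R.zc := by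
  unfold Gens.zc
  exact (Commute.refl _).inv_right.mul_right R.h3

theorem Gens.w_inv_v : (R.lab .w)⁻¹ * R.lab .v = R.zc := by
  have h4 := R.h4
  have h3 := R.h3
  unfold Gens.zc
  rw [inv_mul_eq_iff_eq_mul, ← mul_assoc]
  have : R.lab .w * (R.lab .x)⁻¹ = (R.lab .x)⁻¹ * R.lab .w := by
    have hc : Commute (R.lab .w) (R.lab .x)⁻¹ := (show Commute (R.lab .w) (R.lab .x) from h3.symm).inv_right
    exact hc.eq
  rw [this, mul_assoc, ← h4, inv_mul_cancel_left]

theorem Gens.comm_y_zc : Commute (R.lab .y) R.zc := by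
  have h1 := R.h1
  have h2 := R.h2
  have hv := R.w_inv_v
  show R.lab .y * R.zc = R.zc * R.lab .y
  conv_lhs => rw [← hv]
  unfold Gens.zc
  have e1 : R.lab .w = (R.lab .y)⁻¹ * R.lab .x * R.lab .y := by
    rw [mul_assoc, h1, inv_mul_cancel_left]
  have e2 : R.lab .v = (R.lab .y)⁻¹ * R.lab .w * R.lab .y := by
    rw [mul_assoc, h2, inv_mul_cancel_left]
  rw [e2]
  nth_rewrite 1 [e1]
  group

theorem Gens.step (b : ℤ) :
    SemiconjBy (R.lab .y) (R.lab .x * R.zc ^ (b + 1)) (R.lab .x * R.zc ^ b) := by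
  have hy := R.comm_y_zc.zpow_right b
  have hbase : R.lab .y * (R.lab .x * R.zc) = R.lab .x * R.lab .y := by rw [R.x_zc, R.h1]
  show R.lab .y * (R.lab .x * R.zc ^ (b + 1)) = R.lab .x * R.zc ^ b * R.lab .y
  rw [add_comm, zpow_one_add, ← mul_assoc (R.lab .x), ← mul_assoc, hbase, mul_assoc, hy.eq,
    mul_assoc]

theorem Gens.conj_zpow (b : ℤ) :
    SemiconjBy (R.lab .y ^ b) (R.lab .x * R.zc ^ b) (R.lab .x) := by
  induction b using Int.induction_on with
  | zero =>
    rw [zpow_zero, zpow_zero, mul_one]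
    exact SemiconjBy.one_left _
  | succ n ih =>
    rw [zpow_add_one]
    exact ih.mul_left (R.step n)
  | pred n ih =>
    rw [zpow_sub_one]
    refine ih.mul_left ?_
    have := R.step (-(n : ℤ) - 1)
    rw [sub_add_cancel] at this
    exact this.inv_symm_left

theorem Gens.comm_zpow (a b : ℤ) :
    R.lab .x ^ a * R.lab .y ^ b = R.lab .y ^ b * (R.lab .x ^ a * R.zc ^ (a * b)) := by
  have h := ((R.conj_zpow b).zpow_right a).eq
  rw [← h, (R.comm_x_zc.zpow_right b).mul_zpow, ← zpow_mul, mul_comm b a]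

/-- the homomorphism from the Heisenberg group -/
def Gens.hom0 : Hs (RingHom.id ℤ) →* Γ where
  toFun g := R.lab .y ^ g.b * (R.lab .x ^ g.a * R.zc ^ g.c)
  map_one' := by simp
  map_mul' g h := by
    have e1 := R.comm_zpow g.a h.b
    have c1 : Commute (R.zc ^ g.c) (R.lab .y ^ h.b) :=
      (R.comm_y_zc.symm.zpow_left _).zpow_right _
    have c2 : Commute (R.zc ^ (g.a * h.b) * R.zc ^ g.c) (R.lab .x ^ h.a) :=
      ((R.comm_x_zc.symm.zpow_left _).mul_left (R.comm_x_zc.symm.zpow_left _)).zpow_right _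
    show R.lab .y ^ (g.b + h.b) * (R.lab .x ^ (g.a + h.a) * R.zc ^ (g.c + h.c + g.a * h.b)) = _
    have ez : R.zc ^ (g.c + h.c + g.a * h.b) =
        R.zc ^ (g.a * h.b) * R.zc ^ g.c * R.zc ^ h.c := by
      rw [← zpow_add, ← zpow_add]
      congr 1
      ring
    calc R.lab .y ^ (g.b + h.b) * (R.lab .x ^ (g.a + h.a) * R.zc ^ (g.c + h.c + g.a * h.b))
        = R.lab .y ^ g.b * R.lab .y ^ h.b * (R.lab .x ^ g.a * R.lab .x ^ h.a *
            (R.zc ^ (g.a * h.b) * R.zc ^ g.c * R.zc ^ h.c)) := by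
          rw [ez, zpow_add, zpow_add]
      _ = R.lab .y ^ g.b * R.lab .y ^ h.b * (R.lab .x ^ g.a *
            (R.lab .x ^ h.a * (R.zc ^ (g.a * h.b) * R.zc ^ g.c)) * R.zc ^ h.c) := by
          simp only [mul_assoc]
      _ = R.lab .y ^ g.b * R.lab .y ^ h.b * (R.lab .x ^ g.a *
            ((R.zc ^ (g.a * h.b) * R.zc ^ g.c) * R.lab .x ^ h.a) * R.zc ^ h.c) := by
          rw [c2.eq]
      _ = R.lab .y ^ g.b * (R.lab .y ^ h.b * (R.lab .x ^ g.a * R.zc ^ (g.a * h.b))) * R.zc ^ g.c *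
            R.lab .x ^ h.a * R.zc ^ h.c := by
          simp only [mul_assoc]
      _ = R.lab .y ^ g.b * R.lab .x ^ g.a * (R.lab .y ^ h.b * R.zc ^ g.c) *
            R.lab .x ^ h.a * R.zc ^ h.c := by
          rw [← e1]
          simp only [mul_assoc]
      _ = R.lab .y ^ g.b * R.lab .x ^ g.a * (R.zc ^ g.c * R.lab .y ^ h.b) *
            R.lab .x ^ h.a * R.zc ^ h.c := by
          rw [c1.eq]
      _ = _ := by simp only [mul_assoc]

theorem Gens.comm_t (e : Ed) : Commute (R.lab e) (R.lab .t) := R.ht e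

/-- the homomorphism from the group of the example -/
def Gens.homG : GG →* Γ :=
  R.hom0.noncommCoprod (zpowersHom Γ (R.lab .t)) (by
    intro g t
    have hz : Commute R.zc (R.lab .t) := (R.comm_t .x).inv_left.mul_left (R.comm_t .w)
    have h : Commute (R.hom0 g) (R.lab .t) :=
      ((R.comm_t .y).zpow_left _).mul_left (((R.comm_t .x).zpow_left _).mul_left (hz.zpow_left _))
    rw [zpowersHom_apply]
    exact h.zpow_right _)

theorem Gens.homG_lab (e : Ed) : R.homG (ggens.lab e) = R.lab e := by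
  have hx := R.x_zc
  cases e with
  | x =>
    show R.lab .y ^ (0 : ℤ) * (R.lab .x ^ (1 : ℤ) * R.zc ^ (0 : ℤ)) * R.lab .t ^ (0 : ℤ) = _
    simp
  | w =>
    show R.lab .y ^ (0 : ℤ) * (R.lab .x ^ (1 : ℤ) * R.zc ^ (1 : ℤ)) * R.lab .t ^ (0 : ℤ) = _
    simp [hx]
  | v =>
    show R.lab .y ^ (0 : ℤ) * (R.lab .x ^ (1 : ℤ) * R.zc ^ (2 : ℤ)) * R.lab .t ^ (0 : ℤ) = _
    have h : R.lab .w * R.zc = R.lab .v := by rw [← R.w_inv_v, mul_inv_cancel_left]
    rw [zpow_zero, zpow_zero, one_mul, mul_one, zpow_one, zpow_two, ← mul_assoc, hx, h]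
  | y =>
    show R.lab .y ^ (1 : ℤ) * (R.lab .x ^ (0 : ℤ) * R.zc ^ (0 : ℤ)) * R.lab .t ^ (0 : ℤ) = _
    simp
  | t =>
    show R.lab .y ^ (0 : ℤ) * (R.lab .x ^ (0 : ℤ) * R.zc ^ (0 : ℤ)) * R.lab .t ^ (1 : ℤ) = _
    simp

theorem zpow_of_add {Γ : Type} [Group Γ] (f : ℤ → Γ) (hf : ∀ a b, f (a + b) = f a * f b) (n : ℤ) :
    f 1 ^ n = f n := by
  let F : Multiplicative ℤ →* Γ := MonoidHom.mk' (fun a => f (Multiplicative.toAdd a))
    (fun a b => hf _ _)
  have h := map_zpow F (Multiplicative.ofAdd 1) n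
  rw [← ofAdd_zsmul, smul_eq_mul, mul_one] at h
  exact h.symm

theorem y_zpow (n : ℤ) : ggens.lab .y ^ n = ((⟨0, n, 0⟩, 1) : GG) :=
  zpow_of_add (fun n => ((⟨0, n, 0⟩, 1) : GG)) (fun a b => by
    refine Prod.ext (Hs.ext ?_ ?_ ?_) rfl
    · show (0 : ℤ) = 0 + 0
      rfl
    · rfl
    · show (0 : ℤ) = 0 + 0 + 0 * b
      ring) n

theorem x_zpow (n : ℤ) : ggens.lab .x ^ n = ((⟨n, 0, 0⟩, 1) : GG) :=
  zpow_of_add (fun n => ((⟨n, 0, 0⟩, 1) : GG)) (fun a b => by
    refine Prod.ext (Hs.ext ?_ ?_ ?_) rfl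
    · rfl
    · show (0 : ℤ) = 0 + 0
      rfl
    · show (0 : ℤ) = 0 + 0 + a * 0
      ring) n

theorem t_zpow (n : ℤ) : ggens.lab .t ^ n = ((1, Multiplicative.ofAdd n) : GG) :=
  zpow_of_add (fun n => ((1, Multiplicative.ofAdd n) : GG)) (fun a b => by
    refine Prod.ext (mul_one 1).symm rfl) n

theorem zc_ggens : ggens.zc = ((⟨0, 0, 1⟩, 1) : GG) := by
  unfold Gens.zc
  refine Prod.ext (Hs.ext ?_ ?_ ?_) rfl
  · show (-1 : ℤ) + 1 = 0
    rfl
  · show (-0 : ℤ) + 0 = 0
    rfl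
  · show (-0 + 1 * 0 : ℤ) + 1 + (-1) * 0 = 1
    rfl

theorem zc_zpow (n : ℤ) : ggens.zc ^ n = ((⟨0, 0, n⟩, 1) : GG) := by
  rw [zc_ggens]
  exact zpow_of_add (fun n => ((⟨0, 0, n⟩, 1) : GG)) (fun a b => by
    refine Prod.ext (Hs.ext ?_ ?_ ?_) rfl
    · show (0 : ℤ) = 0 + 0
      rfl
    · show (0 : ℤ) = 0 + 0
      rfl
    · show (a + b : ℤ) = a + b + 0 * 0
      ring) n

theorem eq_word (g : GG) : g = ggens.lab .y ^ g.1.b * (ggens.lab .x ^ g.1.a * ggens.zc ^ g.1.c) *
    ggens.lab .t ^ (Multiplicative.toAdd g.2) := by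
  rw [y_zpow, x_zpow, zc_zpow, t_zpow]
  refine Prod.ext (Hs.ext ?_ ?_ ?_) ?_
  · show g.1.a = 0 + (g.1.a + 0) + 0
    ring
  · show g.1.b = g.1.b + (0 + 0) + 0
    ring
  · show g.1.c = 0 + (0 + g.1.c + g.1.a * 0) + 0 * (0 + 0) + 0 + (0 + (g.1.a + 0)) * 0
    ring
  · show g.2 = 1 * (1 * 1) * Multiplicative.ofAdd (Multiplicative.toAdd g.2)
    rw [mul_one, mul_one, one_mul]
    rfl

/-- The generators generate. -/
theorem top_of_lab (H : Subgroup GG) (h : ∀ e, ggens.lab e ∈ H) (g : GG) : g ∈ H := by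
  have hz : ggens.zc ∈ H := H.mul_mem (H.inv_mem (h .x)) (h .w)
  rw [eq_word g]
  exact H.mul_mem (H.mul_mem (H.zpow_mem (h .y) _) (H.mul_mem (H.zpow_mem (h .x) _)
    (H.zpow_mem hz _))) (H.zpow_mem (h .t) _)

end presentation

/-! ### Edge paths -/

section paths

open CubeComplex

variable {K : CubeComplex}

theorem isPath_append {u w v : K.cell 0} {l m : List (K.cell 1 × Bool)}
    (hl : K.IsPath u l w) (hm : K.IsPath w m v) : K.IsPath u (l ++ m) v := by
  induction l generalizing u with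
  | nil =>
    have : u = w := hl
    rw [this]
    exact hm
  | cons o l ih => exact ⟨hl.1, ih hl.2⟩

theorem isPath_split {u v : K.cell 0} {l m : List (K.cell 1 × Bool)}
    (h : K.IsPath u (l ++ m) v) : ∃ w, K.IsPath u l w ∧ K.IsPath w m v := by
  induction l generalizing u with
  | nil => exact ⟨u, rfl, h⟩
  | cons o l ih =>
    obtain ⟨w, h1, h2⟩ := ih h.2
    exact ⟨w, ⟨h.1, h1⟩, h2⟩

theorem isPath_end {u v w : K.cell 0} {l : List (K.cell 1 × Bool)}
    (h : K.IsPath u l v) (h' : K.IsPath u l w) : v = w := by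
  induction l generalizing u with
  | nil =>
    have h1 : u = v := h
    have h2 : u = w := h'
    rw [← h1, h2]
  | cons o l ih => exact ih h.2 h'.2

theorem move_append {l l' : List (K.cell 1 × Bool)} (h : K.Move l l')
    (m : List (K.cell 1 × Bool)) : K.Move (l ++ m) (l' ++ m) := by
  cases h with
  | cancel l₁ l₂ e b =>
    have := Move.cancel (K := K) l₁ (l₂ ++ m) e b
    simpa using this
  | square l₁ l₂ s =>
    have := Move.square (K := K) l₁ (l₂ ++ m) s
    simpa using this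

theorem homotopic_append {u v w : K.cell 0} {l l' : List (K.cell 1 × Bool)}
    (h : K.Homotopic u v l l') {m : List (K.cell 1 × Bool)} (hm : K.IsPath v m w) :
    K.Homotopic u w (l ++ m) (l' ++ m) := by
  induction h with
  | rel a b h =>
    exact .rel _ _ ⟨isPath_append h.1 hm, isPath_append h.2.1 hm, move_append h.2.2 m⟩
  | refl a => exact .refl _
  | symm a b _ ih => exact .symm _ _ ih
  | trans a b c _ _ ih1 ih2 => exact .trans _ _ _ ih1 ih2

end paths

section action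

variable {Q : Type} [Group Q] (R : Gens Q)

/-- vertices -/
def vtx (g : Q) : R.complex.cell 0 := (g, ())

/-- edges -/
def edg (g : Q) (e : Ed) : R.complex.cell 1 := (g, e)

theorem face_true (g : Q) (e : Ed) : R.complex.face 0 true (edg R g e) = vtx R (g * R.lab e) := rfl

theorem face_false (g : Q) (e : Ed) : R.complex.face 0 false (edg R g e) = vtx R g :=
  Prod.ext (mul_one g) rfl

theorem isPath_fwd (g : Q) (e : Ed) :
    R.complex.IsPath (vtx R g) [(edg R g e, true)] (vtx R (g * R.lab e)) :=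
  ⟨face_false R g e, rfl⟩

theorem isPath_bwd (g : Q) (e : Ed) :
    R.complex.IsPath (vtx R g) [(edg R (g * (R.lab e)⁻¹) e, false)]
      (vtx R (g * (R.lab e)⁻¹)) := by
  refine ⟨?_, ?_⟩
  · show R.complex.face 0 true (edg R (g * (R.lab e)⁻¹) e) = _
    rw [face_true, inv_mul_cancel_right]
  · show R.complex.face 0 false (edg R (g * (R.lab e)⁻¹) e) = _
    rw [face_false]

/-- paths starting at the base vertex, with their end vertex -/
def Pth (g0 : Q) : Type := {x : Q × List (R.complex.cell 1 × Bool) // R.complex.IsPath (vtx R g0) x.2 (vtx R x.1)}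

variable {g0 : Q}

/-- homotopy -/
def Rel (x y : Pth R g0) : Prop :=
  x.1.1 = y.1.1 ∧ R.complex.Homotopic (vtx R g0) (vtx R x.1.1) x.1.2 y.1.2

/-- homotopy classes of paths from the base vertex -/
def Om (g0 : Q) : Type := Quot (Rel R (g0 := g0))

/-- append an edge -/
def appF (e : Ed) (x : Pth R g0) : Pth R g0 :=
  ⟨(x.1.1 * R.lab e, x.1.2 ++ [(edg R x.1.1 e, true)]), isPath_append x.2 (isPath_fwd R _ _)⟩

/-- append an edge, backwards -/
def appB (e : Ed) (x : Pth R g0) : Pth R g0 :=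
  ⟨(x.1.1 * (R.lab e)⁻¹, x.1.2 ++ [(edg R (x.1.1 * (R.lab e)⁻¹) e, false)]),
    isPath_append x.2 (isPath_bwd R _ _)⟩

theorem rel_appF (e : Ed) (x y : Pth R g0) (h : Rel R x y) : Rel R (appF R e x) (appF R e y) := by
  obtain ⟨⟨g, l⟩, hx⟩ := x
  obtain ⟨⟨g', l'⟩, hy⟩ := y
  obtain ⟨h1, h2⟩ := h
  have h1' : g = g' := h1
  subst h1'
  exact ⟨rfl, homotopic_append h2 (isPath_fwd R _ _)⟩

theorem rel_appB (e : Ed) (x y : Pth R g0) (h : Rel R x y) : Rel R (appB R e x) (appB R e y) := by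
  obtain ⟨⟨g, l⟩, hx⟩ := x
  obtain ⟨⟨g', l'⟩, hy⟩ := y
  obtain ⟨h1, h2⟩ := h
  have h1' : g = g' := h1
  subst h1'
  exact ⟨rfl, homotopic_append h2 (isPath_bwd R _ _)⟩

theorem rel_BF (e : Ed) (x : Pth R g0) : Rel R (appB R e (appF R e x)) x := by
  obtain ⟨⟨g, l⟩, hx⟩ := x
  have hp := (appB R e (appF R e ⟨(g, l), hx⟩)).2
  have e1 : (appB R e (appF R e ⟨(g, l), hx⟩)).1.1 = g := mul_inv_cancel_right g (R.lab e)
  have e2 : (appB R e (appF R e ⟨(g, l), hx⟩)).1.2 =
      l ++ (edg R g e, true) :: (edg R g e, !true) :: [] := by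
    show (l ++ [(edg R g e, true)]) ++ [(edg R (g * R.lab e * (R.lab e)⁻¹) e, false)] = _
    rw [mul_inv_cancel_right, List.append_assoc]
    rfl
  refine ⟨e1, ?_⟩
  rw [e1, e2]
  rw [e1, e2] at hp
  have := CubeComplex.Move.cancel (K := R.complex) l [] (edg R g e) true
  rw [List.append_nil] at this
  exact .rel _ _ ⟨hp, hx, this⟩

theorem rel_FB (e : Ed) (x : Pth R g0) : Rel R (appF R e (appB R e x)) x := by
  obtain ⟨⟨g, l⟩, hx⟩ := x
  have hp := (appF R e (appB R e ⟨(g, l), hx⟩)).2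
  have e1 : (appF R e (appB R e ⟨(g, l), hx⟩)).1.1 = g := inv_mul_cancel_right g (R.lab e)
  have e2 : (appF R e (appB R e ⟨(g, l), hx⟩)).1.2 =
      l ++ (edg R (g * (R.lab e)⁻¹) e, false) :: (edg R (g * (R.lab e)⁻¹) e, !false) :: [] := by
    show (l ++ [(edg R (g * (R.lab e)⁻¹) e, false)]) ++
      [(edg R (g * (R.lab e)⁻¹) e, true)] = _
    rw [List.append_assoc]
    rfl
  refine ⟨e1, ?_⟩
  rw [e1, e2]
  rw [e1, e2] at hp
  have := CubeComplex.Move.cancel (K := R.complex) l [] (edg R (g * (R.lab e)⁻¹) e) false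
  rw [List.append_nil] at this
  exact .rel _ _ ⟨hp, hx, this⟩

/-- the permutation of the homotopy classes -/
def perm (e : Ed) : Equiv.Perm (Om R g0) where
  toFun := Quot.map (appF R e) (rel_appF R e)
  invFun := Quot.map (appB R e) (rel_appB R e)
  left_inv x := by
    induction x using Quot.ind with
    | mk x => exact Quot.sound (rel_BF R e x)
  right_inv x := by
    induction x using Quot.ind with
    | mk x => exact Quot.sound (rel_FB R e x)

theorem perm_rel (s : Sq) : perm R (g0 := g0) s.sides.2.1 * perm R s.sides.1 =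
    perm R s.sides.2.2.2 * perm R s.sides.2.2.1 := by
  ext x
  induction x using Quot.ind with
  | mk x =>
  obtain ⟨⟨g, l⟩, hx⟩ := x
  show Quot.mk _ (appF R s.sides.2.1 (appF R s.sides.1 ⟨(g, l), hx⟩)) =
    Quot.mk _ (appF R s.sides.2.2.2 (appF R s.sides.2.2.1 ⟨(g, l), hx⟩))
  refine Quot.sound ?_
  have hp := (appF R s.sides.2.1 (appF R s.sides.1 ⟨(g, l), hx⟩)).2
  have hq := (appF R s.sides.2.2.2 (appF R s.sides.2.2.1 ⟨(g, l), hx⟩)).2
  have e1 : (appF R s.sides.2.1 (appF R s.sides.1 ⟨(g, l), hx⟩)).1.1 =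
      (appF R s.sides.2.2.2 (appF R s.sides.2.2.1 ⟨(g, l), hx⟩)).1.1 := by
    show g * R.lab s.sides.1 * R.lab s.sides.2.1 = g * R.lab s.sides.2.2.1 * R.lab s.sides.2.2.2
    rw [mul_assoc, mul_assoc, R.side_rel]
  have e2 : (appF R s.sides.2.1 (appF R s.sides.1 ⟨(g, l), hx⟩)).1.2 =
      l ++ (edg R g s.sides.1, true) :: (edg R (g * R.lab s.sides.1) s.sides.2.1, true) :: [] := by
    show (l ++ [(edg R g s.sides.1, true)]) ++
      [(edg R (g * R.lab s.sides.1) s.sides.2.1, true)] = _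
    rw [List.append_assoc]
    rfl
  have e3 : (appF R s.sides.2.2.2 (appF R s.sides.2.2.1 ⟨(g, l), hx⟩)).1.2 =
      l ++ (edg R g s.sides.2.2.1, true) ::
        (edg R (g * R.lab s.sides.2.2.1) s.sides.2.2.2, true) :: [] := by
    show (l ++ [(edg R g s.sides.2.2.1, true)]) ++
      [(edg R (g * R.lab s.sides.2.2.1) s.sides.2.2.2, true)] = _
    rw [List.append_assoc]
    rfl
  refine ⟨e1, ?_⟩
  rw [← e1] at hq
  rw [e2] at hp
  rw [e3] at hq
  rw [e2, e3]
  refine .rel _ _ ⟨hp, hq, ?_⟩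
  have := CubeComplex.Move.square (K := R.complex) l [] (g, s)
  have f1 : R.complex.face 1 false ((g, s) : R.complex.cell 2) = edg R g s.sides.1 :=
    Prod.ext (mul_one g) rfl
  have f2 : R.complex.face 0 true ((g, s) : R.complex.cell 2) =
      edg R (g * R.lab s.sides.1) s.sides.2.1 := rfl
  have f3 : R.complex.face 0 false ((g, s) : R.complex.cell 2) = edg R g s.sides.2.2.1 :=
    Prod.ext (mul_one g) rfl
  have f4 : R.complex.face 1 true ((g, s) : R.complex.cell 2) =
      edg R (g * R.lab s.sides.2.2.1) s.sides.2.2.2 := rfl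
  rw [f1, f2, f3, f4] at this
  exact this

/-- the generators in the opposite of the permutation group -/
def opGens (g0 : Q) : Gens (Equiv.Perm (Om R g0))ᵐᵒᵖ where
  lab e := MulOpposite.op (perm R e)
  h1 := congrArg MulOpposite.op (perm_rel R .s1)
  h2 := congrArg MulOpposite.op (perm_rel R .s2)
  h3 := congrArg MulOpposite.op (perm_rel R .s3)
  h4 := congrArg MulOpposite.op (perm_rel R .s4)
  ht e := by
    cases e with
    | x => exact congrArg MulOpposite.op (perm_rel R .tx)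
    | w => exact congrArg MulOpposite.op (perm_rel R .tw)
    | v => exact congrArg MulOpposite.op (perm_rel R .tv)
    | y => exact congrArg MulOpposite.op (perm_rel R .ty)
    | t => rfl

theorem rel_equiv : Equivalence (Rel R (g0 := g0)) where
  refl x := ⟨rfl, .refl _⟩
  symm {x y} h := by
    obtain ⟨⟨g, l⟩, hx⟩ := x
    obtain ⟨⟨g', l'⟩, hy⟩ := y
    obtain ⟨h1, h2⟩ := h
    have h1' : g = g' := h1
    subst h1'
    exact ⟨rfl, .symm _ _ h2⟩
  trans {x y z} h h' := by
    obtain ⟨⟨g, l⟩, hx⟩ := x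
    obtain ⟨⟨g', l'⟩, hy⟩ := y
    obtain ⟨h1, h2⟩ := h
    have h1' : g = g' := h1
    subst h1'
    exact ⟨h'.1, .trans _ _ _ h2 h'.2⟩

/-- the constant path -/
def base (g0 : Q) : Pth R g0 := ⟨(g0, []), rfl⟩

end action

theorem class_eq (g0 : GG) (l : List (ggens.complex.cell 1 × Bool)) :
    ∀ (g : GG) (h : ggens.complex.IsPath (vtx ggens g0) l (vtx ggens g)),
      (Quot.mk _ (⟨(g, l), h⟩ : Pth ggens g0) : Om ggens g0) =
        ((opGens ggens g0).homG (g0⁻¹ * g)).unop (Quot.mk _ (base ggens g0)) := by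
  induction l using List.reverseRecOn with
  | nil =>
    intro g h
    have h' : vtx ggens g0 = vtx ggens g := h
    have h1 : g0 = g := congrArg Prod.fst h'
    subst h1
    rw [inv_mul_cancel, map_one]
    rfl
  | append_singleton l o ih =>
    intro g h
    obtain ⟨w, h1, h2⟩ := isPath_split h
    obtain ⟨w, ⟨⟩⟩ := w
    obtain ⟨⟨g', e⟩, b⟩ := o
    cases b with
    | true =>
      obtain ⟨h3, h4⟩ := h2
      have h3' : ggens.complex.face 0 false (edg ggens g' e) = vtx ggens w := h3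
      have h4' : vtx ggens (g' * ggens.lab e) = vtx ggens g := h4
      rw [face_false] at h3'
      have h5 : g' = w := congrArg Prod.fst h3'
      have h6 : g' * ggens.lab e = g := congrArg Prod.fst h4'
      subst h5
      subst h6
      have h7 := ih g' h1
      rw [← mul_assoc, map_mul, (opGens ggens g0).homG_lab e]
      show _ = perm ggens e (((opGens ggens g0).homG (g0⁻¹ * g')).unop (Quot.mk _ (base ggens g0)))
      rw [← h7]
      rfl
    | false =>
      obtain ⟨h3, h4⟩ := h2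
      have h3' : vtx ggens (g' * ggens.lab e) = vtx ggens w := h3
      have h4' : ggens.complex.face 0 false (edg ggens g' e) = vtx ggens g := h4
      rw [face_false] at h4'
      have h5 : g' * ggens.lab e = w := congrArg Prod.fst h3'
      have h6 : g' = g := congrArg Prod.fst h4'
      subst h5
      subst h6
      have h7 := ih (g' * ggens.lab e) h1
      have h8 : (opGens ggens g0).homG (g0⁻¹ * g') =
          (opGens ggens g0).homG (g0⁻¹ * (g' * ggens.lab e)) *
            ((opGens ggens g0).lab e)⁻¹ := by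
        have h9 : g0⁻¹ * (g' * ggens.lab e) = g0⁻¹ * g' * ggens.lab e := (mul_assoc _ _ _).symm
        rw [h9, map_mul _ (g0⁻¹ * g') (ggens.lab e), (opGens ggens g0).homG_lab e,
          mul_inv_cancel_right]
      rw [h8]
      show _ = (perm ggens e).symm
        (((opGens ggens g0).homG (g0⁻¹ * (g' * ggens.lab e))).unop (Quot.mk _ (base ggens g0)))
      rw [← h7]
      show _ = Quot.mk _ (appB ggens e _)
      refine congrArg (Quot.mk _) (Subtype.ext (Prod.ext ?_ ?_))
      · exact (mul_inv_cancel_right g' (ggens.lab e)).symm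
      · show l ++ [(edg ggens g' e, false)] =
          l ++ [(edg ggens (g' * ggens.lab e * (ggens.lab e)⁻¹) e, false)]
        rw [mul_inv_cancel_right]

theorem simplyConnected : ggens.complex.SimplyConnected := by
  refine ⟨⟨vtx ggens 1⟩, ?_, ?_⟩
  · let H : Subgroup GG :=
      { carrier := {g | ∀ u : GG, (∃ l, ggens.complex.IsPath (vtx ggens u) l (vtx ggens (u * g))) ∧
          ∃ l, ggens.complex.IsPath (vtx ggens u) l (vtx ggens (u * g⁻¹))}
        one_mem' := fun u => ⟨⟨[], by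
          show vtx ggens u = vtx ggens (u * 1)
          rw [mul_one]⟩, ⟨[], by
          show vtx ggens u = vtx ggens (u * 1⁻¹)
          rw [inv_one, mul_one]⟩⟩
        mul_mem' := fun {a b} ha hb u => by
          refine ⟨?_, ?_⟩
          · obtain ⟨l, hl⟩ := (ha u).1
            obtain ⟨m, hm⟩ := (hb (u * a)).1
            exact ⟨l ++ m, by rw [← mul_assoc]; exact isPath_append hl hm⟩
          · obtain ⟨l, hl⟩ := (hb u).2
            obtain ⟨m, hm⟩ := (ha (u * b⁻¹)).2
            exact ⟨l ++ m, by rw [mul_inv_rev, ← mul_assoc]; exact isPath_append hl hm⟩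
        inv_mem' := fun {a} ha u => ⟨(ha u).2, by rw [inv_inv]; exact (ha u).1⟩ }
    rintro ⟨u, ⟨⟩⟩ ⟨v, ⟨⟩⟩
    have hH : u⁻¹ * v ∈ H := top_of_lab H (fun e u =>
      ⟨⟨_, isPath_fwd ggens u e⟩, ⟨_, isPath_bwd ggens u e⟩⟩) _
    obtain ⟨l, hl⟩ := (hH u).1
    rw [mul_inv_cancel_left] at hl
    exact ⟨l, hl⟩
  · rintro ⟨g0, ⟨⟩⟩ l h
    have h1 := class_eq g0 l g0 h
    rw [inv_mul_cancel, map_one] at h1
    have h2 : (Quot.mk _ (⟨(g0, l), h⟩ : Pth ggens g0) : Om ggens g0) =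
      Quot.mk _ (base ggens g0) := h1
    have h3 := (rel_equiv ggens).eqvGen_iff.mp (Quot.eqvGen_exact h2)
    exact h3.2

end Pool.Agent.Lib.MP_9a92d3_gt
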