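import Pool.Agent.Lib.MP_9a92d3_gt.Homol2

set_option autoImplicit false

/-!
# The alternating sum of the logarithms of the torsion orders
-/

namespace Pool.Agent.Lib.MP_9a92d3_gt

theorem Cx.tor_ne_zero (D : Cx) (n : ℕ) (h : Module.Finite ℤ (D.C n)) : D.tor n ≠ 0 := by
  have h2 : Module.Finite ℤ (D.H n) := inferInstance
  have h3 : Module.Finite ℤ (Submodule.torsion ℤ (D.H n)) := inferInstance
  have h4 : Finite (Submodule.torsion ℤ (D.H n)) :=
    Module.finite_of_fg_torsion _ (Submodule.torsion_isTorsion)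
  unfold Cx.tor
  exact Nat.card_ne_zero.mpr ⟨⟨0⟩, h4⟩

theorem Cx.tor_eq_one (D : Cx) (n : ℕ) (h : Subsingleton (D.C n)) : D.tor n = 1 := by
  unfold Cx.tor
  have h1 : Subsingleton (D.cycles n) := inferInstance
  have h2 : Subsingleton (D.H n) :=
    (Submodule.mkQ_surjective _).subsingleton
  exact Nat.card_eq_one_iff_unique.mpr ⟨inferInstance, ⟨0⟩⟩

theorem E_tor_two {Q : Type} [Group Q] (x y : Q)
    (h : Finite (Z Q ⧸ LinearMap.range (fmap x y))) :
    (E x y).tor 2 = Nat.card (Z Q ⧸ LinearMap.range (fmap x y)) := by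
  have hc : (E x y).cycles 2 = ⊤ := by
    ext a
    exact ⟨fun _ => trivial, fun _ => rfl⟩
  let p : (E x y).cycles 2 →ₗ[ℤ] (Z Q ⧸ LinearMap.range (fmap x y)) :=
    (Submodule.mkQ _).comp ((E x y).cycles 2).subtype
  have hker : LinearMap.ker p = ((E x y).boundaries 2).submoduleOf ((E x y).cycles 2) := by
    ext a
    rw [LinearMap.mem_ker]
    exact (Submodule.Quotient.mk_eq_zero _)
  have hsurj : Function.Surjective p := by
    intro b
    induction b using Submodule.Quotient.induction_on with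
    | _ b => exact ⟨⟨b, by rw [hc]; trivial⟩, rfl⟩
  have e : (E x y).H 2 ≃ₗ[ℤ] (Z Q ⧸ LinearMap.range (fmap x y)) :=
    (Submodule.quotEquivOfEq _ _ hker.symm).trans (LinearMap.quotKerEquivOfSurjective p hsurj)
  unfold Cx.tor
  rw [card_torsion_congr e]
  have ht : Submodule.torsion ℤ (Z Q ⧸ LinearMap.range (fmap x y)) = ⊤ := by
    rw [eq_top_iff]
    intro a _
    refine ⟨⟨(Nat.card (Z Q ⧸ LinearMap.range (fmap x y)) : ℤ), ?_⟩, ?_⟩
    · rw [mem_nonZeroDivisors_iff_ne_zero]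
      exact_mod_cast Nat.card_ne_zero.mpr ⟨⟨0⟩, h⟩
    · show ((Nat.card (Z Q ⧸ LinearMap.range (fmap x y)) : ℤ)) • a = 0
      rw [natCast_zsmul]
      exact card_nsmul_eq_zero'
  rw [ht]
  exact Nat.card_congr (Equiv.Set.univ _)

theorem E_tor_three {Q : Type} [Group Q] (x y : Q) : (E x y).tor 3 = 1 := by
  have hb : ((E x y).boundaries 3).submoduleOf ((E x y).cycles 3) = ⊥ := by
    rw [eq_bot_iff]
    rintro ⟨a, ha⟩ ⟨b, hb⟩
    have h1 : a = (0 : PUnit →ₗ[ℤ] Z Q) b := hb.symm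
    exact Subtype.ext (h1.trans rfl)
  have e : (E x y).H 3 ≃ₗ[ℤ] (E x y).cycles 3 := Submodule.quotEquivOfEqBot _ hb
  unfold Cx.tor
  rw [card_torsion_congr e, Nat.card_eq_one_iff_unique]
  refine ⟨⟨?_⟩, ⟨0⟩⟩
  have key : ∀ a : Submodule.torsion ℤ ((E x y).cycles 3), a = 0 := by
    rintro ⟨⟨a, ha⟩, ⟨⟨c, hc⟩, hca⟩⟩
    have h1 : c • (a : Z Q) = 0 := congrArg Subtype.val hca
    have h2 : c ≠ 0 := nonZeroDivisors.ne_zero hc
    have h3 : ∀ a : Z Q, c • a = 0 → a = 0 := fun a h => (smul_eq_zero.mp h).resolve_left h2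
    exact Subtype.ext (Subtype.ext (h3 a h1))
  intro a b
  rw [key a, key b]

namespace Gens4

variable {P : Type} [Group P] [Finite P] (R : Gens4 P) (k : ℕ) [NeZero k]

/-- cokernel of right multiplication by `y - 2 + 2x` -/
abbrev Coker {Q : Type} [Group Q] (x y : Q) : Type := Z Q ⧸ LinearMap.range (fmap x y)

theorem torsionSum_eq (h : Finite (Coker ((R.RK k).lab .x) ((R.RK k).lab .y))) :
    (R.RK k).complex.torsionSum = Real.log (Nat.card (Coker ((R.RK k).lab .x) ((R.RK k).lab .y))) := by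
  have htor : ∀ n, (R.RK k).complex.torsionOrder n =
      (Circle.circ R.D k).tor n * (E ((R.RK k).lab .x) ((R.RK k).lab .y)).tor n := by
    intro n
    rw [← CubeComplex.tor_cx, Cx.tor_eq_of_equiv (R.mainEquiv k n)]
    exact Cx.tor_prod _ _ n
  have f0 : R.D.tor 0 ≠ 0 := Cx.tor_ne_zero _ _ (inferInstanceAs (Module.Finite ℤ (Z P)))
  have f1 : R.D.tor 1 ≠ 0 := Cx.tor_ne_zero _ _ (inferInstanceAs (Module.Finite ℤ (Z (P × Ed4))))
  have f2 : R.D.tor 2 ≠ 0 := Cx.tor_ne_zero _ _ (inferInstanceAs (Module.Finite ℤ (Z (P × Sq4))))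
  have f3 : ∀ n, R.D.tor (n + 3) = 1 := fun n =>
    Cx.tor_eq_one _ _ (inferInstanceAs (Subsingleton PUnit))
  have e0 : (E ((R.RK k).lab .x) ((R.RK k).lab .y)).tor 0 = 1 :=
    Cx.tor_eq_one _ _ (inferInstanceAs (Subsingleton PUnit))
  have e1 : (E ((R.RK k).lab .x) ((R.RK k).lab .y)).tor 1 = 1 :=
    Cx.tor_eq_one _ _ (inferInstanceAs (Subsingleton PUnit))
  have e4 : ∀ n, (E ((R.RK k).lab .x) ((R.RK k).lab .y)).tor (n + 4) = 1 := fun n =>
    Cx.tor_eq_one _ _ (inferInstanceAs (Subsingleton PUnit))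
  unfold CubeComplex.torsionSum
  rw [finsum_eq_sum_of_support_subset (s := Finset.range 4)]
  · rw [Finset.sum_range_succ, Finset.sum_range_succ, Finset.sum_range_succ, Finset.sum_range_one,
      htor, htor, htor, htor, Circle.tor_circ_zero, Circle.tor_circ_succ, Circle.tor_circ_succ,
      Circle.tor_circ_succ, e0, e1, E_tor_three, E_tor_two _ _ h, f3 0]
    have c0 : (R.D.tor 0 : ℝ) ≠ 0 := by exact_mod_cast f0
    have c1 : (R.D.tor 1 : ℝ) ≠ 0 := by exact_mod_cast f1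
    have c2 : (R.D.tor 2 : ℝ) ≠ 0 := by exact_mod_cast f2
    have c3 : (Nat.card (Coker ((R.RK k).lab .x) ((R.RK k).lab .y)) : ℝ) ≠ 0 := by
      exact_mod_cast Nat.card_ne_zero.mpr ⟨⟨0⟩, h⟩
    push_cast
    rw [mul_one, mul_one, mul_one, one_mul, Real.log_mul c1 c0, Real.log_mul (mul_ne_zero c2 c1) c3,
      Real.log_mul c2 c1]
    ring
  · intro n hn
    by_contra hn'
    have : 4 ≤ n := by simpa using hn'
    obtain ⟨m, rfl⟩ : ∃ m, n = m + 4 := ⟨n - 4, by omega⟩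
    apply hn
    show (-1 : ℝ) ^ (m + 4) * Real.log ((R.RK k).complex.torsionOrder (m + 4)) = 0
    rw [htor, Circle.tor_circ_succ, f3 (m + 1), f3 m, e4]
    simp

end Gens4

end Pool.Agent.Lib.MP_9a92d3_gt
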