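import Pool.Agent.Lib.MP_9a92d3_gt.Mg.G002
import Pool.Agent.Lib.MP_9a92d3_gt.Mg.G001

set_option autoImplicit false

/-!
# An upper bound for the order of the cokernel
-/

namespace Pool.Agent.Lib.MP_9a92d3_gt

open Polynomial Gens4

/-- right translation on `ℤ[Q]` -/
noncomputable def rho {Q : Type} [Group Q] (g : Q) : Module.End ℤ (Z Q) :=
  lin fun q => bas (q * g)

theorem rho_bas {Q : Type} [Group Q] (g q : Q) : rho g (bas q) = bas (q * g) := by
  unfold rho
  rw [lin_bas]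

theorem rho_mul {Q : Type} [Group Q] (g h : Q) : rho g * rho h = rho (h * g) := by
  refine lin_ext fun q => ?_
  rw [Module.End.mul_apply, rho_bas, rho_bas, rho_bas, mul_assoc]

theorem rho_one {Q : Type} [Group Q] : rho (1 : Q) = 1 := by
  refine lin_ext fun q => ?_
  rw [rho_bas, mul_one, Module.End.one_apply]

theorem rho_pow {Q : Type} [Group Q] (g : Q) (n : ℕ) : rho g ^ n = rho (g ^ n) := by
  induction n with
  | zero => rw [pow_zero, pow_zero, rho_one]
  | succ n ih => rw [pow_succ, ih, rho_mul, pow_succ']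

/-- Abstract computation in a ring. -/
theorem ring_key {A : Type} [Ring A] (m i p : ℕ) (hp : p.Prime) (hm : m = p ^ (i + 1))
    (X Y Y' Zt : A) (hYY : Y * Y' = 1) (hYY' : Y' * Y = 1) (hZX : Commute Zt X)
    (hZY : Commute Zt Y) (hXY : X * Y' = Y' * (X * Zt)) (hXm : X ^ m = 1) (hYm : Y' ^ m = 1)
    (hZm : Zt ^ m = 1) :
    ∃ G : A, Zt ^ p ^ i - 1 = (Y - 2 + 2 * X) * G := by
  have hm0 : 0 < m := by rw [hm]; exact pow_pos hp.pos _
  have hZY' : Commute Zt Y' := by
    have h1 : Y' * (Y * Zt) * Y' = Y' * (Zt * Y) * Y' := by rw [hZY.eq]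
    have h2 : Y' * (Y * Zt) * Y' = Zt * Y' := by rw [← mul_assoc, hYY', one_mul]
    have h3 : Y' * (Zt * Y) * Y' = Y' * Zt := by
      rw [mul_assoc, mul_assoc, hYY, mul_one]
    show Zt * Y' = Y' * Zt
    rw [← h2, ← h3, h1]
  let f : ℤ[X] →+* A := ((aeval Zt : ℤ[X] →ₐ[ℤ] A) : ℤ[X] →+* A)
  have hf : ∀ a, f a = aeval Zt a := fun a => rfl
  have hcomm : ∀ (a : ℤ[X]) (B : A), Commute Zt B → Commute (f a) B := by
    intro a B hB
    rw [hf]
    induction a using Polynomial.induction_on' with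
    | add p q hp hq => rw [map_add]; exact hp.add_left hq
    | monomial n c =>
      rw [aeval_monomial]
      refine Commute.mul_left ?_ (hB.pow_left n)
      rw [algebraMap_int_eq, eq_intCast]
      exact Int.cast_commute c B
  let ψ : ℤ[X][X] →+* A := eval₂RingHom' f X (fun a => hcomm a X hZX)
  have hψC : ∀ a, ψ (C a) = f a := fun a => eval₂_C _ _
  have hψX : ψ Polynomial.X = X := eval₂_X _ _
  have hfX : f Polynomial.X = Zt := aeval_X _
  -- the products
  obtain ⟨fac, hfac⟩ : ∃ fac : ℕ → ℤ[X][X],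
      ∀ l, fac l = 2 * (1 - Polynomial.X * C (Polynomial.X ^ l)) := ⟨_, fun _ => rfl⟩
  have hψf : ∀ l, ψ (fac l) = 2 * (1 - X * Zt ^ l) := by
    intro l
    rw [hfac, map_mul, map_sub, map_one, map_mul, hψX, hψC, map_pow, hfX, map_ofNat]
  have hstep : ∀ l, ψ (fac l) * Y' = Y' * ψ (fac (l + 1)) := by
    intro l
    rw [hψf, hψf]
    have h1 : X * Zt ^ l * Y' = Y' * (X * Zt ^ (l + 1)) := by
      rw [mul_assoc, (hZY'.pow_left l).eq, ← mul_assoc, hXY, mul_assoc, mul_assoc, pow_succ']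
    have h2 : (2 : A) * Y' = Y' * 2 := by
      have := Nat.cast_commute 2 Y'
      push_cast at this
      exact this.eq
    calc 2 * (1 - X * Zt ^ l) * Y' = 2 * (Y' - X * Zt ^ l * Y') := by
          rw [mul_assoc, sub_mul, one_mul]
      _ = 2 * (Y' * (1 - X * Zt ^ (l + 1))) := by rw [h1, mul_sub Y', mul_one]
      _ = Y' * (2 * (1 - X * Zt ^ (l + 1))) := by rw [← mul_assoc, h2, mul_assoc]
  have hprod : ∀ j a, ψ (∏ l ∈ Finset.range j, fac (l + a)) * Y' =
      Y' * ψ (∏ l ∈ Finset.range j, fac (l + (a + 1))) := by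
    intro j a
    induction j with
    | zero => simp
    | succ j ih =>
      rw [Finset.prod_range_succ, Finset.prod_range_succ, map_mul, map_mul, mul_assoc, hstep,
        ← mul_assoc, ih, mul_assoc]
      rfl
  set U : A := Y' * (2 * (1 - X)) with hU
  have hU0 : U = Y' * ψ (fac 0) := by rw [hψf, pow_zero, mul_one]
  have hUpow : ∀ j, U ^ j = Y' ^ j * ψ (∏ l ∈ Finset.range j, fac l) := by
    intro j
    induction j with
    | zero => simp
    | succ j ih =>
      rw [pow_succ U, ih, hU0, Finset.prod_range_succ', map_mul, pow_succ Y']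
      have h1 := hprod j 0
      simp only [add_zero, zero_add] at h1
      calc Y' ^ j * ψ (∏ l ∈ Finset.range j, fac l) * (Y' * ψ (fac 0))
          = Y' ^ j * (ψ (∏ l ∈ Finset.range j, fac l) * Y') * ψ (fac 0) := by
            simp only [mul_assoc]
        _ = Y' ^ j * (Y' * ψ (∏ l ∈ Finset.range j, fac (l + 1))) * ψ (fac 0) := by rw [h1]
        _ = _ := by simp only [mul_assoc]
  obtain ⟨h, hh⟩ := key_dvd m hm0
  have hUm : U ^ m = 2 ^ m * (f (cyclotomic m ℤ) * ψ h) := by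
    rw [hUpow, hYm, one_mul]
    have h1 : (∏ l ∈ Finset.range m, fac l) = 2 ^ m * gprod m := by
      rw [Finset.prod_congr rfl fun l _ => hfac l, Finset.prod_mul_distrib, Finset.prod_const,
        Finset.card_range, gprod]
    rw [h1, hh, map_mul, map_pow, map_ofNat, map_add, map_sub, map_one, map_pow, hψX, hXm, sub_self,
      zero_add, map_mul, hψC]
  have hcyc : (Zt ^ p ^ i - 1) * f (cyclotomic m ℤ) = 0 := by
    have h1 := cyclotomic_prime_pow_mul_X_pow_sub_one ℤ p i (hn := ⟨hp⟩)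
    have h2 := congrArg f h1
    rw [map_mul, map_sub, map_sub, map_one, map_pow, map_pow, hfX, ← hm, hZm, sub_self] at h2
    have h3 : Commute (f (cyclotomic m ℤ)) (Zt ^ p ^ i - 1) :=
      hcomm _ _ (((Commute.refl Zt).pow_right _).sub_right (Commute.one_right _))
    rw [← h3.eq]
    exact h2
  have hDY : Commute (Zt ^ p ^ i - 1) Y := (hZY.pow_left _).sub_left (Commute.one_left _)
  have hDX : Commute (Zt ^ p ^ i - 1) X := (hZX.pow_left _).sub_left (Commute.one_left _)
  set D := Zt ^ p ^ i - 1 with hD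
  have hF : Y - 2 + 2 * X = Y * (1 - U) := by
    rw [mul_sub, mul_one, hU, ← mul_assoc, hYY, one_mul, mul_sub, mul_one]
    abel
  have h2D : Commute D 2 := by
    have := Nat.commute_cast D 2
    push_cast at this
    exact this
  refine ⟨D * (∑ j ∈ Finset.range m, U ^ j) * Y', ?_⟩
  have hDU : Commute D U := by
    have hDY' : Commute D Y' := (hZY'.pow_left _).sub_left (Commute.one_left _)
    refine hDY'.mul_right (h2D.mul_right ?_)
    exact (Commute.one_right D).sub_right hDX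
  have h4 : (1 - U) * (D * (∑ j ∈ Finset.range m, U ^ j) * Y') = D * (1 - U ^ m) * Y' := by
    have h5 : (1 - U) * D = D * (1 - U) := ((Commute.one_right D).sub_right hDU).eq.symm
    calc (1 - U) * (D * (∑ j ∈ Finset.range m, U ^ j) * Y')
        = (1 - U) * D * (∑ j ∈ Finset.range m, U ^ j) * Y' := by simp only [mul_assoc]
      _ = D * ((1 - U) * (∑ j ∈ Finset.range m, U ^ j)) * Y' := by rw [h5]; simp only [mul_assoc]
      _ = D * (1 - U ^ m) * Y' := by rw [mul_neg_geom_sum]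
  have h6 : D * (1 - U ^ m) = D := by
    have h7 : Commute D ((2 : A) ^ m) := h2D.pow_right m
    rw [mul_sub, mul_one, hUm, ← mul_assoc, h7.eq, mul_assoc, ← mul_assoc D, hcyc, zero_mul,
      mul_zero, sub_zero]
  rw [hF, mul_assoc, h4, h6, ← mul_assoc, ← hDY.eq, mul_assoc, hYY, mul_one]

section

variable (p i k : ℕ) [hp : Fact p.Prime] [NeZero k]

/-- the quotient group -/
abbrev QA (p i k : ℕ) : Type :=
  PK (Hs (pr (p ^ (i + 1)) (p ^ (i + 1)) (dvd_refl _))) k

/-- the central element -/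
def ze : QA p i k := (⟨0, 0, 1⟩, 1)

theorem pr_self (n : ℕ) (a : ZMod n) : pr n n (dvd_refl n) a = a := by
  have : pr n n (dvd_refl n) = RingHom.id (ZMod n) := RingHom.ext_zmod _ _
  rw [this]
  rfl

theorem ze_pow (n : ℕ) : ze p i k ^ n = (⟨0, 0, (n : ZMod (p ^ (i + 1)))⟩, 1) := by
  induction n with
  | zero =>
    rw [pow_zero]
    refine Prod.ext (Hs.ext rfl rfl ?_) rfl
    show (0 : ZMod (p ^ (i + 1))) = ((0 : ℕ) : ZMod (p ^ (i + 1)))
    rw [Nat.cast_zero]
  | succ n ih =>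
    rw [pow_succ, ih]
    refine Prod.ext (Hs.ext (add_zero _) (add_zero _) ?_) (mul_one _)
    show (n : ZMod (p ^ (i + 1))) + 1 + pr _ _ _ 0 * 0 = ((n + 1 : ℕ) : ZMod (p ^ (i + 1)))
    push_cast
    ring

theorem mul_ze_pow (q : QA p i k) (n : ℕ) : q * ze p i k ^ n =
    (⟨q.1.a, q.1.b, q.1.c + (n : ZMod (p ^ (i + 1)))⟩, q.2) := by
  rw [ze_pow]
  refine Prod.ext (Hs.ext (add_zero _) (add_zero _) ?_) (mul_one _)
  show q.1.c + (n : ZMod (p ^ (i + 1))) + pr _ _ _ q.1.a * 0 = _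
  rw [mul_zero, add_zero]

/-- the differential -/
noncomputable abbrev fA : Z (QA p i k) →ₗ[ℤ] Z (QA p i k) :=
  fmap (((Hs.gens (pr (p ^ (i + 1)) (p ^ (i + 1)) (dvd_refl _))).RK k).lab .x)
    (((Hs.gens (pr (p ^ (i + 1)) (p ^ (i + 1)) (dvd_refl _))).RK k).lab .y)

theorem sub_mem_range (q : QA p i k) :
    bas (q * ze p i k ^ p ^ i) - bas q ∈ LinearMap.range (fA p i k) := by
  set x : QA p i k := ((Hs.gens (pr (p ^ (i + 1)) (p ^ (i + 1)) (dvd_refl _))).RK k).lab .x with hx
  set y : QA p i k := ((Hs.gens (pr (p ^ (i + 1)) (p ^ (i + 1)) (dvd_refl _))).RK k).lab .y with hy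
  have hcast : ((p ^ (i + 1) : ℕ) : ZMod (p ^ (i + 1))) = 0 := ZMod.natCast_self _
  have hxp : ∀ n : ℕ, x ^ n = (⟨(n : ZMod (p ^ (i + 1))), 0, 0⟩, 1) := by
    intro n
    induction n with
    | zero =>
      rw [pow_zero]
      refine Prod.ext (Hs.ext ?_ rfl rfl) rfl
      show (0 : ZMod (p ^ (i + 1))) = ((0 : ℕ) : ZMod (p ^ (i + 1)))
      rw [Nat.cast_zero]
    | succ n ih =>
      rw [pow_succ, ih]
      refine Prod.ext (Hs.ext ?_ (add_zero _) ?_) (mul_one _)
      · show (n : ZMod (p ^ (i + 1))) + 1 = ((n + 1 : ℕ) : ZMod (p ^ (i + 1)))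
        push_cast
        ring
      · show (0 : ZMod (p ^ (i + 1))) + 0 + pr _ _ _ (n : ZMod (p ^ (i + 1))) * 0 = 0
        ring
  have hyp : ∀ n : ℕ, y ^ n = (⟨0, (n : ZMod (p ^ (i + 1))), 0⟩, 1) := by
    intro n
    induction n with
    | zero =>
      rw [pow_zero]
      refine Prod.ext (Hs.ext rfl ?_ rfl) rfl
      show (0 : ZMod (p ^ (i + 1))) = ((0 : ℕ) : ZMod (p ^ (i + 1)))
      rw [Nat.cast_zero]
    | succ n ih =>
      rw [pow_succ, ih]
      refine Prod.ext (Hs.ext (add_zero _) ?_ ?_) (mul_one _)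
      · show (n : ZMod (p ^ (i + 1))) + 1 = ((n + 1 : ℕ) : ZMod (p ^ (i + 1)))
        push_cast
        ring
      · show (0 : ZMod (p ^ (i + 1))) + 0 + pr _ _ _ 0 * 1 = 0
        rw [map_zero]
        ring
  have hyx : x * y = y * x * ze p i k := by
    refine Prod.ext (Hs.ext ?_ ?_ ?_) (mul_one _).symm
    · show (1 : ZMod (p ^ (i + 1))) + 0 = 0 + 1 + 0
      ring
    · show (0 : ZMod (p ^ (i + 1))) + 1 = 1 + 0 + 0
      ring
    · show (0 : ZMod (p ^ (i + 1))) + 0 + pr _ _ _ 1 * 1 =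
        0 + 0 + pr _ _ _ 0 * 0 + 1 + pr _ _ _ (0 + 1) * 0
      rw [map_one]
      ring
  have hzc : ∀ g : QA p i k, g * ze p i k = ze p i k * g := by
    intro g
    refine Prod.ext (Hs.ext ?_ ?_ ?_) ?_
    · exact add_comm _ _
    · exact add_comm _ _
    · show g.1.c + 1 + pr _ _ _ g.1.a * 0 = 1 + g.1.c + pr _ _ _ 0 * g.1.b
      rw [map_zero]
      ring
    · exact mul_comm _ _
  have hkey := ring_key (A := Module.End ℤ (Z (QA p i k))) (p ^ (i + 1)) i p hp.out rfl
    (rho x) (rho y) (rho y⁻¹) (rho (ze p i k))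
    (by rw [rho_mul, inv_mul_cancel, rho_one]) (by rw [rho_mul, mul_inv_cancel, rho_one])
    (by rw [commute_iff_eq, rho_mul, rho_mul, hzc]) (by rw [commute_iff_eq, rho_mul, rho_mul, hzc])
    (by
      rw [rho_mul, rho_mul, rho_mul]
      congr 1
      have h1 : y⁻¹ * (x * y) = x * ze p i k := by
        rw [hyx, ← mul_assoc, ← mul_assoc, inv_mul_cancel, one_mul]
      rw [← hzc, ← h1]
      group)
    (by
      rw [rho_pow, hxp, hcast, ← rho_one]
      rfl)
    (by
      rw [rho_pow, inv_pow, hyp, hcast, ← rho_one]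
      exact congrArg rho (inv_one : (1 : QA p i k)⁻¹ = 1))
    (by
      rw [rho_pow, ze_pow, hcast, ← rho_one]
      rfl)
  obtain ⟨G, hG⟩ := hkey
  have h1 := LinearMap.congr_fun hG (bas q)
  have h2 : (rho (ze p i k) ^ p ^ i - 1) (bas q) = bas (q * ze p i k ^ p ^ i) - bas q := by
    rw [LinearMap.sub_apply, rho_pow, rho_bas, Module.End.one_apply]
  have h3 : fA p i k = rho y - 2 + 2 * rho x := by
    refine lin_ext fun g => ?_
    rw [fmap_bas]
    show _ = rho y (bas g) - (2 : Module.End ℤ (Z (QA p i k))) (bas g) +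
      ((2 : Module.End ℤ (Z (QA p i k))) * rho x) (bas g)
    rw [Module.End.mul_apply, rho_bas, rho_bas, Module.End.ofNat_apply, Module.End.ofNat_apply]
    simp [hx, hy]
  rw [← h2, h1, ← h3]
  exact ⟨G (bas q), rfl⟩

/-- the smaller set -/
abbrev QB (p i k : ℕ) : Type :=
  ZMod (p ^ (i + 1)) × ZMod (p ^ (i + 1)) × ZMod (p ^ i) × Multiplicative (ZMod k)

def toB (q : QA p i k) : QB p i k :=
  (q.1.a, q.1.b, pr (p ^ (i + 1)) (p ^ i) (pow_dvd_pow p (Nat.le_succ i)) q.1.c, q.2)

theorem toB_surjective : Function.Surjective (toB p i k) := by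
  rintro ⟨a, b, c, t⟩
  obtain ⟨c, rfl⟩ := ZMod.castHom_surjective (pow_dvd_pow p (Nat.le_succ i)) c
  exact ⟨(⟨a, b, c⟩, t), rfl⟩

theorem exists_of_toB_eq (q q' : QA p i k) (h : toB p i k q = toB p i k q') :
    ∃ j : ℕ, q' = q * (ze p i k ^ p ^ i) ^ j := by
  have : NeZero (p ^ (i + 1)) := ⟨(pow_pos hp.out.pos _).ne'⟩
  have ha : q.1.a = q'.1.a := (Prod.ext_iff.mp h).1
  have hb : q.1.b = q'.1.b := (Prod.ext_iff.mp (Prod.ext_iff.mp h).2).1
  have hc := (Prod.ext_iff.mp (Prod.ext_iff.mp (Prod.ext_iff.mp h).2).2).1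
  have ht : q.2 = q'.2 := (Prod.ext_iff.mp (Prod.ext_iff.mp (Prod.ext_iff.mp h).2).2).2
  have h1 : pr (p ^ (i + 1)) (p ^ i) (pow_dvd_pow p (Nat.le_succ i)) (q'.1.c - q.1.c) = 0 := by
    rw [map_sub, sub_eq_zero]
    exact hc.symm
  have h2 : ((q'.1.c - q.1.c).val : ZMod (p ^ i)) = 0 := by
    rw [← h1]
    conv_rhs => rw [← ZMod.natCast_zmod_val (q'.1.c - q.1.c)]
    rw [map_natCast]
  obtain ⟨j, hj⟩ := (ZMod.natCast_eq_zero_iff _ _).mp h2
  refine ⟨j, ?_⟩
  rw [← pow_mul, mul_ze_pow, ← hj, ZMod.natCast_zmod_val]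
  refine Prod.ext (Hs.ext ha.symm hb.symm ?_) ht.symm
  show q'.1.c = q.1.c + (q'.1.c - q.1.c)
  ring

theorem mk_eq_of_toB_eq (q q' : QA p i k) (h : toB p i k q = toB p i k q') :
    (Submodule.Quotient.mk (bas q) : Z (QA p i k) ⧸ LinearMap.range (fA p i k)) =
      Submodule.Quotient.mk (bas q') := by
  obtain ⟨j, rfl⟩ := exists_of_toB_eq p i k q q' h
  clear h
  induction j with
  | zero => rw [pow_zero, mul_one]
  | succ j ih =>
    rw [ih, eq_comm, Submodule.Quotient.eq, pow_succ (ze p i k ^ p ^ i) j, ← mul_assoc]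
    exact sub_mem_range p i k _

/-- right multiplication by `y` on the smaller set -/
def sB : QB p i k ≃ QB p i k where
  toFun q := (q.1, q.2.1 + 1,
    q.2.2.1 + pr (p ^ (i + 1)) (p ^ i) (pow_dvd_pow p (Nat.le_succ i)) q.1, q.2.2.2)
  invFun q := (q.1, q.2.1 - 1,
    q.2.2.1 - pr (p ^ (i + 1)) (p ^ i) (pow_dvd_pow p (Nat.le_succ i)) q.1, q.2.2.2)
  left_inv q := by
    obtain ⟨a, b, c, t⟩ := q
    simp
  right_inv q := by
    obtain ⟨a, b, c, t⟩ := q
    simp

/-- right multiplication by `x` on the smaller set -/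
def tB (q : QB p i k) : QB p i k := (q.1 + 1, q.2)

theorem card_coker_le :
    Nat.card (Z (QA p i k) ⧸ LinearMap.range (fA p i k)) ≤
      5 ^ (p ^ (i + 1) * (p ^ (i + 1) * (p ^ i * k))) := by
  classical
  have : NeZero (p ^ (i + 1)) := ⟨(pow_pos hp.out.pos _).ne'⟩
  have : NeZero (p ^ i) := ⟨(pow_pos hp.out.pos _).ne'⟩
  have hfin := finite_pmap (sB p i k) (tB p i k)
  have hcard := card_pmap (sB p i k) (tB p i k)
  have hQ : Fintype.card (QB p i k) = p ^ (i + 1) * (p ^ (i + 1) * (p ^ i * k)) := by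
    rw [Fintype.card_prod, Fintype.card_prod, Fintype.card_prod, ZMod.card, ZMod.card,
      Fintype.card_multiplicative, ZMod.card]
  rw [hQ] at hcard
  refine le_trans ?_ hcard
  set M := Z (QA p i k) ⧸ LinearMap.range (fA p i k) with hM
  let sec : QB p i k → QA p i k := Function.surjInv (toB_surjective p i k)
  have hsec : ∀ b, toB p i k (sec b) = b := Function.surjInv_eq (toB_surjective p i k)
  let s : Z (QB p i k) →ₗ[ℤ] M := lin fun b => Submodule.Quotient.mk (bas (sec b))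
  have hs : ∀ q : QA p i k, s (bas (toB p i k q)) = Submodule.Quotient.mk (bas q) := by
    intro q
    show lin _ _ = _
    rw [lin_bas]
    exact mk_eq_of_toB_eq p i k _ _ (hsec _)
  have hker : LinearMap.range (pmap (sB p i k) (tB p i k)) ≤ LinearMap.ker s := by
    rintro _ ⟨u, rfl⟩
    rw [LinearMap.mem_ker]
    have : s.comp (pmap (sB p i k) (tB p i k)) = 0 := by
      refine lin_ext fun b => ?_
      rw [LinearMap.comp_apply, LinearMap.zero_apply]
      unfold pmap
      rw [lin_bas, map_add, map_sub, map_smul, map_smul]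
      set q := sec b with hq
      have hb : b = toB p i k q := (hsec b).symm
      rw [hb]
      have e1 : sB p i k (toB p i k q) =
          toB p i k (q * ((Hs.gens (pr (p ^ (i + 1)) (p ^ (i + 1)) (dvd_refl _))).RK k).lab .y) := by
        refine Prod.ext ?_ (Prod.ext ?_ (Prod.ext ?_ ?_))
        · show q.1.a = q.1.a + 0
          rw [add_zero]
        · rfl
        · show _ = pr (p ^ (i + 1)) (p ^ i) _ (q.1.c + 0 + pr _ _ _ q.1.a * 1)
          rw [pr_self, add_zero, mul_one, map_add]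
          rfl
        · exact (mul_one _).symm
      have e2 : tB p i k (toB p i k q) =
          toB p i k (q * ((Hs.gens (pr (p ^ (i + 1)) (p ^ (i + 1)) (dvd_refl _))).RK k).lab .x) := by
        refine Prod.ext ?_ (Prod.ext ?_ (Prod.ext ?_ ?_))
        · rfl
        · show q.1.b = q.1.b + 0
          rw [add_zero]
        · show _ = pr (p ^ (i + 1)) (p ^ i) _ (q.1.c + 0 + pr _ _ _ q.1.a * 0)
          rw [add_zero, mul_zero, add_zero]
          rfl
        · exact (mul_one _).symm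
      rw [e1, e2, hs, hs, hs, ← Submodule.Quotient.mk_smul, ← Submodule.Quotient.mk_smul,
        ← Submodule.Quotient.mk_sub, ← Submodule.Quotient.mk_add, Submodule.Quotient.mk_eq_zero]
      exact ⟨bas q, fmap_bas _ _ _⟩
    exact LinearMap.congr_fun this u
  refine Nat.card_le_card_of_surjective (Submodule.liftQ _ s hker) ?_
  intro z
  induction z using Submodule.Quotient.induction_on with
  | _ u =>
  have : u ∈ Submodule.comap (Submodule.mkQ (LinearMap.range (fA p i k)))
      (LinearMap.range (Submodule.liftQ _ s hker)) := by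
    refine mem_of_bas _ (fun q => ?_) u
    exact ⟨Submodule.Quotient.mk (bas (toB p i k q)), hs q⟩
  exact this

end

end Pool.Agent.Lib.MP_9a92d3_gt
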